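import Pool.Agent.Helper55_HK.Roots

/-! Bigons in line configurations and spheres in the Hirzebruch-Kummer covering. -/

open Topology unitInterval
open scoped LinearAlgebra.Projectivization Matrix

namespace Pool.Agent.Helper55_HK

/-- Quotients of continuous functions with constant quotients of `n`-th powers are constant. -/
theorem ratio_const {n : ℕ} (hn : n ≠ 0) (f g : C(I, ℂ)) (hf : ∀ x, f x ≠ 0)
    (hg : ∀ x, g x ≠ 0) {c d : ℂ} (hc : c ≠ 0) (h : ∀ x, c * f x ^ n = d * g x ^ n) (x y : I) :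
    f x * g y = f y * g x := by
  obtain ⟨F, hF⟩ := exists_log_interval f hf
  obtain ⟨G, hG⟩ := exists_log_interval g hg
  have h1 : ∀ x, Complex.exp (n * (F x - G x)) = d / c := by
    intro x
    rw [Complex.exp_nat_mul, Complex.exp_sub, hF, hG, div_pow]
    have := hg x
    rw [div_eq_div_iff (pow_ne_zero _ this) hc]
    linear_combination h x
  have h2 := const_of_exp_const (g := fun x => (n : ℂ) * (F x - G x)) (by fun_prop)
    (fun a b => by rw [h1, h1]) x y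
  have hn' : (n : ℂ) ≠ 0 := by exact_mod_cast hn
  have h3 : F x - G x = F y - G y := mul_left_cancel₀ hn' h2
  have h4 : F x + G y = F y + G x := by linear_combination h3
  rw [← hF, ← hG, ← hF, ← hG, ← Complex.exp_add, ← Complex.exp_add, h4]

/-- A form vanishing at the common zero `o` of two independent forms is a combination. -/
theorem exists_combination {a b o c : Fin 3 → ℂ} (hab : LinearIndependent ℂ ![a, b])
    (ho : o ≠ 0) (hao : a ⬝ᵥ o = 0) (hbo : b ⬝ᵥ o = 0) (hco : c ⬝ᵥ o = 0) :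
    ∃ P Q : ℂ, c = P • a + Q • b := by
  by_contra hcon
  have hlin : LinearIndependent ℂ ![c, a, b] := by
    refine linearIndependent_finCons.2 ⟨hab, fun hc => hcon ?_⟩
    have hc' : c ∈ Submodule.span ℂ ({a, b} : Set (Fin 3 → ℂ)) := by
      simpa [Matrix.range_cons, Matrix.range_empty, Set.pair_comm] using hc
    obtain ⟨P, Q, hPQ⟩ := Submodule.mem_span_pair.1 hc'
    exact ⟨P, Q, hPQ.symm⟩
  have hunit := Matrix.linearIndependent_rows_iff_isUnit (A := Matrix.of ![c, a, b]) |>.1 hlin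
  have hdet : (Matrix.of ![c, a, b]).mulVec o = 0 := by
    funext i
    fin_cases i
    · exact hco
    · exact hao
    · exact hbo
  have hinj := Matrix.mulVec_injective_iff_isUnit.2 hunit
  exact ho (hinj (by rw [hdet, Matrix.mulVec_zero]))

/-- The common zeros of two independent forms are the multiples of one vector. -/
theorem exists_smul_cross {a b v : Fin 3 → ℂ} (hab : LinearIndependent ℂ ![a, b])
    (hav : a ⬝ᵥ v = 0) (hbv : b ⬝ᵥ v = 0) : ∃ c : ℂ, v = c • (crossProduct a b) := by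
  have hm := crossProduct_ne_zero_iff_linearIndependent.2 hab
  have h1 : crossProduct (crossProduct a b) v = 0 := by
    rw [cross_cross_eq_smul_sub_smul, hav, hbv]
    simp
  by_contra hcon
  push Not at hcon
  have h2 : LinearIndependent ℂ ![crossProduct a b, v] :=
    (LinearIndependent.pair_iff' hm).2 fun c hc => hcon c hc.symm
  exact crossProduct_ne_zero_iff_linearIndependent.2 h2 h1

theorem exists_smul_of_zero {a b o v : Fin 3 → ℂ} (hab : LinearIndependent ℂ ![a, b])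
    (ho : o ≠ 0) (hao : a ⬝ᵥ o = 0) (hbo : b ⬝ᵥ o = 0) (hav : a ⬝ᵥ v = 0) (hbv : b ⬝ᵥ v = 0) :
    ∃ c : ℂ, v = c • o := by
  obtain ⟨c, hc⟩ := exists_smul_cross hab hao hbo
  obtain ⟨d, hd⟩ := exists_smul_cross hab hav hbv
  have hc0 : c ≠ 0 := by
    rintro rfl
    exact ho (by rw [hc, zero_smul])
  refine ⟨d / c, ?_⟩
  rw [hd, hc, smul_smul, div_mul_cancel₀ _ hc0]

/-- A point of the Hirzebruch-Kummer covering from its homogeneous coordinates, away from the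
exceptional curves. -/
noncomputable def HK.mk' (n : ℕ) {k : ℕ} (a : Fin k → Fin 3 → ℂ) (x : Fin k → ℂ)
    (v : Fin 3 → ℂ) (hx : ∀ i, x i ^ n = a i ⬝ᵥ v) (h0 : x ≠ 0)
    (hS : ∀ S : {S : Finset (Fin k) // IsMultiple a S}, (fun i : S.1 => x i) ≠ 0) : HK n a :=
  ⟨(Projectivization.mk ℂ x h0, fun S => Projectivization.mk ℂ (fun i : S.1 => x i) (hS S)), by
    have key : ∀ {ι : Type} (b : ι → Fin 3 → ℂ) (y : ι → ℂ) (hy : y ≠ 0)
        (_ : ∀ i, y i ^ n = b i ⬝ᵥ v), Projectivization.mk ℂ y hy ∈ kummer n b := by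
      intro ι b y hy hyb
      obtain ⟨c, hc⟩ := Projectivization.exists_smul_eq_mk_rep ℂ y hy
      refine ⟨(c : ℂ) ^ n • v, fun i => ?_⟩
      change _ = b i ⬝ᵥ _
      rw [← hc, dotProduct_smul, smul_eq_mul, ← hyb, ← mul_pow]
      rfl
    refine ⟨key a x h0 hx, fun S => ⟨key _ _ (hS S) fun i => hx i, ?_⟩⟩
    obtain ⟨c, hc⟩ := Projectivization.exists_smul_eq_mk_rep ℂ x h0
    obtain ⟨d, hd⟩ := Projectivization.exists_smul_eq_mk_rep ℂ _ (hS S)
    refine ⟨(c : ℂ) / d, fun i => ?_⟩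
    simp only []
    rw [← hc, ← hd]
    have hd0 : (d : ℂ) ≠ 0 := d.ne_zero
    change (c : ℂ) * x i = (c : ℂ) / d * ((d : ℂ) * x i)
    field_simp⟩

theorem HK.mk'_eq {n k : ℕ} {a : Fin k → Fin 3 → ℂ} {x y : Fin k → ℂ} {v w : Fin 3 → ℂ}
    {hx : ∀ i, x i ^ n = a i ⬝ᵥ v} {hy : ∀ i, y i ^ n = a i ⬝ᵥ w} {h0 : x ≠ 0} {h0' : y ≠ 0}
    {hS : ∀ S : {S : Finset (Fin k) // IsMultiple a S}, (fun i : S.1 => x i) ≠ 0}
    {hS' : ∀ S : {S : Finset (Fin k) // IsMultiple a S}, (fun i : S.1 => y i) ≠ 0}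
    (c : ℂ) (h : ∀ i, c * y i = x i) : HK.mk' n a x v hx h0 hS = HK.mk' n a y w hy h0' hS' := by
  refine Subtype.ext (Prod.ext ?_ (funext fun S => ?_))
  · exact (Projectivization.mk_eq_mk_iff' ℂ _ _ _ _).2 ⟨c, funext h⟩
  · exact (Projectivization.mk_eq_mk_iff' ℂ _ _ _ _).2 ⟨c, funext fun i => h i⟩

theorem HK.continuous_mk' {Z : Type*} [TopologicalSpace Z] {n k : ℕ} {a : Fin k → Fin 3 → ℂ}
    {x : Z → Fin k → ℂ} {v : Z → Fin 3 → ℂ} (hc : Continuous x)
    (hx : ∀ z i, x z i ^ n = a i ⬝ᵥ v z) (h0 : ∀ z, x z ≠ 0)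
    (hS : ∀ z, ∀ S : {S : Finset (Fin k) // IsMultiple a S}, (fun i : S.1 => x z i) ≠ 0) :
    Continuous fun z => HK.mk' n a (x z) (v z) (hx z) (h0 z) (hS z) := by
  refine Continuous.subtype_mk (Continuous.prodMk (continuous_mk hc h0) ?_) _
  refine continuous_pi fun S => ?_
  exact continuous_mk (f := fun z => fun i : S.1 => x z i) (by fun_prop) fun z => hS z S

theorem sq_fst_eq_zero {z : ℝ × ℝ} : (sq z).1 = 0 ↔ z.1 ≤ 0 :=
  Set.projIcc_eq_left (α := ℝ) zero_lt_one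

theorem sq_fst_eq_one {z : ℝ × ℝ} : (sq z).1 = 1 ↔ 1 ≤ z.1 :=
  Set.projIcc_eq_right (α := ℝ) zero_lt_one

theorem sq_snd_eq_zero {z : ℝ × ℝ} : (sq z).2 = 0 ↔ z.2 ≤ 0 :=
  Set.projIcc_eq_left (α := ℝ) zero_lt_one

theorem sq_snd_eq_one {z : ℝ × ℝ} : (sq z).2 = 1 ↔ 1 ≤ z.2 :=
  Set.projIcc_eq_right (α := ℝ) zero_lt_one

/-- The Hirzebruch-Kummer covering of a configuration with a bigon is not a `K(π,1)`. -/
theorem not_isKPiOne_of_bigon {n : ℕ} (hn : 2 ≤ n) {k : ℕ} {a : Fin k → Fin 3 → ℂ}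
    (ha : IsConfig a) {A B T T' : Fin k} {o : Fin 3 → ℂ} {δ : C(Square, Fin 3 → ℂ)} {w : ℤ}
    (H : IsBigon a A B o δ) (Hmisses : Misses a T T' o δ) (Hwinding : Winds a T T' δ w)
    (Hdvd : ¬ (n : ℤ) ∣ w) : ¬ IsKPiOne (HK n a) := by
  rintro ⟨U, _, p, cov, hsurj, hU⟩
  have hn0 : n ≠ 0 := by omega
  have hn1 : 0 < n := by omega
  obtain ⟨h, hw, hh⟩ := Hwinding
  have Hdouble : ∀ i, a i ⬝ᵥ o = 0 ↔ i = A ∨ i = B := H.double
  have HonA : ∀ x s, a A ⬝ᵥ δ (x, s) = 0 ↔ x = 0 ∨ s = 0 ∨ s = 1 := H.on_A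
  have HonB : ∀ x s, a B ⬝ᵥ δ (x, s) = 0 ↔ x = 1 ∨ s = 0 ∨ s = 1 := H.on_B
  have Hoff : ∀ i, i ≠ A → i ≠ B → ∀ z, a i ⬝ᵥ δ z ≠ 0 := H.off
  have Hmisses : ∀ x s, s ≠ 0 → s ≠ 1 →
      (a T ⬝ᵥ δ (x, s)) * (a T' ⬝ᵥ o) ≠ (a T' ⬝ᵥ δ (x, s)) * (a T ⬝ᵥ o) := Hmisses
  have hh : ∀ s, Complex.exp (h s) = (a T ⬝ᵥ δ (0, s)) / (a T' ⬝ᵥ δ (0, s)) := hh
  -- a point of the open interval
  have hh0 : half 1 ≠ 0 := half_ne_zero one_ne_zero
  have hh1 : half 1 ≠ 1 := half_ne_one 1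
  -- the four lines are distinct enough
  have hAB : A ≠ B := by
    rintro rfl
    have h1 := (HonA 0 (half 1)).2 (Or.inl rfl)
    rcases (HonB 0 (half 1)).1 h1 with h2 | h2 | h2
    · exact zero_ne_one h2
    · exact hh0 h2
    · exact hh1 h2
  have hAz : ∀ s, a A ⬝ᵥ δ (0, s) = 0 := fun s => (HonA 0 s).2 (Or.inl rfl)
  have hBz : ∀ s, a B ⬝ᵥ δ (1, s) = 0 := fun s => (HonB 1 s).2 (Or.inl rfl)
  have hAo : a A ⬝ᵥ o = 0 := (Hdouble A).2 (Or.inl rfl)
  have hBo : a B ⬝ᵥ o = 0 := (Hdouble B).2 (Or.inr rfl)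
  have hTA : T ≠ A := by
    rintro rfl
    have := hh 0
    rw [hAz, zero_div] at this
    exact Complex.exp_ne_zero _ this
  have hT'A : T' ≠ A := by
    rintro rfl
    have := hh 0
    rw [hAz, div_zero] at this
    exact Complex.exp_ne_zero _ this
  have hTB : T ≠ B := by
    rintro rfl
    refine Hmisses 1 (half 1) hh0 hh1 ?_
    rw [hBz, hBo, zero_mul, mul_zero]
  have hT'B : T' ≠ B := by
    rintro rfl
    refine Hmisses 1 (half 1) hh0 hh1 ?_
    rw [hBz, hBo, zero_mul, mul_zero]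
  have hTo : a T ⬝ᵥ o ≠ 0 := fun h0 => by
    rcases (Hdouble T).1 h0 with h1 | h1
    · exact hTA h1
    · exact hTB h1
  have hT'o : a T' ⬝ᵥ o ≠ 0 := fun h0 => by
    rcases (Hdouble T').1 h0 with h1 | h1
    · exact hT'A h1
    · exact hT'B h1
  have ho : o ≠ 0 := by
    rintro rfl
    exact hTo (dotProduct_zero _)
  have hlin := ha.distinct A B hAB
  -- roots of unity and constants
  obtain ⟨ζ, hζ⟩ : ∃ ζ : ℂ, IsPrimitiveRoot ζ n := ⟨_, Complex.isPrimitiveRoot_exp n hn0⟩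
  obtain ⟨κ, hκ⟩ := IsAlgClosed.exists_pow_nat_eq (a T ⬝ᵥ o)⁻¹ hn1
  obtain ⟨κ', hκ'⟩ := IsAlgClosed.exists_pow_nat_eq (a T' ⬝ᵥ o)⁻¹ hn1
  have hκ0 : κ ≠ 0 := by
    rintro rfl
    rw [zero_pow hn0] at hκ
    exact hTo (inv_eq_zero.1 hκ.symm)
  have hκ'0 : κ' ≠ 0 := by
    rintro rfl
    rw [zero_pow hn0] at hκ'
    exact hT'o (inv_eq_zero.1 hκ'.symm)
  obtain ⟨P, Q, hPQ⟩ := exists_combination (c := (a T' ⬝ᵥ o)⁻¹ • a T' - (a T ⬝ᵥ o)⁻¹ • a T)
    hlin ho hAo hBo (by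
      rw [sub_dotProduct, smul_dotProduct, smul_dotProduct, smul_eq_mul, smul_eq_mul,
        inv_mul_cancel₀ hT'o, inv_mul_cancel₀ hTo, sub_self])
  have hrel0 : ∀ v : Fin 3 → ℂ, (a T' ⬝ᵥ o)⁻¹ * (a T' ⬝ᵥ v) - (a T ⬝ᵥ o)⁻¹ * (a T ⬝ᵥ v) =
      P * (a A ⬝ᵥ v) + Q * (a B ⬝ᵥ v) := by
    intro v
    have := congrArg (fun c : Fin 3 → ℂ => c ⬝ᵥ v) hPQ
    simpa only [sub_dotProduct, add_dotProduct, smul_dotProduct, smul_eq_mul] using this
  have hmiss : ∀ x s, s ≠ 0 → s ≠ 1 → (a T' ⬝ᵥ o)⁻¹ * (a T' ⬝ᵥ δ (x, s)) ≠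
      (a T ⬝ᵥ o)⁻¹ * (a T ⬝ᵥ δ (x, s)) := by
    intro x s hs hs1 heq
    refine Hmisses x s hs hs1 ?_
    field_simp at heq
    linear_combination -heq
  have hP : P ≠ 0 := by
    rintro rfl
    refine hmiss 1 (half 1) hh0 hh1 (sub_eq_zero.1 ?_)
    rw [hrel0, hBz, zero_mul, mul_zero, add_zero]
  have hQ : Q ≠ 0 := by
    rintro rfl
    refine hmiss 0 (half 1) hh0 hh1 (sub_eq_zero.1 ?_)
    rw [hrel0, hAz, zero_mul, mul_zero, add_zero]
  obtain ⟨α, hα⟩ := IsAlgClosed.exists_pow_nat_eq P hn1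
  obtain ⟨β, hβ⟩ := IsAlgClosed.exists_pow_nat_eq (-Q) hn1
  have hα0 : α ≠ 0 := by
    rintro rfl
    rw [zero_pow hn0] at hα
    exact hP hα.symm
  have hβ0 : β ≠ 0 := by
    rintro rfl
    rw [zero_pow hn0] at hβ
    exact hQ (neg_eq_zero.1 hβ.symm)
  have hrel : ∀ v : Fin 3 → ℂ, κ' ^ n * (a T' ⬝ᵥ v) - κ ^ n * (a T ⬝ᵥ v) =
      α ^ n * (a A ⬝ᵥ v) - β ^ n * (a B ⬝ᵥ v) := by
    intro v
    rw [hκ, hκ', hα, hβ, hrel0]
    ring
  have hker : ∀ v : Fin 3 → ℂ, a T ⬝ᵥ v = 0 → a A ⬝ᵥ v = 0 → a B ⬝ᵥ v = 0 → v = 0 := by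
    intro v hT hA hB
    obtain ⟨c, rfl⟩ := exists_smul_of_zero hlin ho hAo hBo hA hB
    rw [dotProduct_smul, smul_eq_mul] at hT
    rw [(mul_eq_zero.1 hT).resolve_right hTo, zero_smul]
  -- roots of the forms along the bigon
  have hroot : ∀ i, ∃ g : C(I × I, ℂ), ∀ z, g z ^ n = a i ⬝ᵥ δ z := by
    intro i
    let f : C(I × I, ℂ) := ⟨fun z => a i ⬝ᵥ δ z, by
      simp only [dotProduct]
      fun_prop⟩
    refine exists_root_square hn0 f ?_
    by_cases hiA : i = A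
    · subst hiA
      have : {z : ℝ × ℝ | f (sq z) ≠ 0} = Set.Ioi (0 : ℝ) ×ˢ Set.Ioo (0 : ℝ) 1 := by
        ext z
        have h1 := HonA (sq z).1 (sq z).2
        rw [sq_fst_eq_zero, sq_snd_eq_zero, sq_snd_eq_one] at h1
        simp only [f, ContinuousMap.coe_mk, Set.mem_ofPred_eq, ne_eq, Set.mem_prod, Set.mem_Ioi,
          Set.mem_Ioo]
        rw [h1]
        push Not
        rfl
      rw [this]
      exact (convex_Ioi 0).prod (convex_Ioo 0 1)
    by_cases hiB : i = B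
    · subst hiB
      have : {z : ℝ × ℝ | f (sq z) ≠ 0} = Set.Iio (1 : ℝ) ×ˢ Set.Ioo (0 : ℝ) 1 := by
        ext z
        have h1 := HonB (sq z).1 (sq z).2
        rw [sq_fst_eq_one, sq_snd_eq_zero, sq_snd_eq_one] at h1
        simp only [f, ContinuousMap.coe_mk, Set.mem_ofPred_eq, ne_eq, Set.mem_prod, Set.mem_Iio,
          Set.mem_Ioo]
        rw [h1]
        push Not
        rfl
      rw [this]
      exact (convex_Iio 1).prod (convex_Ioo 0 1)
    · have : {z : ℝ × ℝ | f (sq z) ≠ 0} = Set.univ := by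
        ext z
        simp only [Set.mem_ofPred_eq, Set.mem_univ, iff_true]
        exact Hoff i hiA hiB _
      rw [this]
      exact convex_univ
  choose X hX using hroot
  have hX0 : ∀ i, i ≠ A → i ≠ B → ∀ z, X i z ≠ 0 := by
    intro i hiA hiB z h0
    have := hX i z
    rw [h0, zero_pow hn0] at this
    exact Hoff i hiA hiB z this.symm
  have hXz : ∀ i z, a i ⬝ᵥ δ z = 0 → X i z = 0 := by
    intro i z h0
    have := hX i z
    rw [h0] at this
    exact (pow_eq_zero_iff hn0).1 this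
  have hXA0 : ∀ s, X A (0, s) = 0 := fun s => hXz _ _ (hAz s)
  have hXB1 : ∀ s, X B (1, s) = 0 := fun s => hXz _ _ (hBz s)
  -- the two collapsed sides
  have hedge : ∀ s : I, s = 0 ∨ s = 1 → (∀ x, X A (x, s) = 0) ∧ (∀ x, X B (x, s) = 0) ∧
      ∀ i x y, X i (x, s) * X T (y, s) = X i (y, s) * X T (x, s) := by
    intro s hs
    have h1 : ∀ x, a A ⬝ᵥ δ (x, s) = 0 := fun x => (HonA x s).2 (Or.inr hs)
    have h2 : ∀ x, a B ⬝ᵥ δ (x, s) = 0 := fun x => (HonB x s).2 (Or.inr hs)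
    have h3 : ∀ x, X A (x, s) = 0 := fun x => hXz _ _ (h1 x)
    have h4 : ∀ x, X B (x, s) = 0 := fun x => hXz _ _ (h2 x)
    refine ⟨h3, h4, fun i x y => ?_⟩
    by_cases hiA : i = A
    · subst hiA
      rw [h3, h3, zero_mul, zero_mul]
    by_cases hiB : i = B
    · subst hiB
      rw [h4, h4, zero_mul, zero_mul]
    refine ratio_const hn0 ⟨fun x => X i (x, s), by fun_prop⟩ ⟨fun x => X T (x, s), by fun_prop⟩
      (fun x => hX0 i hiA hiB _) (fun x => hX0 T hTA hTB _) (c := a T ⬝ᵥ o) (d := a i ⬝ᵥ o) hTo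
      (fun x => ?_) x y
    obtain ⟨c, hc⟩ := exists_smul_of_zero hlin ho hAo hBo (h1 x) (h2 x)
    simp only [ContinuousMap.coe_mk]
    rw [hX, hX, hc, dotProduct_smul, dotProduct_smul, smul_eq_mul, smul_eq_mul]
    ring
  -- the root of unity at the starting point
  set ω₀ : ℂ := (κ' * X T' (0, 0)) / (κ * X T (0, 0)) with hω₀def
  have hXT := hX0 T hTA hTB
  have hXT' := hX0 T' hT'A hT'B
  have hend : ∀ s : I, s = 0 ∨ s = 1 → ∀ x, (κ' * X T' (x, s)) ^ n = (κ * X T (x, s)) ^ n := by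
    intro s hs x
    obtain ⟨c, hc⟩ := exists_smul_of_zero hlin ho hAo hBo ((HonA x s).2 (Or.inr hs))
      ((HonB x s).2 (Or.inr hs))
    rw [mul_pow, mul_pow, hX, hX, hc, dotProduct_smul, dotProduct_smul, hκ, hκ', smul_eq_mul,
      smul_eq_mul]
    field_simp
  have hω₀ : ω₀ ^ n = 1 := by
    rw [hω₀def, div_pow, hend 0 (Or.inl rfl), div_self]
    exact pow_ne_zero _ (mul_ne_zero hκ0 (hXT _))
  have hω₀0 : ω₀ ≠ 0 := by
    intro h0
    rw [h0, zero_pow hn0] at hω₀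
    exact zero_ne_one hω₀
  -- the function `Af`
  let Af : C(I × I, ℂ) := ⟨fun z => κ' * X T' z - ω₀ * (κ * X T z), by fun_prop⟩
  have hAf0 : ∀ x, Af (x, 0) = 0 := by
    intro x
    have h1 := (hedge 0 (Or.inl rfl)).2.2 T' x 0
    have h2 := hXT (0, 0)
    simp only [Af, ContinuousMap.coe_mk, hω₀def]
    field_simp
    linear_combination κ' * h1
  have hAf1 : Af (0, 1) ≠ 0 := by
    intro h0
    obtain ⟨V, hV⟩ := exists_log_interval ⟨fun s => κ * X T (0, s), by fun_prop⟩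
      (fun s => mul_ne_zero hκ0 (hXT _))
    obtain ⟨V', hV'⟩ := exists_log_interval ⟨fun s => κ' * X T' (0, s), by fun_prop⟩
      (fun s => mul_ne_zero hκ'0 (hXT' _))
    simp only [ContinuousMap.coe_mk] at hV hV'
    have h1 := log_increment (g := fun s => (n : ℂ) * (V s - V' s)) (h := h) (by fun_prop)
      h.continuous ((κ / κ') ^ n) (fun s => by
        rw [Complex.exp_nat_mul, Complex.exp_sub, hV, hV', hh, div_pow, mul_pow, mul_pow, hX, hX,
          div_pow]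
        have e1 : a T' ⬝ᵥ δ (0, s) ≠ 0 := Hoff T' hT'A hT'B _
        have e2 : κ' ^ n ≠ 0 := pow_ne_zero _ hκ'0
        field_simp) 1 0
    rw [hw] at h1
    -- the exponentials agree at both ends
    have h2 : ∀ s, Af (0, s) = 0 → Complex.exp (V' s - V s) = ω₀ := by
      intro s hs
      rw [Complex.exp_sub, hV, hV', div_eq_iff (mul_ne_zero hκ0 (hXT _))]
      simp only [Af, ContinuousMap.coe_mk] at hs
      linear_combination hs
    have h3 : Complex.exp (V' 1 - V 1) = Complex.exp (V' 0 - V 0) := by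
      rw [h2 1 h0, h2 0 (hAf0 0)]
    obtain ⟨m, hm⟩ := Complex.exp_eq_exp_iff_exists_int.1 h3
    apply Hdvd
    refine ⟨-m, ?_⟩
    have h4 : (2 * Real.pi * Complex.I : ℂ) * w = (2 * Real.pi * Complex.I) * (n * (-m : ℤ)) := by
      rw [← h1]
      push_cast
      linear_combination (-(n : ℂ)) * hm
    have h5 : (w : ℂ) = n * (-m : ℤ) := mul_left_cancel₀ Complex.two_pi_I_ne_zero h4
    exact_mod_cast h5
  have hAf : ∀ x s, s ≠ 0 → Af (x, s) ≠ 0 := by
    intro x s hs h0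
    by_cases hs1 : s = 1
    · subst hs1
      have h1 := (hedge 1 (Or.inr rfl)).2.2 T' x 0
      apply hAf1
      simp only [Af, ContinuousMap.coe_mk] at h0 ⊢
      have h2 : (κ' * X T' (0, 1) - ω₀ * (κ * X T (0, 1))) * X T (x, 1) = 0 := by
        linear_combination (-κ') * h1 + X T (0, 1) * h0
      exact (mul_eq_zero.1 h2).resolve_right (hXT _)
    · refine hmiss x s hs hs1 ?_
      simp only [Af, ContinuousMap.coe_mk] at h0
      have h1 : (κ' * X T' (x, s)) ^ n = (κ * X T (x, s)) ^ n := by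
        have : κ' * X T' (x, s) = ω₀ * (κ * X T (x, s)) := by linear_combination h0
        rw [this, mul_pow, hω₀, one_mul]
      rw [mul_pow, mul_pow, hX, hX, hκ, hκ'] at h1
      exact h1
  have hyw : ∀ (m : ℕ) x s, s ≠ 0 → s ≠ 1 →
      α * X A (x, s) - ζ ^ m * (β * X B (x, s)) ≠ 0 := by
    intro m x s hs hs1 h0
    refine hmiss x s hs hs1 (sub_eq_zero.1 ?_)
    have h1 : (α * X A (x, s)) ^ n = (β * X B (x, s)) ^ n := by
      have : α * X A (x, s) = ζ ^ m * (β * X B (x, s)) := by linear_combination h0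
      rw [this, mul_pow, ← pow_mul, mul_comm m n, pow_mul, hζ.pow_eq_one, one_pow, one_mul]
    rw [mul_pow, mul_pow, hX, hX, hα, hβ] at h1
    rw [hrel0]
    linear_combination h1
  -- the four squares
  let x4 : Bool → Bool → I × I → Fin k → ℂ := fun p q z i =>
    (if i = A then ζ ^ (Bool.toNat p) else if i = B then ζ ^ (Bool.toNat q) else 1) * X i z
  have hx4 : ∀ p q z i, x4 p q z i ^ n = a i ⬝ᵥ δ z := by
    intro p q z i
    simp only [x4, mul_pow, hX]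
    have : ∀ m : ℕ, (ζ ^ m) ^ n = 1 := fun m => by
      rw [← pow_mul, mul_comm, pow_mul, hζ.pow_eq_one, one_pow]
    split_ifs <;> simp [this]
  have hx4c : ∀ p q, Continuous (x4 p q) := fun p q => by
    refine continuous_pi fun i => ?_
    simp only [x4]
    fun_prop
  have hx4T : ∀ p q z, x4 p q z T = X T z := fun p q z => by simp [x4, hTA, hTB]
  have hx4T' : ∀ p q z, x4 p q z T' = X T' z := fun p q z => by simp [x4, hT'A, hT'B]
  have hx4A : ∀ p q z, x4 p q z A = ζ ^ (Bool.toNat p) * X A z := fun p q z => by simp [x4]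
  have hx4B : ∀ p q z, x4 p q z B = ζ ^ (Bool.toNat q) * X B z := fun p q z => by
    simp [x4, hAB.symm]
  have hx40 : ∀ p q z, x4 p q z ≠ 0 := fun p q z h0 => by
    have := congrFun h0 T
    rw [hx4T] at this
    exact hXT z this
  have hx4S : ∀ p q z, ∀ S : {S : Finset (Fin k) // IsMultiple a S},
      (fun i : S.1 => x4 p q z i) ≠ 0 := by
    intro p q z S h0
    have hcard : ({A, B} : Finset (Fin k)).card < S.1.card :=
      lt_of_le_of_lt Finset.card_le_two S.2.1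
    obtain ⟨i, hi, hi'⟩ := Finset.exists_mem_notMem_of_card_lt_card hcard
    simp only [Finset.mem_insert, Finset.mem_singleton, not_or] at hi'
    have := congrFun h0 ⟨i, hi⟩
    simp only [x4, if_neg hi'.1, if_neg hi'.2, one_mul, Pi.zero_apply] at this
    exact hX0 i hi'.1 hi'.2 z this
  let S4 : Bool → Bool → C(I × I, HK n a) := fun p q =>
    ⟨fun z => HK.mk' n a (x4 p q z) (δ z) (hx4 p q z) (hx40 p q z) (hx4S p q z),
      HK.continuous_mk' (v := fun z => δ z) (hx4c p q) (hx4 p q) (hx40 p q) (hx4S p q)⟩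
  have hcollapse : ∀ s : I, s = 0 ∨ s = 1 → ∀ p q x, S4 p q (x, s) = S4 false false (0, s) := by
    intro s hs p q x
    obtain ⟨h1, h2, h3⟩ := hedge s hs
    refine HK.mk'_eq (hx := hx4 p q (x, s)) (hy := hx4 false false (0, s))
      (X T (x, s) / X T (0, s)) fun i => ?_
    have h4 := h3 i x 0
    have h5 := hXT (0, s)
    simp only [x4]
    by_cases hiA : i = A
    · subst hiA
      simp [h1]
    by_cases hiB : i = B
    · subst hiB
      simp [h2]
    simp only [if_neg hiA, if_neg hiB, one_mul]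
    field_simp
    linear_combination -h4
  have hS4 : Glues (fun p q => S4 p q) := by
    refine ⟨fun q s => ?_, fun p s => ?_, fun p q x => hcollapse 0 (Or.inl rfl) p q x,
      fun p q x => hcollapse 1 (Or.inr rfl) p q x⟩
    · refine HK.mk'_eq (hx := hx4 false q (0, s)) (hy := hx4 true q (0, s)) 1 fun i => ?_
      simp only [x4, one_mul]
      by_cases hiA : i = A
      · subst hiA
        simp [hXA0]
      · simp [hiA]
    · refine HK.mk'_eq (hx := hx4 p false (1, s)) (hy := hx4 p true (1, s)) 1 fun i => ?_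
      simp only [x4, one_mul]
      by_cases hiB : i = B
      · subst hiB
        simp [hXB1]
      · simp [hiB]
  have hrep : ∀ p q z, ∃ c : ℂ, c ≠ 0 ∧ (S4 p q z).1.1.rep = c • x4 p q z := by
    intro p q z
    obtain ⟨c, hc⟩ := Projectivization.exists_smul_eq_mk_rep ℂ (x4 p q z) (hx40 p q z)
    exact ⟨c, c.ne_zero, hc.symm⟩
  -- the contradiction
  refine core_false hn hζ Af ⟨fun z => α * X A z, by fun_prop⟩ ⟨fun z => β * X B z, by fun_prop⟩
    hAf hyw (fun s => ?_) (fun s => ?_) fun j => ?_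
  · simp only [ContinuousMap.coe_mk, hXA0, mul_zero]
  · simp only [ContinuousMap.coe_mk, hXB1, mul_zero]
  have hζj : (ζ ^ j) ^ n = 1 := by
    rw [← pow_mul, mul_comm, pow_mul, hζ.pow_eq_one, one_pow]
  obtain ⟨Φ, hΦ1, hΦ2, hΦ3⟩ := exists_line_field hn a T T' A B κ κ' α β hκ0 hα0 hβ0 hrel hker
    hω₀ hζj
  obtain ⟨g, hg0, hg1, hg2⟩ := exists_section_sphere cov hsurj S4 hS4 Φ hΦ1 hΦ2
  refine ⟨g, hg2, hg0, fun p q x s hs => ?_, fun p q x => ?_⟩
  · obtain ⟨c, hc, hrc⟩ := hrep p q (x, s)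
    have h1 := (hΦ3 _ _ (hg1 p q (x, s)) _ c hc hrc).1
    rw [hx4A, hx4B, hx4T, hx4T'] at h1
    simp only [Af, ContinuousMap.coe_mk]
    rw [← h1, pow_add]
    ring
  · obtain ⟨c, hc, hrc⟩ := hrep p q (x, 0)
    refine (hΦ3 _ _ (hg1 p q (x, 0)) _ c hc hrc).2 ?_ ?_ ?_
    · rw [hx4A, (hedge 0 (Or.inl rfl)).1, mul_zero]
    · rw [hx4B, (hedge 0 (Or.inl rfl)).2.1, mul_zero]
    · rw [hx4T, hx4T']
      have := hAf0 x
      simp only [Af, ContinuousMap.coe_mk] at this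
      linear_combination this

end Pool.Agent.Helper55_HK
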