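import Pool.Agent.Helper55_HK.Sphere

/-! The winding number argument. -/

open Topology unitInterval

namespace Pool.Agent.Helper55_HK

/-- The half of a number of the unit interval. -/
noncomputable def half (s : I) : I :=
  ⟨(s : ℝ) / 2, by have := s.2.1; positivity, by have := s.2.2; linarith⟩

theorem continuous_half : Continuous half := by
  unfold half
  fun_prop

theorem half_zero : half 0 = 0 := by
  ext; simp [half]

theorem half_ne_one (s : I) : half s ≠ 1 := by
  intro h
  have := congrArg (fun t : I => (t : ℝ)) h
  have h2 := s.2.2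
  simp [half] at this
  linarith

theorem half_ne_zero {s : I} (hs : s ≠ 0) : half s ≠ 0 := by
  intro h
  apply hs
  have := congrArg (fun t : I => (t : ℝ)) h
  simp only [half, Set.Icc.coe_zero] at this
  ext
  simp only [Set.Icc.coe_zero]
  linarith

theorem core_false {n : ℕ} (hn : 2 ≤ n) {ζ : ℂ} (hζ : IsPrimitiveRoot ζ n)
    (A y w : C(I × I, ℂ))
    (hA : ∀ x s, s ≠ 0 → A (x, s) ≠ 0)
    (hyw : ∀ (m : ℕ) x s, s ≠ 0 → s ≠ 1 → y (x, s) - ζ ^ m * w (x, s) ≠ 0)
    (hy0 : ∀ s, y (0, s) = 0) (hw1 : ∀ s, w (1, s) = 0)
    (sec : ∀ j : ℕ, ∃ g : Bool → Bool → C(I × I, ℂ × ℂ), Glues (fun p q => g p q) ∧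
      (∀ p q z, g p q z ≠ 0) ∧
      (∀ p q x s, s ≠ 0 → (g p q (x, s)).1 *
        (ζ ^ (Bool.toNat p) * y (x, s) - ζ ^ (j + Bool.toNat q) * w (x, s)) =
          (g p q (x, s)).2 * A (x, s)) ∧
      (∀ p q x, (g p q (x, 0)).1 = 0)) : False := by
  have hn0 : n ≠ 0 := by omega
  have hζ0 : ζ ≠ 0 := hζ.ne_zero hn0
  -- the middle of the interval
  set h : I := half 1 with hh
  have hh0 : h ≠ 0 := half_ne_zero one_ne_zero
  have hh1 : h ≠ 1 := half_ne_one 1
  -- the functions `β m` and their logarithms
  let β : ℕ → C(I, ℂ) := fun m => ⟨fun x => y (x, h) - ζ ^ m * w (x, h), by fun_prop⟩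
  have hβ : ∀ m x, β m x ≠ 0 := fun m x => hyw m x h hh0 hh1
  choose L hL using fun m => exists_log_interval (β m) (hβ m)
  let D : ℕ → ℂ := fun m => L m 1 - L m 0
  have hDexp : ∀ m, Complex.exp (D m) = y (1, h) / (- (ζ ^ m * w (0, h))) := by
    intro m
    simp only [D, Complex.exp_sub, hL]
    simp only [β, ContinuousMap.coe_mk, hy0, hw1, mul_zero, sub_zero, zero_sub]
  have hw0 : w (0, h) ≠ 0 := by
    have := hβ 0 0
    simp only [β, ContinuousMap.coe_mk, hy0, zero_sub, neg_ne_zero] at this
    exact right_ne_zero_of_mul this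
  have hy1 : y (1, h) ≠ 0 := by
    have := hβ 0 1
    simpa only [β, ContinuousMap.coe_mk, hw1, mul_zero, sub_zero] using this
  have hDper : D n = D 0 := by
    refine log_increment (g := L n) (h := L 0) (L n).continuous (L 0).continuous 1 (fun z => ?_)
      1 0
    rw [one_mul, hL, hL]
    simp [β, hζ.pow_eq_one]
  -- the relation between consecutive increments
  have key : ∀ m, D (m + 2) - D (m + 1) = D (m + 1) - D m := by
    intro m
    obtain ⟨g, hglue, hg0, hgpar, hgbot⟩ := sec (m + 1)
    have g1 : ∀ p q x s, s ≠ 0 → (g p q (x, s)).1 ≠ 0 := by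
      intro p q x s hs h0
      have h1 := hgpar p q x s hs
      rw [h0, zero_mul] at h1
      have h2 : (g p q (x, s)).2 = 0 := by
        rcases mul_eq_zero.1 h1.symm with h3 | h3
        · exact h3
        · exact absurd h3 (hA x s hs)
      exact hg0 p q (x, s) (Prod.ext h0 h2)
    have hB : ∀ p q x s, s ≠ 0 → s ≠ 1 →
        ζ ^ (Bool.toNat p) * y (x, s) - ζ ^ (m + 1 + Bool.toNat q) * w (x, s) ≠ 0 := by
      intro p q x s hs hs1
      have h1 := hyw (m + 1 + Bool.toNat q - Bool.toNat p) x s hs hs1
      have h2 : ζ ^ (m + 1 + Bool.toNat q) = ζ ^ (Bool.toNat p) *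
          ζ ^ (m + 1 + Bool.toNat q - Bool.toNat p) := by
        rw [← pow_add]
        congr 1
        have : Bool.toNat p ≤ 1 := Bool.toNat_le p
        omega
      rw [h2, mul_assoc, ← mul_sub]
      exact mul_ne_zero (pow_ne_zero _ hζ0) h1
    have g2 : ∀ p q x s, s ≠ 1 → (g p q (x, s)).2 ≠ 0 := by
      intro p q x s hs1 h0
      by_cases hs : s = 0
      · subst hs
        exact hg0 p q (x, 0) (Prod.ext (hgbot p q x) h0)
      · have h1 := hgpar p q x s hs
        rw [h0, zero_mul] at h1
        exact mul_ne_zero (g1 p q x s hs) (hB p q x s hs hs1) h1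
    -- lower half
    have hlow : ∀ (N : Bool → Bool → C(I, ℂ)),
        (∀ p q x, Complex.exp (N p q x) = (g p q (x, h)).2) →
        (N false false 1 - N false false 0) - (N false true 1 - N false true 0)
          - (N true false 1 - N true false 0) + (N true true 1 - N true true 0) = 0 := by
      intro N hN
      refine winding_zero (fun p q => ⟨fun z => (g p q (z.1, half z.2)).2, ?_⟩) ?_ ?_ ?_ ?_ N ?_
      · have := continuous_half
        fun_prop
      · intro p q z
        exact g2 p q _ _ (half_ne_one _)
      · intro q s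
        simp only [ContinuousMap.coe_mk]
        rw [hglue.left q]
      · intro p s
        simp only [ContinuousMap.coe_mk]
        rw [hglue.right p]
      · intro p q x
        simp only [ContinuousMap.coe_mk, half_zero]
        rw [hglue.bot p q x, hglue.bot p q 0]
      · intro p q x
        exact hN p q x
    -- upper half
    have hup : ∀ (N : Bool → Bool → C(I, ℂ)),
        (∀ p q x, Complex.exp (N p q x) = (g p q (x, h)).1) →
        (N false false 1 - N false false 0) - (N false true 1 - N false true 0)
          - (N true false 1 - N true false 0) + (N true true 1 - N true true 0) = 0 := by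
      intro N hN
      refine winding_zero (fun p q => ⟨fun z => (g p q (z.1, σ (half z.2))).1, ?_⟩)
        ?_ ?_ ?_ ?_ N ?_
      · have := continuous_half
        fun_prop
      · intro p q z
        refine g1 p q _ _ fun h0 => half_ne_one z.2 ?_
        have := congrArg σ h0
        simpa using this
      · intro q s
        simp only [ContinuousMap.coe_mk]
        rw [hglue.left q]
      · intro p s
        simp only [ContinuousMap.coe_mk]
        rw [hglue.right p]
      · intro p q x
        simp only [ContinuousMap.coe_mk, half_zero, unitInterval.symm_zero]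
        rw [hglue.top p q x, hglue.top p q 0]
      · intro p q x
        rw [hN p q x]
        have : σ (half 1) = h := by
          ext
          simp [h, half]
          norm_num
        simp only [ContinuousMap.coe_mk, this]
    -- the logarithms
    obtain ⟨LA, hLA⟩ := exists_log_interval ⟨fun x => A (x, h), by fun_prop⟩
      (fun x => hA x h hh0)
    choose N2 hN2 using fun p q => exists_log_interval ⟨fun x => (g p q (x, h)).2, by fun_prop⟩
      (fun x => g2 p q x h hh1)
    choose N1 hN1 using fun p q => exists_log_interval ⟨fun x => (g p q (x, h)).1, by fun_prop⟩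
      (fun x => g1 p q x h hh0)
    have e1 := hup N1 (fun p q x => hN1 p q x)
    have e2 := hlow N2 (fun p q x => hN2 p q x)
    -- increments of the logarithm of `B`
    have inc : ∀ (p q : Bool) (i : ℕ), m + 1 + Bool.toNat q = Bool.toNat p + i →
        (LA 1 + N2 p q 1 - N1 p q 1) - (LA 0 + N2 p q 0 - N1 p q 0) = D i := by
      intro p q i hi
      refine log_increment (g := fun x => LA x + N2 p q x - N1 p q x) (h := L i)
        (by fun_prop) (L i).continuous (ζ ^ (Bool.toNat p)) (fun x => ?_) 1 0
      rw [Complex.exp_sub, Complex.exp_add, hLA, hN2, hN1, hL]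
      simp only [ContinuousMap.coe_mk, β]
      rw [div_eq_iff (g1 p q x h hh0)]
      have h1 := hgpar p q x h hh0
      rw [hi, pow_add] at h1
      linear_combination -h1
    have i1 := inc false false (m + 1) (by simp)
    have i2 := inc false true (m + 2) (by simp)
    have i3 := inc true false m (by simp; ring)
    have i4 := inc true true (m + 1) (by simp; ring)
    linear_combination i1 - i2 - i3 + i4 - e2 + e1
  -- arithmetic progression
  have hd : ∀ m, D (m + 1) - D m = D 1 - D 0 := by
    intro m
    induction m with
    | zero => rfl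
    | succ m ih => rw [← ih]; exact key m
  have hAP : ∀ m : ℕ, D m = D 0 + m * (D 1 - D 0) := by
    intro m
    induction m with
    | zero => simp
    | succ m ih =>
      have := hd m
      push_cast
      linear_combination this + ih
  have h1 := hAP n
  rw [hDper] at h1
  have h2 : D 1 = D 0 := by
    have h3 : (n : ℂ) * (D 1 - D 0) = 0 := by linear_combination -h1
    rcases mul_eq_zero.1 h3 with h4 | h4
    · exact absurd (by exact_mod_cast h4) hn0
    · linear_combination h4
  have h3 := hDexp 1
  rw [h2, hDexp 0] at h3
  have h4 : ζ = 1 := by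
    rw [pow_zero, pow_one, one_mul] at h3
    field_simp at h3
    linear_combination -h3
  have h5 := hζ.dvd_of_pow_eq_one 1 (by rw [h4, one_pow])
  have h6 := Nat.le_of_dvd one_pos h5
  omega

end Pool.Agent.Helper55_HK
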