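import Pool.Agent.Helper55_HK.Top

/-! Families of squares with a common bottom point, in a space with a contractible covering. -/

open Topology unitInterval

namespace Pool.Agent.Helper55_HK

/-- For a finite family of squares with the same bottom point in a space with a contractible
covering, the pull-back of a continuous family of non-zero idempotents has nowhere vanishing
sections, compatible with all identifications of vertical sides and with collapsed tops. -/
theorem exists_section_family {X U V J : Type*} [TopologicalSpace X] [TopologicalSpace U]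
    [NormedAddCommGroup V] [NormedSpace ℂ V] [Finite J]
    [ContractibleSpace U] {p : U → X} (cov : IsCoveringMap p) (hsurj : Function.Surjective p)
    (S : J → C(I × I, X)) (x₀ : X) (hbot : ∀ j x, S j (x, 0) = x₀)
    (Φ : C(X, V →L[ℂ] V)) (hΦ : ∀ x v, Φ x (Φ x v) = Φ x v) (hΦ0 : ∀ x, Φ x ≠ 0) :
    ∃ g : J → C(I × I, V), (∀ j z, g j z ≠ 0) ∧ (∀ j z, Φ (S j z) (g j z) = g j z) ∧
      (∀ i j x y, g i (x, 0) = g j (y, 0)) ∧
      (∀ i j x y, (∀ s, S i (x, s) = S j (y, s)) → ∀ s, g i (x, s) = g j (y, s)) ∧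
      (∀ j, (∀ x y, S j (x, 1) = S j (y, 1)) → ∀ x y, g j (x, 1) = g j (y, 1)) := by
  obtain ⟨e, he⟩ := hsurj x₀
  have hl : ∀ j, ∃ F : C(I × I, U), F (0, 0) = e ∧ ∀ z, p (F z) = S j z := fun j =>
    lift_square cov (S j) e (by rw [he]; exact (hbot j 0).symm)
  choose F hF0 hF using hl
  have hFb : ∀ j x, F j (x, 0) = e := by
    intro j x
    rw [← hF0 j]
    refine cov.const_of_comp (g := fun x : I => F j (x, 0)) (by fun_prop) (fun a b => ?_) x 0
    simp only [Function.comp_apply, hF, hbot]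
  have hFs : ∀ i j x y, (∀ s, S i (x, s) = S j (y, s)) → ∀ s, F i (x, s) = F j (y, s) := by
    intro i j x y h s
    have := cov.eq_of_comp_eq (g₁ := fun s : I => F i (x, s))
      (g₂ := fun s : I => F j (y, s)) (by fun_prop) (by fun_prop)
      (by funext s; simp only [Function.comp_apply, hF]; exact h s) 0
      (by rw [hFb, hFb])
    exact congrFun this s
  have hFt : ∀ j, (∀ x y, S j (x, 1) = S j (y, 1)) → ∀ x y, F j (x, 1) = F j (y, 1) := by
    intro j h x y
    refine cov.const_of_comp (g := fun x : I => F j (x, 1)) (by fun_prop) (fun a b => ?_) x y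
    simp only [Function.comp_apply, hF]
    exact h a b
  obtain ⟨u₀, hu₀⟩ := (contractible_iff_id_nullhomotopic U).1 inferInstance
  obtain ⟨C⟩ := hu₀
  have hC0 : ∀ u, C (0, u) = u := fun u => C.apply_zero u
  have hC1 : ∀ u, C (1, u) = u₀ := fun u => C.apply_one u
  obtain ⟨w, hw⟩ : ∃ w, Φ (p u₀) w ≠ 0 := by
    by_contra hcon
    push Not at hcon
    exact hΦ0 (p u₀) (ContinuousLinearMap.ext hcon)
  letI : TopologicalSpace J := ⊥
  haveI : DiscreteTopology J := ⟨rfl⟩
  haveI : CompactSpace J := Finite.compactSpace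
  let P0 : J × ((I × I) × I) → (V →L[ℂ] V) := fun w => Φ (p (C (w.2.2, F w.1 w.2.1)))
  have hP0 : Continuous P0 := by
    rw [continuous_prod_of_discrete_left]
    intro a
    exact Φ.continuous.comp (cov.continuous.comp (C.continuous.comp (by fun_prop)))
  let P : C((J × (I × I)) × I, V →L[ℂ] V) :=
    ⟨fun e => P0 (e.1.1, (e.1.2, e.2)), hP0.comp (by fun_prop)⟩
  obtain ⟨g, hg0, hg, hgg⟩ := exists_section P (fun z v => hΦ _ _) (Φ (p u₀) w) hw (fun z => by
    change Φ (p (C (1, _))) _ = _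
    rw [hC1, hΦ])
  have key : ∀ i j z z', F i z = F j z' → g (i, z) = g (j, z') := by
    intro i j z z' h
    refine hgg _ _ fun t => ?_
    change Φ (p (C (t, F i z))) = Φ (p (C (t, F j z')))
    rw [h]
  refine ⟨fun j => ⟨fun z => g (j, z), by fun_prop⟩, fun j z => hg0 _, fun j z => ?_,
    fun i j x y => ?_, fun i j x y h s => ?_, fun j h x y => ?_⟩
  · have := hg (j, z)
    change Φ (p (C (0, F j z))) _ = _ at this
    rwa [hC0, hF] at this
  · exact key _ _ _ _ (by rw [hFb, hFb])
  · exact key _ _ _ _ (hFs i j x y h s)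
  · exact key _ _ _ _ (hFt j h x y)

/-- The winding argument: an orange with `2 n` slices carries no equivariant section with
different characters at the poles. -/
theorem orange_false {n : ℕ} (hn : 2 ≤ n) {ζ : ℂ} (hζ : IsPrimitiveRoot ζ n)
    (g : ℕ → Bool → C(I × I, ℂ × ℂ)) (hg0 : ∀ k b z, g k b z ≠ 0)
    (hper : ∀ k b, g (k + n) b = g k b)
    (hpar : ∀ k b z, (g (k + 1) b z).1 * (ζ * (g k b z).2) = (g (k + 1) b z).2 * (g k b z).1)
    (hright : ∀ k s, g k false (1, s) = g k true (1, s))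
    (hleft : ∀ k s, g k true (0, s) = g (k + 1) false (0, s))
    (hbot : ∀ k b x, g k b (x, 0) = g 0 false (0, 0)) (hbot1 : (g 0 false (0, 0)).1 = 0)
    (htop : ∀ k b x, g k b (x, 1) = g 0 false (0, 1)) (htop2 : (g 0 false (0, 1)).2 = 0) :
    False := by
  have hn0 : n ≠ 0 := by omega
  have hζ0 : ζ ≠ 0 := hζ.ne_zero hn0
  -- the ratios
  let ν : (ℂ × ℂ) → (ℂ × ℂ) → ℂ := fun u v =>
    (u.1 * (starRingEnd ℂ) v.1 + u.2 * (starRingEnd ℂ) v.2) /
      (v.1 * (starRingEnd ℂ) v.1 + v.2 * (starRingEnd ℂ) v.2)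
  have hden : ∀ v : ℂ × ℂ, v ≠ 0 →
      v.1 * (starRingEnd ℂ) v.1 + v.2 * (starRingEnd ℂ) v.2 ≠ 0 := by
    intro v hv
    rw [Complex.mul_conj, Complex.mul_conj]
    intro h
    have h' : Complex.normSq v.1 + Complex.normSq v.2 = 0 := by exact_mod_cast h
    have h1 := Complex.normSq_nonneg v.1
    have h2 := Complex.normSq_nonneg v.2
    exact hv (Prod.ext (Complex.normSq_eq_zero.1 (by linarith))
      (Complex.normSq_eq_zero.1 (by linarith)))
  have hν : ∀ (u v : ℂ × ℂ) (c : ℂ), v ≠ 0 → u = c • v → ν u v = c := by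
    intro u v c hv h
    simp only [ν, h, Prod.smul_fst, Prod.smul_snd, smul_eq_mul]
    rw [div_eq_iff (hden v hv)]
    ring
  -- the twisted vectors
  let D : (ℂ × ℂ) → (ℂ × ℂ) := fun v => (v.1, ζ * v.2)
  have hD0 : ∀ v, v ≠ 0 → D v ≠ 0 := by
    intro v hv h
    have h1 : v.1 = 0 := congrArg Prod.fst h
    have h2 : ζ * v.2 = 0 := congrArg Prod.snd h
    exact hv (Prod.ext h1 ((mul_eq_zero.1 h2).resolve_left hζ0))
  have hprop : ∀ u v : ℂ × ℂ, v ≠ 0 → u.1 * v.2 = u.2 * v.1 → ∃ c : ℂ, u = c • v := by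
    intro u v hv h
    by_cases h1 : v.1 = 0
    · have h2 : v.2 ≠ 0 := fun h2 => hv (Prod.ext h1 h2)
      refine ⟨u.2 / v.2, Prod.ext ?_ ?_⟩
      · rw [h1, mul_zero] at h
        simp [h1, (mul_eq_zero.1 h).resolve_right h2]
      · simp [h2]
    · refine ⟨u.1 / v.1, Prod.ext ?_ ?_⟩
      · simp [h1]
      · simp only [Prod.smul_snd, smul_eq_mul]
        field_simp
        linear_combination -h
  let μ : ℕ → Bool → C(I × I, ℂ) := fun k b => ⟨fun z => ν (g (k + 1) b z) (D (g k b z)), by
    have hc := Complex.continuous_conj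
    refine Continuous.div (by fun_prop) (by fun_prop) fun z => hden _ (hD0 _ (hg0 _ _ _))⟩
  have hμ : ∀ k b z, g (k + 1) b z = μ k b z • D (g k b z) := by
    intro k b z
    obtain ⟨c, hc⟩ := hprop (g (k + 1) b z) (D (g k b z)) (hD0 _ (hg0 _ _ _)) (hpar k b z)
    have : μ k b z = c := hν _ _ c (hD0 _ (hg0 _ _ _)) hc
    rw [this]
    exact hc
  have hμ0 : ∀ k b z, μ k b z ≠ 0 := by
    intro k b z h
    have := hμ k b z
    rw [h, zero_smul] at this
    exact hg0 _ _ _ this
  have hμval : ∀ k b z k' b' z', g (k + 1) b z = g (k' + 1) b' z' → g k b z = g k' b' z' →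
      μ k b z = μ k' b' z' := by
    intro k b z k' b' z' h1 h2
    change ν _ _ = ν _ _
    rw [h1, h2]
  have hμright : ∀ k s, μ k false (1, s) = μ k true (1, s) := fun k s =>
    hμval _ _ _ _ _ _ (hright _ s) (hright _ s)
  have hμleft : ∀ k s, μ k true (0, s) = μ (k + 1) false (0, s) := fun k s =>
    hμval _ _ _ _ _ _ (hleft _ s) (hleft _ s)
  have hμbot : ∀ k b x, μ k b (x, 0) = ζ⁻¹ := by
    intro k b x
    refine hν _ _ _ (hD0 _ (hg0 _ _ _)) ?_
    rw [hbot (k + 1) b x, hbot k b x]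
    refine Prod.ext ?_ ?_
    · change _ = ζ⁻¹ * (g 0 false (0, 0)).1
      rw [hbot1, mul_zero]
    · change _ = ζ⁻¹ * (ζ * (g 0 false (0, 0)).2)
      rw [← mul_assoc, inv_mul_cancel₀ hζ0, one_mul]
  have hμtop : ∀ k b x, μ k b (x, 1) = 1 := by
    intro k b x
    refine hν _ _ _ (hD0 _ (hg0 _ _ _)) ?_
    rw [htop (k + 1) b x, htop k b x]
    refine Prod.ext ?_ ?_
    · change _ = 1 * (g 0 false (0, 1)).1
      rw [one_mul]
    · change _ = 1 * (ζ * (g 0 false (0, 1)).2)
      rw [htop2, mul_zero, mul_zero]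
  have hμper : ∀ k b, μ (k + n) b = μ k b := by
    intro k b
    ext z
    refine hμval _ _ _ _ _ _ ?_ (by rw [hper])
    have : k + n + 1 = (k + 1) + n := by ring
    rw [this, hper]
  have hprod : ∀ b z, ∏ i ∈ Finset.range n, μ i b z = 1 := by
    intro b z
    have h1 : ∀ j, g j b z = (∏ i ∈ Finset.range j, μ i b z) •
        ((g 0 b z).1, ζ ^ j * (g 0 b z).2) := by
      intro j
      induction j with
      | zero => simp
      | succ j ih =>
        rw [hμ j b z, Finset.prod_range_succ]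
        simp only [D]
        rw [ih]
        refine Prod.ext ?_ ?_
        · simp only [Prod.smul_fst, smul_eq_mul]
          ring
        · simp only [Prod.smul_snd, smul_eq_mul]
          ring
    have h2 := h1 n
    have h3 : g n b z = g 0 b z := by
      have := hper 0 b
      rw [zero_add] at this
      rw [this]
    rw [hζ.pow_eq_one, one_mul, h3] at h2
    have h4 : (1 - ∏ i ∈ Finset.range n, μ i b z) • g 0 b z = 0 := by
      rw [sub_smul, one_smul, sub_eq_zero]
      exact h2
    rcases smul_eq_zero.1 h4 with h5 | h5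
    · exact (sub_eq_zero.1 h5).symm
    · exact absurd h5 (hg0 _ _ _)
  -- logarithms
  obtain ⟨m₀, hm₀⟩ : ∃ m₀ : ℂ, Complex.exp m₀ = ζ⁻¹ :=
    ⟨Complex.log ζ⁻¹, Complex.exp_log (inv_ne_zero hζ0)⟩
  have hlog : ∀ k b, ∃ m : C(I × I, ℂ), m (0, 0) = m₀ ∧ ∀ z, Complex.exp (m z) = μ k b z := by
    intro k b
    obtain ⟨m, hm⟩ := exists_log_square (μ k b) (hμ0 k b)
    refine ⟨⟨fun z => m z - m (0, 0) + m₀, by fun_prop⟩, by simp, fun z => ?_⟩
    simp only [ContinuousMap.coe_mk]
    rw [Complex.exp_add, Complex.exp_sub, hm, hm, hm₀, hμbot]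
    field_simp
  choose m hm0 hm using hlog
  have hmbot : ∀ k b x, m k b (x, 0) = m₀ := by
    intro k b x
    rw [← hm0 k b]
    exact const_of_exp_const (g := fun x : I => m k b (x, 0)) (by fun_prop)
      (fun x y => by simp only [hm, hμbot]) x 0
  have hmtop : ∀ k b x y, m k b (x, 1) = m k b (y, 1) := fun k b x y =>
    const_of_exp_const (g := fun x : I => m k b (x, 1)) (by fun_prop)
      (fun x y => by simp only [hm, hμtop]) x y
  have hmseam : ∀ k b x k' b' x', (∀ s, μ k b (x, s) = μ k' b' (x', s)) →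
      m k b (x, 1) = m k' b' (x', 1) := by
    intro k b x k' b' x' h
    have := log_increment (g := fun s : I => m k b (x, s)) (h := fun s : I => m k' b' (x', s))
      (by fun_prop) (by fun_prop) 1 (fun s => by rw [one_mul, hm, hm, h]) 1 0
    simp only [hmbot] at this
    linear_combination this
  have hm1 : ∀ k, m k true (0, 1) = m k false (0, 1) := by
    intro k
    rw [hmtop k true 0 1, hmtop k false 0 1]
    exact (hmseam k false 1 k true 1 (hμright k)).symm
  have hm2 : ∀ k, m (k + 1) false (0, 1) = m k true (0, 1) := fun k =>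
    (hmseam k true 0 (k + 1) false 0 (hμleft k)).symm
  have hm3 : ∀ k, m k false (0, 1) = m 0 false (0, 1) := by
    intro k
    induction k with
    | zero => rfl
    | succ k ih => rw [hm2, hm1, ih]
  have hsum := const_of_exp_const (g := fun s : I => ∑ i ∈ Finset.range n, m i false (0, s))
    (by fun_prop) (fun s s' => by simp only [Complex.exp_sum, hm, hprod]) 0 1
  simp only [hmbot, hm3, Finset.sum_const, Finset.card_range, nsmul_eq_mul] at hsum
  have hn' : (n : ℂ) ≠ 0 := by exact_mod_cast hn0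
  have h1 : m₀ = m 0 false (0, 1) := mul_left_cancel₀ hn' hsum
  have h2 : ζ⁻¹ = 1 := by rw [← hm₀, h1, hm, hμtop]
  have h3 : ζ = 1 := inv_eq_one.1 h2
  have h4 := hζ.dvd_of_pow_eq_one 1 (by rw [h3, one_pow])
  have h5 := Nat.le_of_dvd one_pos h4
  omega

end Pool.Agent.Helper55_HK
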