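import Pool.Agent.Helper55_HK.RigidDefs
import Pool.Agent.Helper55_HK.Bigon

/-! Rigid configurations of lines: constructions and deformations. -/

open Topology
open scoped Matrix

namespace Pool.Agent.Helper55_HK

theorem dt_eq (u v w : Fin 3 → ℂ) : dt u v w =
    u 0 * v 1 * w 2 - u 0 * v 2 * w 1 - u 1 * v 0 * w 2 + u 1 * v 2 * w 0 + u 2 * v 0 * w 1 -
      u 2 * v 1 * w 0 := by
  simp [dt, Matrix.det_fin_three]

theorem fm_eq (u v : Fin 3 → ℂ) : fm u v = u 0 * v 0 + u 1 * v 1 + u 2 * v 2 := by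
  simp [fm, dotProduct, Fin.sum_univ_three]

theorem fm_cross (u v w : Fin 3 → ℂ) : fm w (crossProduct u v) = dt u v w := by
  rw [dt_eq, fm_eq]
  simp [cross_apply]
  ring

theorem dt_smul_left (r : ℂ) (u v w : Fin 3 → ℂ) : dt (r • u) v w = r * dt u v w := by
  simp only [dt_eq, Pi.smul_apply, smul_eq_mul]
  ring

theorem dt_smul_mid (r : ℂ) (u v w : Fin 3 → ℂ) : dt u (r • v) w = r * dt u v w := by
  simp only [dt_eq, Pi.smul_apply, smul_eq_mul]
  ring

theorem dt_smul_right (r : ℂ) (u v w : Fin 3 → ℂ) : dt u v (r • w) = r * dt u v w := by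
  simp only [dt_eq, Pi.smul_apply, smul_eq_mul]
  ring

theorem dt_rot (u v w : Fin 3 → ℂ) : dt v w u = dt u v w := by
  simp only [dt_eq]
  ring

theorem dt_swap (u v w : Fin 3 → ℂ) : dt v u w = - dt u v w := by
  simp only [dt_eq]
  ring

theorem dt_mulVec (g : Matrix (Fin 3) (Fin 3) ℂ) (u v w : Fin 3 → ℂ) :
    dt (g.mulVec u) (g.mulVec v) (g.mulVec w) = g.det * dt u v w := by
  simp only [dt_eq, Matrix.det_fin_three, Matrix.mulVec, dotProduct, Fin.sum_univ_three]
  ring

theorem continuous_dt {Z : Type*} [TopologicalSpace Z] {f g h : Z → Fin 3 → ℂ}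
    (hf : Continuous f) (hg : Continuous g) (hh : Continuous h) :
    Continuous fun z => dt (f z) (g z) (h z) := by
  simp only [dt_eq]
  fun_prop

theorem dt_ne_zero_iff {u v w : Fin 3 → ℂ} : dt u v w ≠ 0 ↔ LinearIndependent ℂ ![u, v, w] := by
  have h := Matrix.linearIndependent_rows_iff_isUnit (A := Matrix.of ![u, v, w])
  rw [Matrix.isUnit_iff_isUnit_det, isUnit_iff_ne_zero] at h
  exact h.symm

/-- A matrix with non-zero determinant has an inverse. -/
theorem mulVec_inv {g : Matrix (Fin 3) (Fin 3) ℂ} (hg : g.det ≠ 0) (v : Fin 3 → ℂ) :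
    g.mulVec (g⁻¹.mulVec v) = v := by
  rw [Matrix.mulVec_mulVec, Matrix.mul_nonsing_inv _ (isUnit_iff_ne_zero.2 hg), Matrix.one_mulVec]

theorem inv_mulVec {g : Matrix (Fin 3) (Fin 3) ℂ} (hg : g.det ≠ 0) (v : Fin 3 → ℂ) :
    g⁻¹.mulVec (g.mulVec v) = v := by
  rw [Matrix.mulVec_mulVec, Matrix.nonsing_inv_mul _ (isUnit_iff_ne_zero.2 hg), Matrix.one_mulVec]

/-- The line through two given points is determined. -/
theorem line_unique {P Q c d : Fin 3 → ℂ} (hPQ : LinearIndependent ℂ ![P, Q]) (hc : c ≠ 0)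
    (hcP : fm c P = 0) (hcQ : fm c Q = 0) (hdP : fm d P = 0) (hdQ : fm d Q = 0) :
    ∃ r : ℂ, d = r • c := by
  refine exists_smul_of_zero hPQ hc ?_ ?_ ?_ ?_
  · rw [dotProduct_comm]; exact hcP
  · rw [dotProduct_comm]; exact hcQ
  · rw [dotProduct_comm]; exact hdP
  · rw [dotProduct_comm]; exact hdQ

/-- A family of lines is rigid if a rigid subfamily determines all others. -/
theorem IsRigid.extend {ι κ : Type} [Finite κ] (e : ι → κ) (b : κ → Fin 3 → ℂ)
    (h : IsRigid (b ∘ e))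
    (H : ∀ j, j ∉ Set.range e → b j ≠ 0 ∧ ∃ i i' l l' : ι,
      dt (b (e i)) (b (e i')) (b j) = 0 ∧ dt (b (e l)) (b (e l')) (b j) = 0 ∧
      LinearIndependent ℂ ![crossProduct (b (e i)) (b (e i')),
        crossProduct (b (e l)) (b (e l'))]) :
    IsRigid b := by
  have h1 : Filter.Tendsto (fun b' : κ → Fin 3 → ℂ => b' ∘ e) (𝓝 b) (𝓝 (b ∘ e)) := by
    have : Continuous (fun b' : κ → Fin 3 → ℂ => b' ∘ e) :=
      continuous_pi fun i => continuous_apply (e i)
    exact this.tendsto b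
  have h2 : ∀ᶠ b' in 𝓝 b, ∀ j, j ∉ Set.range e → b' j ≠ 0 := by
    rw [Filter.eventually_all]
    intro j
    by_cases hj : j ∈ Set.range e
    · exact Filter.Eventually.of_forall fun b' h => absurd hj h
    · have := (continuous_apply (A := fun _ : κ => Fin 3 → ℂ) j).continuousAt (x := b)
      filter_upwards [this.eventually_ne (H j hj).1] with b' hb' _ using hb'
  filter_upwards [h1.eventually h, h2] with b' hb' hne hst
  obtain ⟨g, hg, hgb⟩ := hb' fun i j l => hst (e i) (e j) (e l)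
  refine ⟨g, hg, fun j => ?_⟩
  by_cases hj : j ∈ Set.range e
  · obtain ⟨i, rfl⟩ := hj
    exact hgb i
  · obtain ⟨hbj, i, i', l, l', h3, h4, h5⟩ := H j hj
    have key : ∀ i i' : ι, dt (b (e i)) (b (e i')) (b j) = 0 →
        fm (g⁻¹.mulVec (b' j)) (crossProduct (b (e i)) (b (e i'))) = 0 := by
      intro i i' h0
      obtain ⟨c, hc, hbc⟩ := hgb i
      obtain ⟨c', hc', hbc'⟩ := hgb i'
      have h6 := (hst (e i) (e i') j).1 h0
      have h7 : b' (e i) = c • g.mulVec (b (e i)) := hbc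
      have h8 : b' (e i') = c' • g.mulVec (b (e i')) := hbc'
      rw [h7, h8, dt_smul_left, dt_smul_mid] at h6
      rw [fm_cross]
      have h9 := dt_mulVec g (b (e i)) (b (e i')) (g⁻¹.mulVec (b' j))
      rw [mulVec_inv hg] at h9
      rw [h9] at h6
      simpa [hc, hc', hg] using h6
    obtain ⟨r, hr⟩ := line_unique h5 hbj (by rw [fm_cross]; exact h3)
      (by rw [fm_cross]; exact h4) (key i i' h3) (key l l' h4)
    have h10 : b' j = r • g.mulVec (b j) := by
      rw [← Matrix.mulVec_smul, ← hr, mulVec_inv hg]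
    refine ⟨r, ?_, h10⟩
    rintro rfl
    exact hne j hj (by rw [h10, zero_smul])

/-- Rigidity is invariant under projective transformations. -/
theorem IsRigid.map {ι : Type} {a : ι → Fin 3 → ℂ} (h : IsRigid a)
    {g : Matrix (Fin 3) (Fin 3) ℂ} (hg : g.det ≠ 0) : IsRigid fun i => g.mulVec (a i) := by
  have hcont : Continuous (fun b : ι → Fin 3 → ℂ => fun i => g⁻¹.mulVec (b i)) := by
    refine continuous_pi fun i => ?_
    exact Continuous.matrix_mulVec continuous_const (continuous_apply i)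
  have h1 : Filter.Tendsto (fun b : ι → Fin 3 → ℂ => fun i => g⁻¹.mulVec (b i))
      (𝓝 fun i => g.mulVec (a i)) (𝓝 a) := by
    have h2 := hcont.tendsto (fun i => g.mulVec (a i))
    simpa only [inv_mulVec hg] using h2
  have hg' : g⁻¹.det ≠ 0 := by
    rw [Matrix.det_nonsing_inv]
    simpa using hg
  filter_upwards [h1.eventually h] with b hb hst
  obtain ⟨f, hf, hfb⟩ := hb fun i j l => by
    rw [dt_mulVec, mul_eq_zero, or_iff_right hg', ← hst i j l, dt_mulVec, mul_eq_zero,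
      or_iff_right hg]
  refine ⟨g * f * g⁻¹, ?_, fun i => ?_⟩
  · rw [Matrix.det_mul, Matrix.det_mul]
    exact mul_ne_zero (mul_ne_zero hg hf) hg'
  · obtain ⟨c, hc, hbc⟩ := hfb i
    refine ⟨c, hc, ?_⟩
    rw [← Matrix.mulVec_mulVec, ← Matrix.mulVec_mulVec, inv_mulVec hg, ← Matrix.mulVec_smul,
      ← hbc, mulVec_inv hg]

end Pool.Agent.Helper55_HK
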