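import Pool.Agent.Helper55_HK.Twist
import Pool.Agent.Helper55_HK.Family
import Pool.Agent.Helper55_HK.Bigon
import Pool.Agent.Helper55_HK.Rigid

/-! Lifts of two ramification curves to a contractible covering meet at most once. -/

open Topology unitInterval
open scoped LinearAlgebra.Projectivization Matrix

namespace Pool.Agent.Helper55_HK

/-- A quotient of two homogeneous coordinates is continuous. -/
theorem continuousAt_ratio {ι : Type} (T T' : ι) (y : PP ι) (hy : y.rep T' ≠ 0) :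
    ContinuousAt (fun y : PP ι => y.rep T / y.rep T') y := by
  have h1 : ContinuousAt (fun y : PP ι => y.rep T / y.rep T')
      (Projectivization.mk ℂ y.rep y.rep_nonzero) := by
    refine continuousAt_of_comp_mk y.rep_nonzero ?_
    have : (fun w : {v : ι → ℂ // v ≠ 0} => (Projectivization.mk ℂ w.1 w.2).rep T /
        (Projectivization.mk ℂ w.1 w.2).rep T') = fun w => w.1 T / w.1 T' := by
      funext w
      obtain ⟨c, hc⟩ := Projectivization.exists_smul_eq_mk_rep ℂ w.1 w.2
      rw [← hc]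
      exact mul_div_mul_left _ _ c.ne_zero
    rw [this]
    refine ContinuousAt.div ?_ ?_ hy
    · exact ((continuous_apply T).comp continuous_subtype_val).continuousAt
    · exact ((continuous_apply T').comp continuous_subtype_val).continuousAt
  rwa [y.mk_rep] at h1

/-- Along the ramification curve over the line `W`, the quotient of the coordinates of two lines
which meet on `W` is constant. -/
theorem ratio_along {n : ℕ} (hn : n ≠ 0) {k : ℕ} {a : Fin k → Fin 3 → ℂ} (ha : IsConfig a)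
    {W T T' : Fin k} (hTW : T ≠ W) (hT'W : T' ≠ W) (hTT' : T ≠ T')
    (hdt : dt (a T) (a T') (a W) = 0) (γ : C(I, HK n a)) (hγ : ∀ s, OnLine W (γ s))
    (s s' : I) (hs : (γ s).1.1.rep T ≠ 0) (hs' : (γ s').1.1.rep T ≠ 0) :
    (γ s).1.1.rep T * (γ s').1.1.rep T' = (γ s').1.1.rep T * (γ s).1.1.rep T' := by
  classical
  -- the point of intersection
  set q := crossProduct (a T) (a T') with hq
  have hq0 : q ≠ 0 := crossProduct_ne_zero_iff_linearIndependent.2 (ha.distinct T T' hTT')
  have hqT : fm (a T) q = 0 := by rw [hq, fm_cross]; simp only [dt_eq]; ring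
  have hqT' : fm (a T') q = 0 := by rw [hq, fm_cross]; simp only [dt_eq]; ring
  have hqW : fm (a W) q = 0 := by rw [hq, fm_cross]; exact hdt
  let S₀ : Finset (Fin k) := Finset.univ.filter fun i => fm (a i) q = 0
  have hmem : ∀ i, i ∈ S₀ ↔ fm (a i) q = 0 := fun i => by simp [S₀]
  have hcard : 3 ≤ S₀.card := by
    have hsub : ({T, T', W} : Finset (Fin k)) ⊆ S₀ := by
      intro i hi
      rw [hmem]
      simp only [Finset.mem_insert, Finset.mem_singleton] at hi
      rcases hi with rfl | rfl | rfl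
      · exact hqT
      · exact hqT'
      · exact hqW
    have h3 : ({T, T', W} : Finset (Fin k)).card = 3 := by
      rw [Finset.card_eq_three]
      exact ⟨T, T', W, hTT', hTW, hT'W, rfl⟩
    rw [← h3]
    exact Finset.card_le_card hsub
  let S : Mult a := ⟨S₀, hcard, q, hq0, hmem⟩
  let iT : S.1 := ⟨T, (hmem T).2 hqT⟩
  let iT' : S.1 := ⟨T', (hmem T').2 hqT'⟩
  have hWS : W ∈ S.1 := (hmem W).2 hqW
  -- a relation between the forms
  obtain ⟨P, Q, hPQ⟩ := exists_combination (c := a T') (ha.distinct T W hTW) hq0 hqT hqW hqT'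
  have hP : P ≠ 0 := by
    rintro rfl
    have := ha.distinct T' W hT'W
    rw [hPQ, zero_smul, zero_add] at this
    have h1 := LinearIndependent.pair_iff.1 this 1 (-Q) (by module)
    exact one_ne_zero h1.1
  -- the coordinates of the points of the exceptional curve
  have hy : ∀ p : HK n a, OnLine W p → (p.1.2 S).rep iT ≠ 0 ∧
      (p.1.2 S).rep iT' ^ n = P * (p.1.2 S).rep iT ^ n := by
    intro p hp
    obtain ⟨v, hv⟩ := (p.2.2 S).1
    have hvW : fm (a W) v = 0 := by
      have h1 := hv ⟨W, hWS⟩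
      rw [hp.2 S hWS, zero_pow hn] at h1
      exact h1.symm
    constructor
    · intro h0
      have hvT : fm (a T) v = 0 := by
        have h1 := hv iT
        rw [h0, zero_pow hn] at h1
        exact h1.symm
      obtain ⟨c, hc⟩ := exists_smul_of_zero (ha.distinct T W hTW) hq0 hqT hqW hvT hvW
      apply (p.1.2 S).rep_nonzero
      funext i
      have h1 := hv i
      have h2 : fm (a i) v = 0 := by
        rw [hc, fm, dotProduct_smul]
        change c • fm (a i) q = 0
        rw [(hmem i).1 i.2, smul_zero]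
      rw [h2] at h1
      exact (pow_eq_zero_iff hn).1 h1
    · rw [hv, hv]
      change fm (a T') v = P * fm (a T) v
      rw [hPQ, fm, add_dotProduct, smul_dotProduct, smul_dotProduct]
      change P • fm (a T) v + Q • fm (a W) v = _
      rw [hvW, smul_zero, add_zero, smul_eq_mul]
  -- the ratio along the path
  let ρ : C(I, ℂ) := ⟨fun s => ((γ s).1.2 S).rep iT' / ((γ s).1.2 S).rep iT, by
    rw [continuous_iff_continuousAt]
    intro s
    refine ContinuousAt.comp (g := fun y : PP S.1 => y.rep iT' / y.rep iT)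
      (f := fun s => (γ s).1.2 S) (continuousAt_ratio iT' iT _ (hy _ (hγ s)).1) ?_
    exact ((continuous_apply S).comp (continuous_snd.comp
      (continuous_subtype_val.comp γ.continuous))).continuousAt⟩
  have hρn : ∀ s, ρ s ^ n = P := by
    intro s
    simp only [ρ, ContinuousMap.coe_mk, div_pow]
    rw [(hy _ (hγ s)).2, mul_div_assoc, div_self (pow_ne_zero _ (hy _ (hγ s)).1), mul_one]
  have hρ0 : ∀ s, ρ s ≠ 0 := by
    intro s h0
    have := hρn s
    rw [h0, zero_pow hn] at this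
    exact hP this.symm
  have hconst := ratio_const hn ρ (ContinuousMap.const I 1) hρ0 (fun _ => one_ne_zero)
    (c := 1) (d := P) one_ne_zero (fun s => by
      rw [hρn, ContinuousMap.const_apply, one_pow, one_mul, mul_one]) s s'
  simp only [ContinuousMap.const_apply, mul_one] at hconst
  have hx : ∀ s, (γ s).1.1.rep T ≠ 0 → (γ s).1.1.rep T' = ρ s * (γ s).1.1.rep T := by
    intro s hs
    obtain ⟨c, hc⟩ := ((γ s).2.2 S).2
    have e1 := hc iT
    have e2 := hc iT'
    change (γ s).1.1.rep T = _ at e1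
    change (γ s).1.1.rep T' = _ at e2
    rw [e1, e2]
    simp only [ρ, ContinuousMap.coe_mk]
    have := (hy _ (hγ s)).1
    field_simp
  rw [hx s hs, hx s' hs', hconst]
  ring

/-- If two different points over a double point are joined by a path over one of the lines which
is homotopic to a path over the other line, the Hirzebruch-Kummer covering is not a `K(π,1)`. -/
theorem not_isKPiOne_of_crossing {n : ℕ} (hn : 2 ≤ n) {k : ℕ} {a : Fin k → Fin 3 → ℂ}
    (ha : IsConfig a) {A B : Fin k} (hAB : A ≠ B) {o : Fin 3 → ℂ}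
    (hdouble : ∀ i, fm (a i) o = 0 ↔ i = A ∨ i = B) (D : C(Square, HK n a))
    (hA : ∀ s, OnLine A (D (0, s))) (hB : ∀ s, OnLine B (D (1, s)))
    (hbot : ∀ x, D (x, 0) = D (0, 0)) (htop : ∀ x, D (x, 1) = D (0, 1))
    (hne : D (0, 0) ≠ D (0, 1)) : ¬ IsKPiOne (HK n a) := by
  rintro ⟨U, _, p, cov, hsurj, hU⟩
  have hn0 : n ≠ 0 := by omega
  have hn1 : 0 < n := by omega
  have hlin := ha.distinct A B hAB
  have hAo : fm (a A) o = 0 := (hdouble A).2 (Or.inl rfl)
  have hBo : fm (a B) o = 0 := (hdouble B).2 (Or.inr rfl)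
  have hne' : ∀ i, i ≠ A → i ≠ B → fm (a i) o ≠ 0 := fun i h1 h2 h => by
    rcases (hdouble i).1 h with h' | h'
    · exact h1 h'
    · exact h2 h'
  have ho : o ≠ 0 := by
    rintro rfl
    -- all lines would be `A` or `B`
    have hall : ∀ i, i = A ∨ i = B := fun i => (hdouble i).1 (dotProduct_zero _)
    have h1 := ha.not_concurrent (crossProduct (a A) (a B)) fun i => by
      rw [fm_cross]
      rcases hall i with rfl | rfl <;> simp only [dt_eq] <;> ring
    exact crossProduct_ne_zero_iff_linearIndependent.2 hlin h1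
  -- coordinates of the points over the double point
  have hcoord : ∀ q : HK n a, OnLine A q → OnLine B q → ∃ c : ℂ, c ≠ 0 ∧
      ∀ i, q.1.1.rep i ^ n = c * fm (a i) o := by
    intro q hqA hqB
    obtain ⟨v, hv⟩ := q.2.1
    have h1 : fm (a A) v = 0 := by rw [← hv, hqA.1, zero_pow hn0]
    have h2 : fm (a B) v = 0 := by rw [← hv, hqB.1, zero_pow hn0]
    obtain ⟨c, hc⟩ := exists_smul_of_zero hlin ho hAo hBo h1 h2
    refine ⟨c, ?_, fun i => ?_⟩
    · rintro rfl
      apply q.1.1.rep_nonzero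
      funext i
      have := hv i
      rw [hc, zero_smul] at this
      change _ = fm (a i) 0 at this
      rw [fm, dotProduct_zero] at this
      exact (pow_eq_zero_iff hn0).1 this
    · rw [hv, hc, fm, dotProduct_smul, smul_eq_mul]
  set P₀ := D (0, 0) with hP₀
  set P₁ := D (0, 1) with hP₁
  have hP₀A : OnLine A P₀ := hA 0
  have hP₀B : OnLine B P₀ := by rw [← hbot 1]; exact hB 0
  have hP₁A : OnLine A P₁ := hA 1
  have hP₁B : OnLine B P₁ := by rw [← htop 1]; exact hB 1
  obtain ⟨c₀, hc₀, hx₀⟩ := hcoord P₀ hP₀A hP₀B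
  obtain ⟨c₁, hc₁, hx₁⟩ := hcoord P₁ hP₁A hP₁B
  have hx₀ne : ∀ i, i ≠ A → i ≠ B → P₀.1.1.rep i ≠ 0 := fun i h1 h2 h => by
    have := hx₀ i
    rw [h, zero_pow hn0] at this
    exact mul_ne_zero hc₀ (hne' i h1 h2) this.symm
  have hx₁ne : ∀ i, i ≠ A → i ≠ B → P₁.1.1.rep i ≠ 0 := fun i h1 h2 h => by
    have := hx₁ i
    rw [h, zero_pow hn0] at this
    exact mul_ne_zero hc₁ (hne' i h1 h2) this.symm
  -- two lines whose coordinates distinguish the two points
  obtain ⟨T, T', hTA, hTB, hT'A, hT'B, hTT'⟩ : ∃ T T' : Fin k, T ≠ A ∧ T ≠ B ∧ T' ≠ A ∧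
      T' ≠ B ∧ P₀.1.1.rep T * P₁.1.1.rep T' ≠ P₁.1.1.rep T * P₀.1.1.rep T' := by
    by_contra hcon
    push Not at hcon
    apply hne
    -- some line is different from `A` and `B`
    obtain ⟨T, hTA, hTB⟩ : ∃ T, T ≠ A ∧ T ≠ B := by
      by_contra h
      push Not at h
      have h1 := ha.not_concurrent o fun i => by
        by_cases hi : i = A
        · rw [hi]; exact hAo
        · rw [h i hi]; exact hBo
      exact ho h1
    set r : ℂ := P₁.1.1.rep T / P₀.1.1.rep T with hr
    have hT0 := hx₀ne T hTA hTB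
    have hr0 : r ≠ 0 := div_ne_zero (hx₁ne T hTA hTB) hT0
    have hprop : ∀ i, P₁.1.1.rep i = r * P₀.1.1.rep i := by
      intro i
      by_cases hiA : i = A
      · rw [hiA, hP₀A.1, hP₁A.1, mul_zero]
      by_cases hiB : i = B
      · rw [hiB, hP₀B.1, hP₁B.1, mul_zero]
      have := hcon T i hTA hTB hiA hiB
      rw [hr, div_mul_eq_mul_div, eq_div_iff hT0]
      linear_combination this
    have key : ∀ {ι : Type} (x y : PP ι) (r : ℂ), (∀ i, y.rep i = r * x.rep i) → x = y := by
      intro ι x y r h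
      rw [← x.mk_rep, ← y.mk_rep]
      refine ((Projectivization.mk_eq_mk_iff' ℂ _ _ _ _).2 ⟨r, ?_⟩).symm
      funext i
      exact (h i).symm
    refine Subtype.ext (Prod.ext (key _ _ r hprop) (funext fun S => ?_))
    obtain ⟨d₀, hd₀⟩ := (P₀.2.2 S).2
    obtain ⟨d₁, hd₁⟩ := (P₁.2.2 S).2
    have hcard : ({A, B} : Finset (Fin k)).card < S.1.card :=
      lt_of_le_of_lt Finset.card_le_two S.2.1
    obtain ⟨j, hj, hj'⟩ := Finset.exists_mem_notMem_of_card_lt_card hcard
    simp only [Finset.mem_insert, Finset.mem_singleton, not_or] at hj'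
    have e0 := hd₀ ⟨j, hj⟩
    have e1 := hd₁ ⟨j, hj⟩
    have hd₁0 : d₁ ≠ 0 := by
      rintro rfl
      rw [zero_mul] at e1
      exact hx₁ne j hj'.1 hj'.2 e1
    refine key _ _ (r * d₀ / d₁) fun i => ?_
    have h1 := hd₀ i
    have h2 := hd₁ i
    rw [hprop, h1] at h2
    field_simp
    linear_combination -h2
  have hTT : T ≠ T' := by
    rintro rfl
    exact hTT' (mul_comm _ _)
  -- the lines do not meet on `A` or `B`
  have hdtA : dt (a T) (a T') (a A) ≠ 0 := by
    intro h
    refine hTT' (ratio_along hn0 ha hTA hT'A hTT h ⟨fun s => D (0, s), by fun_prop⟩ hA 0 1 ?_ ?_)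
    · exact hx₀ne T hTA hTB
    · exact hx₁ne T hTA hTB
  have hdtB : dt (a T) (a T') (a B) ≠ 0 := by
    intro h
    have h1 := ratio_along hn0 ha hTB hT'B hTT h ⟨fun s => D (1, s), by fun_prop⟩ hB 0 1
    simp only [ContinuousMap.coe_mk, hbot 1, htop 1] at h1
    exact hTT' (h1 (hx₀ne T hTA hTB) (hx₁ne T hTA hTB))
  have hTo := hne' T hTA hTB
  have hT'o := hne' T' hT'A hT'B
  -- roots of unity and constants
  obtain ⟨ζ, hζ⟩ : ∃ ζ : ℂ, IsPrimitiveRoot ζ n := ⟨_, Complex.isPrimitiveRoot_exp n hn0⟩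
  obtain ⟨κ, hκ⟩ := IsAlgClosed.exists_pow_nat_eq (fm (a T) o)⁻¹ hn1
  obtain ⟨κ', hκ'⟩ := IsAlgClosed.exists_pow_nat_eq (fm (a T') o)⁻¹ hn1
  have hκ0 : κ ≠ 0 := by
    rintro rfl
    rw [zero_pow hn0] at hκ
    exact hTo (inv_eq_zero.1 hκ.symm)
  have hκ'0 : κ' ≠ 0 := by
    rintro rfl
    rw [zero_pow hn0] at hκ'
    exact hT'o (inv_eq_zero.1 hκ'.symm)
  obtain ⟨P, Q, hPQ⟩ := exists_combination (c := (fm (a T') o)⁻¹ • a T' - (fm (a T) o)⁻¹ • a T)
    hlin ho hAo hBo (by
      rw [sub_dotProduct, smul_dotProduct, smul_dotProduct]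
      change (fm (a T') o)⁻¹ • fm (a T') o - (fm (a T) o)⁻¹ • fm (a T) o = 0
      rw [smul_eq_mul, smul_eq_mul, inv_mul_cancel₀ hT'o, inv_mul_cancel₀ hTo, sub_self])
  have haT' : a T' = (fm (a T') o * (fm (a T) o)⁻¹) • a T + (fm (a T') o * P) • a A +
      (fm (a T') o * Q) • a B := by
    have h1 : (fm (a T') o)⁻¹ • a T' = (fm (a T) o)⁻¹ • a T + P • a A + Q • a B := by
      rw [add_assoc, ← hPQ]
      abel
    have h2 := congrArg (fun v => fm (a T') o • v) h1
    simp only [smul_smul, smul_add, mul_inv_cancel₀ hT'o, one_smul] at h2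
    exact h2
  have hP : P ≠ 0 := by
    rintro rfl
    apply hdtB
    rw [haT']
    simp only [dt_eq, Pi.add_apply, Pi.smul_apply, smul_eq_mul]
    ring
  have hQ : Q ≠ 0 := by
    rintro rfl
    apply hdtA
    rw [haT']
    simp only [dt_eq, Pi.add_apply, Pi.smul_apply, smul_eq_mul]
    ring
  obtain ⟨α, hα⟩ := IsAlgClosed.exists_pow_nat_eq P hn1
  obtain ⟨β, hβ⟩ := IsAlgClosed.exists_pow_nat_eq (-Q) hn1
  have hα0 : α ≠ 0 := by
    rintro rfl
    rw [zero_pow hn0] at hα
    exact hP hα.symm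
  have hβ0 : β ≠ 0 := by
    rintro rfl
    rw [zero_pow hn0] at hβ
    exact hQ (neg_eq_zero.1 hβ.symm)
  have hrel : ∀ v : Fin 3 → ℂ, κ' ^ n * (a T' ⬝ᵥ v) - κ ^ n * (a T ⬝ᵥ v) =
      α ^ n * (a A ⬝ᵥ v) - β ^ n * (a B ⬝ᵥ v) := by
    intro v
    have := congrArg (fun c : Fin 3 → ℂ => c ⬝ᵥ v) hPQ
    simp only [sub_dotProduct, add_dotProduct, smul_dotProduct, smul_eq_mul] at this
    rw [hκ, hκ', hα, hβ]
    linear_combination this
  have hker : ∀ v : Fin 3 → ℂ, a T ⬝ᵥ v = 0 → a A ⬝ᵥ v = 0 → a B ⬝ᵥ v = 0 → v = 0 := by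
    intro v hT hA hB
    obtain ⟨c, rfl⟩ := exists_smul_of_zero hlin ho hAo hBo hA hB
    rw [dotProduct_smul, smul_eq_mul] at hT
    rw [(mul_eq_zero.1 hT).resolve_right hTo, zero_smul]
  set ω₀ : ℂ := (κ' * P₀.1.1.rep T') / (κ * P₀.1.1.rep T) with hω₀def
  have hT0 := hx₀ne T hTA hTB
  have hω₀ : ω₀ ^ n = 1 := by
    rw [hω₀def, div_pow, mul_pow, mul_pow, hκ, hκ', hx₀, hx₀]
    field_simp
  obtain ⟨Φ, hΦ1, hΦ2, hΦ3, hΦ4, hΦ5⟩ := exists_line_field' hn a T T' A B κ κ' α β hκ0 hα0 hβ0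
    hrel hker hω₀
  -- the slices of the orange
  let w : ℕ → Bool → Fin k → ℂ := fun j b i =>
    if i = A then ζ ^ j else if i = B then ζ ^ (j + b.toNat) else 1
  have hw : ∀ j b i, w j b i ^ n = 1 := by
    intro j b i
    have : ∀ m : ℕ, (ζ ^ m) ^ n = 1 := fun m => by
      rw [← pow_mul, mul_comm, pow_mul, hζ.pow_eq_one, one_pow]
    simp only [w]
    split_ifs <;> simp [this]
  let E : ℕ → Bool → C(Square, HK n a) := fun j b =>
    ⟨fun z => twist hn0 (w j b) (hw j b) (D z),
      (continuous_twist hn0 (w j b) (hw j b)).comp D.continuous⟩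
  have hE0 : ∀ j b (P : HK n a), OnLine A P → OnLine B P →
      twist hn0 (w j b) (hw j b) P = P := by
    intro j b P hPA hPB
    refine twist_one hn0 _ P fun i => ?_
    by_cases hiA : i = A
    · rw [hiA]; exact Or.inr hPA
    by_cases hiB : i = B
    · rw [hiB]; exact Or.inr hPB
    · left
      simp only [w, if_neg hiA, if_neg hiB]
  have hEbot : ∀ j b x, E j b (x, 0) = P₀ := by
    intro j b x
    simp only [E, ContinuousMap.coe_mk, hbot]
    exact hE0 j b _ hP₀A hP₀B
  have hEtop : ∀ j b x, E j b (x, 1) = P₁ := by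
    intro j b x
    simp only [E, ContinuousMap.coe_mk, htop]
    exact hE0 j b _ hP₁A hP₁B
  have hEright : ∀ j s, E j false (1, s) = E j true (1, s) := by
    intro j s
    refine twist_congr hn0 (hw j false) (hw j true) (D (1, s)) fun i => ?_
    by_cases hiB : i = B
    · rw [hiB]; exact Or.inr (hB s)
    · left
      simp only [w, if_neg hiB]
  have hEleft : ∀ j j' s, ζ ^ (j + 1) = ζ ^ j' → E j true (0, s) = E j' false (0, s) := by
    intro j j' s hjj
    refine twist_congr hn0 (hw j true) (hw j' false) (D (0, s)) fun i => ?_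
    by_cases hiA : i = A
    · rw [hiA]; exact Or.inr (hA s)
    · left
      by_cases hiB : i = B
      · simp only [w, hiB, if_neg hAB.symm, if_true, Bool.toNat_true, Bool.toNat_false, add_zero]
        exact hjj
      · simp only [w, if_neg hiA, if_neg hiB]
  obtain ⟨g', hg'0, hg'1, hg'bot, hg'seam, hg'top⟩ := exists_section_family cov hsurj
    (J := Fin n × Bool) (fun j => E j.1 j.2) P₀ (fun j x => hEbot _ _ x) Φ hΦ1 hΦ2
  let m : ℕ → Fin n := fun j => ⟨j % n, Nat.mod_lt _ hn1⟩
  have hζm : ∀ j, ζ ^ (j % n) = ζ ^ j := by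
    intro j
    conv_rhs => rw [← Nat.mod_add_div j n, pow_add, pow_mul, hζ.pow_eq_one, one_pow, mul_one]
  let g : ℕ → Bool → C(I × I, ℂ × ℂ) := fun j b => g' (m j, b)
  have hgfix : ∀ j b z, Φ (E j b z) (g j b z) = g j b z := by
    intro j b z
    have h1 := hg'1 (m j, b) z
    have h2 : E (m j) b z = E j b z := by
      refine twist_congr hn0 (hw (m j) b) (hw j b) (D z) fun i => Or.inl ?_
      simp only [w, m, pow_add, hζm]
    rw [h2] at h1
    exact h1
  have hgright : ∀ j s, g j false (1, s) = g j true (1, s) := fun j s =>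
    hg'seam (m j, false) (m j, true) 1 1 (fun s => hEright _ s) s
  have hgleft : ∀ j s, g j true (0, s) = g (j + 1) false (0, s) := fun j s =>
    hg'seam (m j, true) (m (j + 1), false) 0 0 (fun s => hEleft _ _ s (by
      simp only [m]
      rw [pow_succ, hζm, hζm, pow_succ])) s
  have hgtop1 : ∀ j b x y, g j b (x, 1) = g j b (y, 1) := fun j b x y =>
    hg'top (m j, b) (fun x y => by rw [hEtop, hEtop]) x y
  have hgtop2 : ∀ j, g j true (0, 1) = g j false (0, 1) := fun j => by
    rw [hgtop1 j true 0 1, hgtop1 j false 0 1, hgright]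
  have hgtop3 : ∀ j, g j false (0, 1) = g 0 false (0, 1) := by
    intro j
    induction j with
    | zero => rfl
    | succ j ih => rw [← hgleft, hgtop2, ih]
  refine orange_false hn hζ g (fun j b z => hg'0 _ _) (fun j b => ?_) (fun j b z => ?_)
    hgright hgleft (fun j b x => hg'bot _ _ _ _) ?_ (fun j b x => ?_) ?_
  · simp only [g, m, Nat.add_mod_right]
  · refine hΦ3 (E (j + 1) b z) _ (_, _) (hgfix _ _ _) ?_
    refine hΦ4 (E j b z) (E (j + 1) b z) ζ hζ.pow_eq_one ?_ _ (hgfix _ _ _)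
    obtain ⟨c, hc, h1⟩ := scale_rep (w j b) (fun i => ne_zero_of_pow hn0 (hw j b i)) (D z).1.1
    obtain ⟨d, hd, h2⟩ := scale_rep (w (j + 1) b)
      (fun i => ne_zero_of_pow hn0 (hw (j + 1) b i)) (D z).1.1
    have hwA : w (j + 1) b A = ζ * w j b A := by simp only [w, if_true]; ring
    have hwB : w (j + 1) b B = ζ * w j b B := by
      simp only [w, if_neg hAB.symm, if_true]; ring
    have hwT : ∀ j, w j b T = 1 := fun j => by simp only [w, if_neg hTA, if_neg hTB]
    have hwT' : ∀ j, w j b T' = 1 := fun j => by simp only [w, if_neg hT'A, if_neg hT'B]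
    have h1' : ∀ i, (E j b z).1.1.rep i = c * (w j b i * (D z).1.1.rep i) := h1
    have h2' : ∀ i, (E (j + 1) b z).1.1.rep i = d * (w (j + 1) b i * (D z).1.1.rep i) := h2
    refine ⟨d / c, div_ne_zero hd hc, ?_, ?_, ?_, ?_⟩
    · rw [h1', h2', hwT, hwT]
      field_simp
    · rw [h1', h2', hwT', hwT']
      field_simp
    · rw [h1', h2', hwA]
      field_simp
    · rw [h1', h2', hwB]
      field_simp
  · have h1 := hgfix 0 false (0, 0)
    rw [hEbot] at h1
    refine (hΦ5 P₀ hP₀A.1 hP₀B.1 _ h1).1 ?_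
    rw [hω₀def, div_mul_cancel₀ _ (mul_ne_zero hκ0 hT0)]
  · cases b
    · rw [hgtop1 j false x 0, hgtop3]
    · rw [hgtop1 j true x 0, hgtop2, hgtop3]
  · have h1 := hgfix 0 false (0, 1)
    rw [hEtop] at h1
    refine (hΦ5 P₁ hP₁A.1 hP₁B.1 _ h1).2 fun h2 => hTT' ?_
    rw [hω₀def, div_mul_eq_mul_div, eq_div_iff (mul_ne_zero hκ0 hT0)] at h2
    have h3 : (κ' * κ) * (P₀.1.1.rep T * P₁.1.1.rep T') =
        (κ' * κ) * (P₁.1.1.rep T * P₀.1.1.rep T') := by linear_combination h2
    exact mul_left_cancel₀ (mul_ne_zero hκ'0 hκ0) h3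

end Pool.Agent.Helper55_HK
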