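import Mathlib

/-!
# Line configurations and their Hirzebruch-Kummer coverings

A configuration of `k` lines in the complex projective plane is given by the coefficient
vectors `a i : Fin 3 → ℂ` of linear forms, the `i`-th line being `fm (a i) v = 0`.
-/

open scoped LinearAlgebra.Projectivization Matrix unitInterval

namespace Pool.Agent.Helper55_HK

/-- The value at `v` of the linear form with coefficient vector `c`. -/
abbrev fm (c v : Fin 3 → ℂ) : ℂ := c ⬝ᵥ v

/-- The complex projective space with homogeneous coordinates indexed by `ι`. -/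
abbrev PP (ι : Type) : Type := ℙ ℂ (ι → ℂ)

/-- The quotient topology on the projective space of a complex topological vector space. -/
instance projTopology (V : Type*) [AddCommGroup V] [Module ℂ V] [TopologicalSpace V] :
    TopologicalSpace (ℙ ℂ V) :=
  inferInstanceAs (TopologicalSpace (Quotient (projectivizationSetoid ℂ V)))

/-- `a` gives a configuration of lines: the lines are distinct (so all forms are nonzero) and not
all of them pass through one point. (These two properties force `3 ≤ k`.) -/
structure IsConfig {k : ℕ} (a : Fin k → Fin 3 → ℂ) : Prop where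
  distinct : ∀ i j, i ≠ j → LinearIndependent ℂ ![a i, a j]
  not_concurrent : ∀ v : Fin 3 → ℂ, (∀ i, fm (a i) v = 0) → v = 0

/-- `S` consists of all the lines through some point of the plane, and there are at least three
of them. -/
def IsMultiple {k : ℕ} (a : Fin k → Fin 3 → ℂ) (S : Finset (Fin k)) : Prop :=
  3 ≤ S.card ∧ ∃ v : Fin 3 → ℂ, v ≠ 0 ∧ ∀ i, i ∈ S ↔ fm (a i) v = 0

/-- The points of multiplicity at least three, each given by the set of lines through it. -/
abbrev Mult {k : ℕ} (a : Fin k → Fin 3 → ℂ) : Type := {S : Finset (Fin k) // IsMultiple a S}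

/-- The points `[x]` of the projective space with coordinates indexed by `ι` such that
`(x i ^ n)_i = (fm (a i) v)_i` for some vector `v`. -/
def kummer (n : ℕ) {ι : Type} (a : ι → Fin 3 → ℂ) : Set (PP ι) :=
  {x | ∃ v : Fin 3 → ℂ, ∀ i, x.rep i ^ n = fm (a i) v}

/-- The restriction of the coordinates of `x` to `S` is a multiple of the coordinates of `y`. -/
def Restricts {k : ℕ} (x : PP (Fin k)) (S : Finset (Fin k)) (y : PP S) : Prop :=
  ∃ c : ℂ, ∀ i : S, x.rep i = c * y.rep i

/-- The condition which defines the points of the Hirzebruch-Kummer covering, see `HK`. -/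
def IsHKPoint (n : ℕ) {k : ℕ} (a : Fin k → Fin 3 → ℂ)
    (p : PP (Fin k) × (∀ S : Mult a, PP S.1)) : Prop :=
  p.1 ∈ kummer n a ∧
    ∀ S, p.2 S ∈ kummer n (fun i : S.1 => a i) ∧ Restricts p.1 S.1 (p.2 S)

/-- The Hirzebruch-Kummer covering `HK_C(n)`, for `n ≥ 2`. The Kummer covering `X_C(n)` of the
plane is `kummer n a`, the normal surface `{[x] : (x i ^ n)_i = (ℓ_i v)_i for some v}` in
`ℙ^(k-1)`, with the map `[x] ↦ [v]`; near a point over a point `p` with `m ≥ 3` lines (the lines
of `S`) it is the cone over the smooth curve `kummer n (a|S)` in `ℙ^(m-1)`, and it is smooth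
elsewhere. Its minimal resolution is the blow-up of these points, which consists of the points
`([x], ([y_S])_S)` with `[x] ∈ X_C(n)`, `[y_S] ∈ kummer n (a|S)` and `x|S` a multiple of `y_S`. -/
def HK (n : ℕ) {k : ℕ} (a : Fin k → Fin 3 → ℂ) : Type :=
  {p : PP (Fin k) × (∀ S : Mult a, PP S.1) // IsHKPoint n a p}

/-- The subspace topology. -/
instance (n : ℕ) {k : ℕ} (a : Fin k → Fin 3 → ℂ) : TopologicalSpace (HK n a) :=
  inferInstanceAs (TopologicalSpace {p : PP (Fin k) × (∀ S : Mult a, PP S.1) // IsHKPoint n a p})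

/-- A space is a `K(π,1)` if it has a contractible covering space. (Then it is path connected.)
For a connected manifold this says that the universal covering is contractible. -/
def IsKPiOne (X : Type) [TopologicalSpace X] : Prop :=
  ∃ (U : Type) (_ : TopologicalSpace U) (p : U → X),
    IsCoveringMap p ∧ Function.Surjective p ∧ ContractibleSpace U

/-- The closed unit square. -/
abbrev Square : Type := I × I

/-- `δ` maps the sides `s = 0` and `s = 1` of the square to the double point `[o]` of the lines
`A` and `B`, and the sides `x = 0` and `x = 1` to `A` and `B`. Otherwise it avoids all lines. -/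
structure IsBigon {k : ℕ} (a : Fin k → Fin 3 → ℂ) (A B : Fin k) (o : Fin 3 → ℂ)
    (δ : C(Square, Fin 3 → ℂ)) : Prop where
  double : ∀ i, fm (a i) o = 0 ↔ i = A ∨ i = B
  on_A : ∀ x s, fm (a A) (δ (x, s)) = 0 ↔ x = 0 ∨ s = 0 ∨ s = 1
  on_B : ∀ x s, fm (a B) (δ (x, s)) = 0 ↔ x = 1 ∨ s = 0 ∨ s = 1
  off : ∀ i, i ≠ A → i ≠ B → ∀ z, fm (a i) (δ z) ≠ 0

/-- For `0 < s < 1`, the square `δ` avoids the line joining `[o]` to the point of intersection of
the lines `T` and `T'`. -/
def Misses {k : ℕ} (a : Fin k → Fin 3 → ℂ) (T T' : Fin k) (o : Fin 3 → ℂ)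
    (δ : C(Square, Fin 3 → ℂ)) : Prop :=
  ∀ x s, s ≠ 0 → s ≠ 1 →
    fm (a T) (δ (x, s)) * fm (a T') o ≠ fm (a T') (δ (x, s)) * fm (a T) o

/-- The winding number of `ℓ_T / ℓ_T'` along the side `x = 0` of the square `δ` is `w`. -/
def Winds {k : ℕ} (a : Fin k → Fin 3 → ℂ) (T T' : Fin k) (δ : C(Square, Fin 3 → ℂ))
    (w : ℤ) : Prop :=
  ∃ h : C(I, ℂ), h 1 - h 0 = 2 * Real.pi * Complex.I * w ∧
    ∀ s, Complex.exp (h s) = fm (a T) (δ (0, s)) / fm (a T') (δ (0, s))

end Pool.Agent.Helper55_HK
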