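import Pool.Agent.Helper55_HK.Stair

/-! Every rigid configuration is contained in a rigid configuration whose Hirzebruch-Kummer
coverings are not aspherical. -/

open Topology
open scoped Matrix

namespace Pool.Agent.Helper55_HK

theorem fm_mulVec (g : Matrix (Fin 3) (Fin 3) ℂ) (c v : Fin 3 → ℂ) :
    fm (g.mulVec c) v = fm c (gᵀ.mulVec v) := by
  rw [fm_eq, fm_eq]
  simp only [Matrix.mulVec, dotProduct, Fin.sum_univ_three, Matrix.transpose_apply]
  ring

theorem det_transpose_ne {g : Matrix (Fin 3) (Fin 3) ℂ} (hg : g.det ≠ 0) : gᵀ.det ≠ 0 := by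
  rwa [Matrix.det_transpose]

theorem IsConfig.map {k : ℕ} {a : Fin k → Fin 3 → ℂ} (ha : IsConfig a)
    {g : Matrix (Fin 3) (Fin 3) ℂ} (hg : g.det ≠ 0) : IsConfig fun i => g.mulVec (a i) := by
  refine ⟨fun i j hij => ?_, fun v hv => ?_⟩
  · have h := ha.distinct i j hij
    rw [LinearIndependent.pair_iff] at h ⊢
    intro x y hxy
    refine h x y ?_
    rw [← Matrix.mulVec_smul, ← Matrix.mulVec_smul, ← Matrix.mulVec_add] at hxy
    rw [← inv_mulVec hg (x • a i + y • a j), hxy, Matrix.mulVec_zero]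
  · have h := ha.not_concurrent (gᵀ.mulVec v) fun i => by
      rw [← fm_mulVec]; exact hv i
    rw [← inv_mulVec (det_transpose_ne hg) v, h, Matrix.mulVec_zero]

theorem Mem.map {ι : Type} {a : ι → Fin 3 → ℂ} {u : Fin 3 → ℂ} (h : Mem a u)
    (g : Matrix (Fin 3) (Fin 3) ℂ) : Mem (fun i => g.mulVec (a i)) (g.mulVec u) := by
  obtain ⟨i, r, hr, hi⟩ := h
  exact ⟨i, r, hr, by simp only [hi, Matrix.mulVec_smul]⟩

theorem LinearBigon.map {ι : Type} {a : ι → Fin 3 → ℂ} (h : LinearBigon a)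
    {g : Matrix (Fin 3) (Fin 3) ℂ} (hg : g.det ≠ 0) : LinearBigon fun i => g.mulVec (a i) := by
  obtain ⟨A, B, o, e₁, e₂, h1, h2, h3, h4, h5, h6, h7⟩ := h
  have key : ∀ c v, fm (g.mulVec c) ((gᵀ)⁻¹.mulVec v) = fm c v := by
    intro c v
    rw [fm_mulVec, mulVec_inv (det_transpose_ne hg)]
  refine ⟨A, B, (gᵀ)⁻¹.mulVec o, (gᵀ)⁻¹.mulVec e₁, (gᵀ)⁻¹.mulVec e₂, h1, ?_⟩
  simp only [key]
  exact ⟨h2, h3, h4, h5, h6, h7⟩

/-- Every rigid configuration is contained in rigid configurations of all large sizes which have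
a linear bigon. -/
theorem exists_extension {k : ℕ} {a : Fin k → Fin 3 → ℂ} (ha : IsConfig a)
    (hr : IsRigid a) : ∃ N, ∀ m, N ≤ m → ∃ b : Fin m → Fin 3 → ℂ,
      IsConfig b ∧ IsRigid b ∧ (∀ i, Mem b (a i)) ∧ LinearBigon b := by
  obtain ⟨m₀, b₀, X, Y, Z, hD, hb₀, hr₀, hmem, m1, m2, m3, m4⟩ := hasBase ha hr
  obtain ⟨g, hX, hY, hZ, hdet⟩ := exists_matrix (u := ![1, 0, 0]) (v := ![0, 1, 0])
    (w := ![0, 0, 1]) (by simp [dt_eq]) X Y Z
  have hg : g.det ≠ 0 := by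
    intro h0
    rw [h0, zero_mul] at hdet
    exact hD hdet.symm
  have hg' : g⁻¹.det ≠ 0 := by
    rw [Matrix.det_nonsing_inv]
    simpa using hg
  have hX' : g⁻¹.mulVec X = ![1, 0, 0] := by rw [← hX, inv_mulVec hg]
  have hY' : g⁻¹.mulVec Y = ![0, 1, 0] := by rw [← hY, inv_mulVec hg]
  have hZ' : g⁻¹.mulVec Z = ![0, 0, 1] := by rw [← hZ, inv_mulVec hg]
  have hbase : Base fun i => g⁻¹.mulVec (b₀ i) := by
    refine ⟨?_, ?_, ?_, ?_⟩
    · have := m1.map g⁻¹
      rwa [hX'] at this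
    · have := m2.map g⁻¹
      rw [Matrix.mulVec_sub, hX', hZ'] at this
      convert this using 1
      funext l
      fin_cases l <;> simp
    · have := m3.map g⁻¹
      rwa [hY'] at this
    · have := m4.map g⁻¹
      rw [Matrix.mulVec_sub, hY', hZ'] at this
      convert this using 1
      funext l
      fin_cases l <;> simp
  obtain ⟨N, hN⟩ := exists_extension_of_base (hb₀.map hg') (hr₀.map hg') hbase
  refine ⟨N, fun m hm => ?_⟩
  obtain ⟨b, hb, hbr, hbm, hbl⟩ := hN m hm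
  refine ⟨fun i => g.mulVec (b i), hb.map hg, hbr.map hg, fun i => ?_, hbl.map hg⟩
  refine mem_trans (a := b₀) (fun j => ?_) (hmem i)
  have := (hbm j).map g
  rwa [mulVec_inv hg] at this

end Pool.Agent.Helper55_HK
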