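import Pool.Agent.Helper55_HK.Proj

/-! Continuous families of lines in the plane `ℂ × ℂ` over subsets of projective spaces. -/

open Topology ComplexConjugate
open scoped LinearAlgebra.Projectivization

namespace Pool.Agent.Helper55_HK

/-- The orthogonal projection of `ℂ × ℂ` to the line of `z` (zero if `z = 0`). -/
noncomputable def idem (z : ℂ × ℂ) : ℂ × ℂ →L[ℂ] ℂ × ℂ :=
  (z.1 * conj z.1 + z.2 * conj z.2)⁻¹ •
    ((conj z.1 • ContinuousLinearMap.fst ℂ ℂ ℂ + conj z.2 • ContinuousLinearMap.snd ℂ ℂ ℂ :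
      ℂ × ℂ →L[ℂ] ℂ).smulRight z)

theorem idem_apply (z v : ℂ × ℂ) :
    idem z v = ((z.1 * conj z.1 + z.2 * conj z.2)⁻¹ * (conj z.1 * v.1 + conj z.2 * v.2)) • z := by
  simp [idem, smul_smul]

theorem den_ne_zero {z : ℂ × ℂ} (hz : z ≠ 0) : z.1 * conj z.1 + z.2 * conj z.2 ≠ 0 := by
  rw [Complex.mul_conj, Complex.mul_conj]
  intro h
  have h' : Complex.normSq z.1 + Complex.normSq z.2 = 0 := by exact_mod_cast h
  have h1 := Complex.normSq_nonneg z.1
  have h2 := Complex.normSq_nonneg z.2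
  have h3 : Complex.normSq z.1 = 0 := by linarith
  have h4 : Complex.normSq z.2 = 0 := by linarith
  exact hz (Prod.ext (Complex.normSq_eq_zero.1 h3) (Complex.normSq_eq_zero.1 h4))

theorem idem_self {z : ℂ × ℂ} (hz : z ≠ 0) : idem z z = z := by
  have := den_ne_zero hz
  rw [idem_apply]
  rw [mul_comm (conj z.1), mul_comm (conj z.2), inv_mul_cancel₀ this, one_smul]

theorem idem_ne_zero {z : ℂ × ℂ} (hz : z ≠ 0) : idem z ≠ 0 := by
  intro h
  have := idem_self hz
  rw [h] at this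
  exact hz this.symm

theorem idem_idem (z v : ℂ × ℂ) : idem z (idem z v) = idem z v := by
  by_cases hz : z = 0
  · subst hz
    simp [idem_apply]
  · rw [idem_apply z v, map_smul, idem_self hz]

theorem idem_smul {c : ℂ} (hc : c ≠ 0) (z : ℂ × ℂ) : idem (c • z) = idem z := by
  by_cases hz : z = 0
  · subst hz
    simp
  have h1 := den_ne_zero hz
  have hc' : conj c ≠ 0 := (map_ne_zero _).2 hc
  refine ContinuousLinearMap.ext fun v => ?_
  rw [idem_apply, idem_apply, smul_smul]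
  congr 1
  have h2 : (c • z).1 * conj (c • z).1 + (c • z).2 * conj (c • z).2 =
      (c * conj c) * (z.1 * conj z.1 + z.2 * conj z.2) := by
    simp only [Prod.smul_fst, Prod.smul_snd, smul_eq_mul, map_mul]
    ring
  rw [h2]
  simp only [Prod.smul_fst, Prod.smul_snd, smul_eq_mul, map_mul]
  field_simp

theorem parallel_of_idem {z v : ℂ × ℂ} (h : idem z v = v) : v.1 * z.2 = v.2 * z.1 := by
  rw [idem_apply] at h
  rw [← h]
  simp only [Prod.smul_fst, Prod.smul_snd, smul_eq_mul]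
  ring

theorem idem_eq_of_parallel {z w : ℂ × ℂ} (hz : z ≠ 0) (hw : w ≠ 0)
    (h : z.1 * w.2 = z.2 * w.1) : idem z = idem w := by
  by_cases hw1 : w.1 = 0
  · have hw2 : w.2 ≠ 0 := fun h2 => hw (Prod.ext hw1 h2)
    have hz1 : z.1 = 0 := by
      rw [hw1, mul_zero] at h
      exact (mul_eq_zero.1 h).resolve_right hw2
    have hz2 : z.2 ≠ 0 := fun h2 => hz (Prod.ext hz1 h2)
    have : z = (z.2 / w.2) • w := by
      refine Prod.ext ?_ ?_
      · simp [hz1, hw1]
      · simp [hw2]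
    rw [this, idem_smul (div_ne_zero hz2 hw2)]
  · have hz1 : z.1 ≠ 0 := by
      intro h1
      rw [h1, zero_mul] at h
      exact hz (Prod.ext h1 ((mul_eq_zero.1 h.symm).resolve_right hw1))
    have : z = (z.1 / w.1) • w := by
      refine Prod.ext ?_ ?_
      · simp [hw1]
      · simp only [Prod.smul_snd, smul_eq_mul]
        field_simp
        linear_combination -h
    rw [this, idem_smul (div_ne_zero hz1 hw1)]

theorem continuousAt_idem {z : ℂ × ℂ} (hz : z ≠ 0) : ContinuousAt idem z := by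
  have hc := Complex.continuous_conj
  have h1 : Continuous (fun z : ℂ × ℂ => z.1 * conj z.1 + z.2 * conj z.2) := by fun_prop
  have h2 : Continuous (fun z : ℂ × ℂ =>
      (conj z.1 • ContinuousLinearMap.fst ℂ ℂ ℂ + conj z.2 • ContinuousLinearMap.snd ℂ ℂ ℂ :
        ℂ × ℂ →L[ℂ] ℂ).smulRight z) := by
    refine continuous_clm_apply.2 fun v => ?_
    have h3 : (fun z : ℂ × ℂ => (conj z.1 • ContinuousLinearMap.fst ℂ ℂ ℂ +
        conj z.2 • ContinuousLinearMap.snd ℂ ℂ ℂ : ℂ × ℂ →L[ℂ] ℂ).smulRight z v) =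
        fun z : ℂ × ℂ => (conj z.1 * v.1 + conj z.2 * v.2) • z := by
      funext z
      simp
    rw [h3]
    fun_prop
  exact (h1.continuousAt.inv₀ (den_ne_zero hz)).smul h2.continuousAt

variable {ι : Type}

theorem idem_rep {f : (ι → ℂ) → ℂ × ℂ} {d : ℕ} (hf : ∀ (c : ℂ) x, f (c • x) = c ^ d • f x)
    (x : ι → ℂ) (hx : x ≠ 0) :
    idem (f (Projectivization.mk ℂ x hx).rep) = idem (f x) := by
  obtain ⟨c, hc⟩ := Projectivization.exists_smul_eq_mk_rep ℂ x hx
  rw [← hc]
  have : (c • x : ι → ℂ) = (c : ℂ) • x := rfl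
  rw [this, hf, idem_smul (pow_ne_zero _ c.ne_zero)]

theorem continuousAt_idem_rep {f : (ι → ℂ) → ℂ × ℂ} (hfc : Continuous f) {d : ℕ}
    (hf : ∀ (c : ℂ) x, f (c • x) = c ^ d • f x) (P : ℙ ℂ (ι → ℂ)) (hP : f P.rep ≠ 0) :
    ContinuousAt (fun Q : ℙ ℂ (ι → ℂ) => idem (f Q.rep)) P := by
  have h1 : ContinuousAt (fun Q : ℙ ℂ (ι → ℂ) => idem (f Q.rep))
      (Projectivization.mk ℂ P.rep P.rep_nonzero) := by
    refine continuousAt_of_comp_mk P.rep_nonzero ?_
    simp only [idem_rep hf]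
    refine ContinuousAt.comp (g := idem) (f := fun w : {v : ι → ℂ // v ≠ 0} => f w.1) ?_ ?_
    · exact continuousAt_idem hP
    · exact (hfc.comp continuous_subtype_val).continuousAt
  rwa [P.mk_rep] at h1

end Pool.Agent.Helper55_HK
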