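import Pool.Agent.Helper55_HK.Bigon

/-! A linear criterion for the existence of bigons. -/

open Topology unitInterval
open scoped Matrix

namespace Pool.Agent.Helper55_HK

/-- The two real points `e₁` of `A` and `e₂` of `B` separate the other lines in the same way:
the real parts of the positions of the `i`-th line on `A` and `B` have the same sign, and both
signs occur. -/
def LinearBigon {ι : Type} (a : ι → Fin 3 → ℂ) : Prop :=
  ∃ (A B : ι) (o e₁ e₂ : Fin 3 → ℂ), A ≠ B ∧ (∀ i, fm (a i) o = 0 ↔ i = A ∨ i = B) ∧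
    fm (a A) e₁ = 0 ∧ fm (a B) e₂ = 0 ∧
    (∀ i, i ≠ A → i ≠ B → 0 < (fm (a i) e₁ / fm (a i) o).re * (fm (a i) e₂ / fm (a i) o).re) ∧
    (∃ i, i ≠ A ∧ i ≠ B ∧ 0 < (fm (a i) e₁ / fm (a i) o).re) ∧
    (∃ i, i ≠ A ∧ i ≠ B ∧ (fm (a i) e₁ / fm (a i) o).re < 0)

theorem fm_smul_right (c v : Fin 3 → ℂ) (r : ℂ) : fm c (r • v) = r * fm c v := by
  rw [fm, dotProduct_smul, smul_eq_mul]

theorem bigon_re_pos {r : ℝ} {p : ℂ} (hr0 : 0 ≤ r) (hr1 : r ≤ 1)
    (hp : 0 < p.re) : (r * (1 - r) : ℂ) * p + Complex.I * (2 * r - 1) ∈ Complex.slitPlane := by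
  rw [Complex.mem_slitPlane_iff]
  by_cases h : 0 < r * (1 - r)
  · left
    have : ((r * (1 - r) : ℂ) * p + Complex.I * (2 * r - 1)).re = r * (1 - r) * p.re := by
      simp
    rw [this]
    positivity
  · right
    have h1 : r * (1 - r) = 0 := le_antisymm (not_lt.1 h) (mul_nonneg hr0 (by linarith))
    have : ((r * (1 - r) : ℂ) * p + Complex.I * (2 * r - 1)).im = r * (1 - r) * p.im +
        (2 * r - 1) := by
      simp
    rw [this, h1]
    rcases mul_eq_zero.1 h1 with h2 | h2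
    · rw [h2]; norm_num
    · have : r = 1 := by linarith
      rw [this]; norm_num

theorem bigon_ne_zero {r : ℝ} {p : ℂ} (hp : p.re ≠ 0) : (r * (1 - r) : ℂ) * p + Complex.I * (2 * r - 1) ≠ 0 := by
  intro h
  have hre : r * (1 - r) * p.re = 0 := by
    have := congrArg Complex.re h
    simpa using this
  have him : r * (1 - r) * p.im + (2 * r - 1) = 0 := by
    have := congrArg Complex.im h
    simpa using this
  rcases mul_eq_zero.1 hre with h1 | h1
  · rw [h1] at him
    rcases mul_eq_zero.1 h1 with h2 | h2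
    · rw [h2] at him; norm_num at him
    · have : r = 1 := by linarith
      rw [this] at him; norm_num at him
  · exact hp h1

/-- The Hirzebruch-Kummer covering of a configuration with a linear bigon is not a `K(π,1)`. -/
theorem not_isKPiOne_of_linearBigon {n : ℕ} (hn : 2 ≤ n) {k : ℕ} {a : Fin k → Fin 3 → ℂ}
    (ha : IsConfig a) (H : LinearBigon a) : ¬ IsKPiOne (HK n a) := by
  obtain ⟨A, B, o, e₁, e₂, hAB, hdouble, h1A, h2B, hsgn, ⟨T, hTA, hTB, hT⟩, ⟨T', hT'A, hT'B, hT'⟩⟩ := H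
  have hne : ∀ i, i ≠ A → i ≠ B → fm (a i) o ≠ 0 := fun i hA hB h => by
    rcases (hdouble i).1 h with h' | h'
    · exact hA h'
    · exact hB h'
  have hTo := hne T hTA hTB
  have hT'o := hne T' hT'A hT'B
  have hAo : fm (a A) o = 0 := (hdouble A).2 (Or.inl rfl)
  have hBo : fm (a B) o = 0 := (hdouble B).2 (Or.inr rfl)
  have ho : o ≠ 0 := by
    rintro rfl
    exact hTo (dotProduct_zero _)
  -- the signs of the convex combinations
  have hconv : ∀ i, i ≠ A → i ≠ B → ∀ x : ℝ, 0 ≤ x → x ≤ 1 →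
      (0 < (fm (a i) e₁ / fm (a i) o).re →
        0 < ((1 - x) * (fm (a i) e₁ / fm (a i) o) + x * (fm (a i) e₂ / fm (a i) o) : ℂ).re) ∧
      ((fm (a i) e₁ / fm (a i) o).re < 0 →
        ((1 - x) * (fm (a i) e₁ / fm (a i) o) + x * (fm (a i) e₂ / fm (a i) o) : ℂ).re < 0) := by
    intro i hA hB x hx0 hx1
    have h := hsgn i hA hB
    set p := fm (a i) e₁ / fm (a i) o
    set q := fm (a i) e₂ / fm (a i) o
    have hre : ((1 - x) * p + x * q : ℂ).re = (1 - x) * p.re + x * q.re := by simp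
    rw [hre]
    constructor
    · intro hp
      have hq : 0 < q.re := (mul_pos_iff_of_pos_left hp).1 h
      rcases hx0.eq_or_lt with h0 | h0
      · rw [← h0]; simpa using hp
      · have : 0 ≤ (1 - x) * p.re := mul_nonneg (by linarith) hp.le
        have := mul_pos h0 hq
        linarith
    · intro hp
      have hq : q.re < 0 := by
        rcases mul_pos_iff.1 h with h' | h'
        · exact absurd h'.1 (not_lt.2 hp.le)
        · exact h'.2
      rcases hx0.eq_or_lt with h0 | h0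
      · rw [← h0]; simpa using hp
      · have : (1 - x) * p.re ≤ 0 := mul_nonpos_of_nonneg_of_nonpos (by linarith) hp.le
        have := mul_neg_of_pos_of_neg h0 hq
        linarith
  have hne0 : ∀ i, i ≠ A → i ≠ B → (fm (a i) e₁ / fm (a i) o).re ≠ 0 := by
    intro i hA hB h0
    have := hsgn i hA hB
    rw [h0, zero_mul] at this
    exact lt_irrefl _ this
  have hlin := ha.distinct A B hAB
  -- the points `e₁`, `e₂` are not `o`
  have hBe : fm (a B) e₁ ≠ 0 := by
    intro h0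
    obtain ⟨c, hc⟩ := exists_smul_of_zero hlin ho hAo hBo h1A h0
    rw [hc] at hT hT'
    rw [fm_smul_right, mul_div_assoc, div_self hTo, mul_one] at hT
    rw [fm_smul_right, mul_div_assoc, div_self hT'o, mul_one] at hT'
    exact lt_asymm hT hT'
  have hAe : fm (a A) e₂ ≠ 0 := by
    intro h0
    obtain ⟨c, hc⟩ := exists_smul_of_zero hlin ho hAo hBo h0 h2B
    have g1 := hsgn T hTA hTB
    have g2 := hsgn T' hT'A hT'B
    rw [hc, fm_smul_right, mul_div_assoc, div_self hTo, mul_one] at g1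
    rw [hc, fm_smul_right, mul_div_assoc, div_self hT'o, mul_one] at g2
    have g3 := (mul_pos_iff_of_pos_left hT).1 g1
    nlinarith
  -- the bigon
  let δ : C(Square, Fin 3 → ℂ) := ⟨fun z => ((z.2 : ℝ) * (1 - (z.2 : ℝ)) : ℂ) •
    ((1 - (z.1 : ℝ) : ℂ) • e₁ + ((z.1 : ℝ) : ℂ) • e₂) +
      (Complex.I * (2 * (z.2 : ℝ) - 1)) • o, by fun_prop⟩
  have hδ : ∀ (c : Fin 3 → ℂ) (x s : I), fm c (δ (x, s)) = ((s : ℝ) * (1 - (s : ℝ)) : ℂ) *
      ((1 - (x : ℝ)) * fm c e₁ + (x : ℝ) * fm c e₂) + Complex.I * (2 * (s : ℝ) - 1) * fm c o := by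
    intro c x s
    simp only [δ, ContinuousMap.coe_mk, fm, dotProduct_add, dotProduct_smul, smul_eq_mul]
  have hδ' : ∀ i, i ≠ A → i ≠ B → ∀ (x s : I), fm (a i) (δ (x, s)) = fm (a i) o *
      (((s : ℝ) * (1 - (s : ℝ)) : ℂ) * ((1 - (x : ℝ)) * (fm (a i) e₁ / fm (a i) o) +
        (x : ℝ) * (fm (a i) e₂ / fm (a i) o)) + Complex.I * (2 * (s : ℝ) - 1)) := by
    intro i hA hB x s
    have := hne i hA hB
    rw [hδ]
    field_simp
  have hoff : ∀ i, i ≠ A → i ≠ B → ∀ z, fm (a i) (δ z) ≠ 0 := by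
    rintro i hA hB ⟨x, s⟩
    rw [hδ' i hA hB]
    refine mul_ne_zero (hne i hA hB) (bigon_ne_zero ?_)
    rcases lt_or_gt_of_ne (hne0 i hA hB) with h | h
    · exact ((hconv i hA hB x x.2.1 x.2.2).2 h).ne
    · exact ((hconv i hA hB x x.2.1 x.2.2).1 h).ne'
  have hI : ∀ s : I, ((s : ℝ) * (1 - (s : ℝ)) : ℂ) = 0 ↔ s = 0 ∨ s = 1 := by
    intro s
    rw [mul_eq_zero, sub_eq_zero]
    refine or_congr ⟨fun h => ?_, fun h => ?_⟩ ⟨fun h => ?_, fun h => ?_⟩
    · exact Subtype.ext (by exact_mod_cast h)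
    · rw [h]; simp
    · exact Subtype.ext (by exact_mod_cast h.symm)
    · rw [h]; simp
  have hbig : IsBigon a A B o δ := by
    refine ⟨hdouble, fun x s => ?_, fun x s => ?_, hoff⟩
    · rw [hδ, h1A, hAo, mul_zero, mul_zero, zero_add, add_zero, mul_eq_zero, hI, mul_eq_zero,
        or_iff_left hAe, or_comm]
      refine or_congr ⟨fun h => Subtype.ext (by exact_mod_cast h), fun h => by rw [h]; simp⟩
        Iff.rfl
    · rw [hδ, h2B, hBo, mul_zero, mul_zero, add_zero, add_zero, mul_eq_zero, hI, mul_eq_zero,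
        or_iff_left hBe, or_comm, sub_eq_zero]
      refine or_congr ⟨fun h => Subtype.ext (by exact_mod_cast h.symm),
        fun h => by rw [h]; simp⟩ Iff.rfl
  have hmiss : Misses a T T' o δ := by
    intro x s hs hs1 heq
    rw [hδ' T hTA hTB, hδ' T' hT'A hT'B] at heq
    have heq2 := mul_left_cancel₀ (mul_ne_zero hTo hT'o) (a := fm (a T) o * fm (a T') o)
      (b := ((s : ℝ) * (1 - (s : ℝ)) : ℂ) * ((1 - (x : ℝ)) * (fm (a T) e₁ / fm (a T) o) +
        (x : ℝ) * (fm (a T) e₂ / fm (a T) o)) + Complex.I * (2 * (s : ℝ) - 1))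
      (c := ((s : ℝ) * (1 - (s : ℝ)) : ℂ) * ((1 - (x : ℝ)) * (fm (a T') e₁ / fm (a T') o) +
        (x : ℝ) * (fm (a T') e₂ / fm (a T') o)) + Complex.I * (2 * (s : ℝ) - 1))
      (by linear_combination heq)
    have hs' : ((s : ℝ) * (1 - (s : ℝ)) : ℂ) ≠ 0 := fun h => by
      rcases (hI s).1 h with h' | h'
      · exact hs h'
      · exact hs1 h'
    have heq3 := mul_left_cancel₀ hs' (add_right_cancel heq2)
    have g1 := (hconv T hTA hTB x x.2.1 x.2.2).1 hT
    have g2 := (hconv T' hT'A hT'B x x.2.1 x.2.2).2 hT'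
    rw [heq3] at g1
    exact lt_asymm g1 g2
  refine not_isKPiOne_of_bigon hn ha hbig hmiss (w := 1) ?_ ?_
  · -- the winding number
    set p := fm (a T) e₁ / fm (a T) o with hp
    set p' := fm (a T') e₁ / fm (a T') o with hp'
    have hslit : ∀ s : I, ((s : ℝ) * (1 - (s : ℝ)) : ℂ) * p + Complex.I * (2 * (s : ℝ) - 1) ∈
        Complex.slitPlane := fun s => bigon_re_pos s.2.1 s.2.2 hT
    have hslit' : ∀ s : I, -(((s : ℝ) * (1 - (s : ℝ)) : ℂ) * p' +
        Complex.I * (2 * (s : ℝ) - 1)) ∈ Complex.slitPlane := fun s => by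
      have h1 : (0 : ℝ) ≤ 1 - (s : ℝ) := by linarith [s.2.2]
      have h2 : (1 : ℝ) - (s : ℝ) ≤ 1 := by linarith [s.2.1]
      have h3 := bigon_re_pos (p := -p') h1 h2 (by rw [Complex.neg_re]; linarith)
      convert h3 using 1
      push_cast
      ring
    let h : C(I, ℂ) := ⟨fun s => Complex.log (((s : ℝ) * (1 - (s : ℝ)) : ℂ) * p +
      Complex.I * (2 * (s : ℝ) - 1)) - Complex.log (-(((s : ℝ) * (1 - (s : ℝ)) : ℂ) * p' +
        Complex.I * (2 * (s : ℝ) - 1))) + Complex.log (-(fm (a T) o / fm (a T') o)), by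
      refine Continuous.add (Continuous.sub ?_ ?_) continuous_const
      · exact Continuous.clog (by fun_prop) hslit
      · exact Continuous.clog (by fun_prop) hslit'⟩
    refine ⟨h, ?_, fun s => ?_⟩
    · simp only [h, ContinuousMap.coe_mk]
      have e1 : Complex.log Complex.I = Real.pi / 2 * Complex.I := Complex.log_I
      have e2 : Complex.log (-Complex.I) = -(Real.pi / 2) * Complex.I := Complex.log_neg_I
      have f1 : (((1 : I) : ℝ) * (1 - ((1 : I) : ℝ)) : ℂ) * p +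
        Complex.I * (2 * ((1 : I) : ℝ) - 1) = Complex.I := by simp; ring
      have f2 : (((0 : I) : ℝ) * (1 - ((0 : I) : ℝ)) : ℂ) * p +
        Complex.I * (2 * ((0 : I) : ℝ) - 1) = -Complex.I := by simp
      have f3 : -((((1 : I) : ℝ) * (1 - ((1 : I) : ℝ)) : ℂ) * p' +
        Complex.I * (2 * ((1 : I) : ℝ) - 1)) = -Complex.I := by simp; ring
      have f4 : -((((0 : I) : ℝ) * (1 - ((0 : I) : ℝ)) : ℂ) * p' +
        Complex.I * (2 * ((0 : I) : ℝ) - 1)) = Complex.I := by simp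
      rw [f1, f2, f3, f4, e1, e2]
      push_cast
      ring
    · simp only [h, ContinuousMap.coe_mk]
      have hK : -(fm (a T) o / fm (a T') o) ≠ 0 := neg_ne_zero.2 (div_ne_zero hTo hT'o)
      rw [Complex.exp_add, Complex.exp_sub, Complex.exp_log (Complex.slitPlane_ne_zero (hslit s)),
        Complex.exp_log (Complex.slitPlane_ne_zero (hslit' s)), Complex.exp_log hK,
        hδ' T hTA hTB, hδ' T' hT'A hT'B]
      have hz : (((0 : I) : ℝ) : ℂ) = 0 := by simp
      rw [hz, sub_zero, one_mul, zero_mul, add_zero, one_mul, zero_mul, add_zero, ← hp, ← hp']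
      have g1 := Complex.slitPlane_ne_zero (hslit' s)
      have g2 := neg_ne_zero.1 g1
      field_simp
  · intro hdvd
    have := Int.le_of_dvd one_pos hdvd
    omega

end Pool.Agent.Helper55_HK
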