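import Pool.Agent.Helper55_HK.Defs

/-! Topology of projective spaces. -/

open scoped LinearAlgebra.Projectivization Matrix
open Topology

namespace Pool.Agent.Helper55_HK

section
variable {V : Type*} [AddCommGroup V] [Module ℂ V] [TopologicalSpace V]

theorem continuous_mk0 :
    Continuous (fun v : {v : V // v ≠ 0} => Projectivization.mk ℂ v.1 v.2) :=
  continuous_quot_mk

theorem continuous_mk {Z : Type*} [TopologicalSpace Z] {f : Z → V} (hf : Continuous f)
    (h0 : ∀ z, f z ≠ 0) : Continuous (fun z => Projectivization.mk ℂ (f z) (h0 z)) :=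
  continuous_mk0.comp (Continuous.subtype_mk hf h0)

theorem isQuotientMap_mk0 :
    IsQuotientMap (fun v : {v : V // v ≠ 0} => Projectivization.mk ℂ v.1 v.2) :=
  isQuotientMap_quot_mk

theorem isOpenMap_mk0 [ContinuousConstSMul ℂ V] :
    IsOpenMap (fun v : {v : V // v ≠ 0} => Projectivization.mk ℂ v.1 v.2) := by
  intro W hW
  rw [← isQuotientMap_mk0.isOpen_preimage]
  have : (fun v : {v : V // v ≠ 0} => Projectivization.mk ℂ v.1 v.2) ⁻¹'
      ((fun v : {v : V // v ≠ 0} => Projectivization.mk ℂ v.1 v.2) '' W) =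
      ⋃ c : ℂˣ, (fun v : {v : V // v ≠ 0} => (⟨(c : ℂ) • v.1, smul_ne_zero c.ne_zero v.2⟩ :
        {v : V // v ≠ 0})) ⁻¹' W := by
    ext v
    simp only [Set.mem_preimage, Set.mem_image, Set.mem_iUnion]
    constructor
    · rintro ⟨w, hw, h⟩
      rw [Projectivization.mk_eq_mk_iff'] at h
      obtain ⟨c, hc⟩ := h
      have hc0 : c ≠ 0 := by
        rintro rfl
        exact w.2 (by simpa using hc.symm)
      refine ⟨Units.mk0 c hc0, ?_⟩
      convert! hw
    · rintro ⟨c, hc⟩
      refine ⟨_, hc, ?_⟩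
      rw [Projectivization.mk_eq_mk_iff']
      exact ⟨c, rfl⟩
  rw [this]
  refine isOpen_iUnion fun c => hW.preimage ?_
  exact Continuous.subtype_mk (continuous_subtype_val.const_smul (c : ℂ)) _

/-- Continuity at a point of a function on the projective space. -/
theorem continuousAt_of_comp_mk [ContinuousConstSMul ℂ V] {Y : Type*} [TopologicalSpace Y]
    {F : ℙ ℂ V → Y} {v : V} (hv : v ≠ 0)
    (h : ContinuousAt (fun w : {v : V // v ≠ 0} => F (Projectivization.mk ℂ w.1 w.2)) ⟨v, hv⟩) :
    ContinuousAt F (Projectivization.mk ℂ v hv) := by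
  intro N hN
  have h1 := h hN
  have h2 := isOpenMap_mk0.image_mem_nhds h1
  rw [Filter.mem_map]
  refine Filter.mem_of_superset h2 ?_
  rintro _ ⟨w, hw, rfl⟩
  exact hw

end

end Pool.Agent.Helper55_HK
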