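import Pool.Agent.Helper55_HK.Rigid

/-! Rigid configurations of lines: adding lines, four general lines, deformations. -/

open Topology
open scoped Matrix

namespace Pool.Agent.Helper55_HK

theorem IsConfig.ne_zero {k : ℕ} {a : Fin k → Fin 3 → ℂ} (ha : IsConfig a) (i : Fin k) :
    a i ≠ 0 := by
  intro h0
  by_cases h : ∃ j, i ≠ j
  · obtain ⟨j, hj⟩ := h
    exact (ha.distinct i j hj).ne_zero 0 h0
  · push Not at h
    have h1 := ha.not_concurrent (fun _ => 1) fun j => by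
      rw [← h j, h0]
      simp [fm]
    exact one_ne_zero (congrFun h1 0)

theorem mem_of_not_linearIndependent {u v : Fin 3 → ℂ} (hu : u ≠ 0) (hv : v ≠ 0)
    (h : ¬ LinearIndependent ℂ ![u, v]) : ∃ r : ℂ, r ≠ 0 ∧ u = r • v := by
  rw [LinearIndependent.pair_iff' hu] at h
  push Not at h
  obtain ⟨r, hr⟩ := h
  have hr0 : r ≠ 0 := by
    rintro rfl
    exact hv (by rw [← hr, zero_smul])
  exact ⟨r⁻¹, inv_ne_zero hr0, by rw [← hr, smul_smul, inv_mul_cancel₀ hr0, one_smul]⟩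

theorem isConfig_snoc {m : ℕ} {b : Fin m → Fin 3 → ℂ} (hb : IsConfig b) {c : Fin 3 → ℂ}
    (hc : c ≠ 0) (hnot : ¬ Mem b c) :
    IsConfig (Fin.snoc (α := fun _ => Fin 3 → ℂ) b c) := by
  have key : ∀ i, LinearIndependent ℂ ![b i, c] := by
    intro i
    by_contra h
    obtain ⟨r, hr, h1⟩ := mem_of_not_linearIndependent (hb.ne_zero i) hc h
    exact hnot ⟨i, r, hr, h1⟩
  refine ⟨fun i j => ?_, fun v hv => ?_⟩
  · refine Fin.lastCases ?_ (fun i => ?_) i <;> refine Fin.lastCases ?_ (fun j => ?_) j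
    · intro h; exact absurd rfl h
    · intro _
      rw [Fin.snoc_last, Fin.snoc_castSucc, LinearIndependent.pair_symm_iff]
      exact key j
    · intro _
      rw [Fin.snoc_last, Fin.snoc_castSucc]
      exact key i
    · intro h
      rw [Fin.snoc_castSucc, Fin.snoc_castSucc]
      exact hb.distinct i j fun h' => h (by rw [h'])
  · refine hb.not_concurrent v fun i => ?_
    have := hv (Fin.castSucc i)
    rwa [Fin.snoc_castSucc] at this

theorem mem_snoc_of_mem {m : ℕ} {b : Fin m → Fin 3 → ℂ} {c u : Fin 3 → ℂ} (h : Mem b u) :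
    Mem (Fin.snoc (α := fun _ => Fin 3 → ℂ) b c) u := by
  obtain ⟨i, r, hr, h1⟩ := h
  exact ⟨Fin.castSucc i, r, hr, by rw [Fin.snoc_castSucc]; exact h1⟩

theorem mem_snoc_self {m : ℕ} {b : Fin m → Fin 3 → ℂ} {c : Fin 3 → ℂ} :
    Mem (Fin.snoc (α := fun _ => Fin 3 → ℂ) b c) c :=
  ⟨Fin.last m, 1, one_ne_zero, by rw [Fin.snoc_last, one_smul]⟩

theorem isRigid_snoc {m : ℕ} {b : Fin m → Fin 3 → ℂ} (hr : IsRigid b)
    {u u' w w' c : Fin 3 → ℂ} (hu : Mem b u) (hu' : Mem b u') (hw : Mem b w) (hw' : Mem b w')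
    (hc : c ≠ 0) (h1 : dt u u' c = 0) (h2 : dt w w' c = 0)
    (h3 : LinearIndependent ℂ ![crossProduct u u', crossProduct w w']) :
    IsRigid (Fin.snoc (α := fun _ => Fin 3 → ℂ) b c) := by
  obtain ⟨i, r, hr0, hi⟩ := hu
  obtain ⟨i', r', hr0', hi'⟩ := hu'
  obtain ⟨l, s, hs0, hl⟩ := hw
  obtain ⟨l', s', hs0', hl'⟩ := hw'
  refine IsRigid.extend Fin.castSucc _ ?_ fun j hj => ?_
  · have : (Fin.snoc (α := fun _ => Fin 3 → ℂ) b c) ∘ Fin.castSucc = b := by
      funext i
      exact Fin.snoc_castSucc (α := fun _ => Fin 3 → ℂ) c b i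
    rw [this]
    exact hr
  · have hj' : j = Fin.last m := by
      refine Fin.lastCases (motive := fun j => j ∉ Set.range Fin.castSucc → j = Fin.last m)
        (fun _ => rfl) (fun i hi => absurd ⟨i, rfl⟩ hi) j hj
    subst hj'
    refine ⟨by rw [Fin.snoc_last]; exact hc, i, i', l, l', ?_, ?_, ?_⟩
    · rw [Fin.snoc_last, Fin.snoc_castSucc, Fin.snoc_castSucc, hi, hi', dt_smul_left,
        dt_smul_mid, h1, mul_zero, mul_zero]
    · rw [Fin.snoc_last, Fin.snoc_castSucc, Fin.snoc_castSucc, hl, hl', dt_smul_left,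
        dt_smul_mid, h2, mul_zero, mul_zero]
    · rw [Fin.snoc_castSucc, Fin.snoc_castSucc, Fin.snoc_castSucc, Fin.snoc_castSucc, hi, hi',
        hl, hl']
      have e1 : crossProduct (r • u) (r' • u') = (r * r') • crossProduct u u' := by
        simp only [map_smul, LinearMap.smul_apply, smul_smul, mul_comm r]
      have e2 : crossProduct (s • w) (s' • w') = (s * s') • crossProduct w w' := by
        simp only [map_smul, LinearMap.smul_apply, smul_smul, mul_comm s]
      rw [e1, e2]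
      rw [LinearIndependent.pair_iff] at h3 ⊢
      intro x y hxy
      rw [smul_smul, smul_smul] at hxy
      obtain ⟨h4, h5⟩ := h3 _ _ hxy
      exact ⟨(mul_eq_zero.1 h4).resolve_right (mul_ne_zero hr0 hr0'),
        (mul_eq_zero.1 h5).resolve_right (mul_ne_zero hs0 hs0')⟩

/-- Coordinates with respect to three independent vectors. -/
theorem exists_coords {u v w : Fin 3 → ℂ} (h : dt u v w ≠ 0) (c : Fin 3 → ℂ) :
    ∃ x y z : ℂ, c = x • u + y • v + z • w := by
  refine ⟨dt c v w / dt u v w, dt u c w / dt u v w, dt u v c / dt u v w, ?_⟩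
  funext i
  simp only [Pi.add_apply, Pi.smul_apply, smul_eq_mul]
  rw [div_mul_eq_mul_div, div_mul_eq_mul_div, div_mul_eq_mul_div, ← add_div, ← add_div,
    eq_div_iff h]
  simp only [dt_eq]
  fin_cases i <;> simp <;> ring

/-- Four lines in general position. -/
def General (u₁ u₂ u₃ u₄ : Fin 3 → ℂ) : Prop :=
  dt u₁ u₂ u₃ ≠ 0 ∧ dt u₁ u₂ u₄ ≠ 0 ∧ dt u₁ u₃ u₄ ≠ 0 ∧ dt u₂ u₃ u₄ ≠ 0

/-- Four vectors in general position: the fourth is a combination of the others with non-zero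
coefficients. -/
theorem General.exists_coords {u₁ u₂ u₃ u₄ : Fin 3 → ℂ} (h : General u₁ u₂ u₃ u₄) :
    ∃ x y z : ℂ, x ≠ 0 ∧ y ≠ 0 ∧ z ≠ 0 ∧ u₄ = x • u₁ + y • u₂ + z • u₃ := by
  obtain ⟨h1, h2, h3, h4⟩ := h
  obtain ⟨x, y, z, hxyz⟩ := Pool.Agent.Helper55_HK.exists_coords h1 u₄
  refine ⟨x, y, z, ?_, ?_, ?_, hxyz⟩
  · rintro rfl
    refine h4 ?_
    rw [hxyz]
    simp only [dt_eq, Pi.add_apply, Pi.smul_apply, smul_eq_mul]
    ring
  · rintro rfl
    refine h3 ?_
    rw [hxyz]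
    simp only [dt_eq, Pi.add_apply, Pi.smul_apply, smul_eq_mul]
    ring
  · rintro rfl
    refine h2 ?_
    rw [hxyz]
    simp only [dt_eq, Pi.add_apply, Pi.smul_apply, smul_eq_mul]
    ring

/-- A linear map with given values on three independent vectors. -/
theorem exists_matrix {u v w : Fin 3 → ℂ} (h : dt u v w ≠ 0) (u' v' w' : Fin 3 → ℂ) :
    ∃ g : Matrix (Fin 3) (Fin 3) ℂ, g.mulVec u = u' ∧ g.mulVec v = v' ∧ g.mulVec w = w' ∧
      g.det * dt u v w = dt u' v' w' := by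
  have hunit : IsUnit (Matrix.of ![u, v, w]).det := isUnit_iff_ne_zero.2 h
  let M := (Matrix.of ![u, v, w])ᵀ
  let M' := (Matrix.of ![u', v', w'])ᵀ
  have hM : IsUnit M.det := by rw [Matrix.det_transpose]; exact hunit
  have e1 : ∀ i, (M' * M⁻¹).mulVec (M.mulVec (Pi.single i 1)) = M'.mulVec (Pi.single i 1) := by
    intro i
    rw [Matrix.mulVec_mulVec, Matrix.mul_assoc, Matrix.nonsing_inv_mul _ hM, Matrix.mul_one]
  have e2 : ∀ (x y z : Fin 3 → ℂ) (i : Fin 3), ((Matrix.of ![x, y, z])ᵀ).mulVec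
      (Pi.single i 1) = ![x, y, z] i := by
    intro x y z i
    rw [Matrix.mulVec_single_one]
    rfl
  refine ⟨M' * M⁻¹, ?_, ?_, ?_, ?_⟩
  · have := e1 0
    rwa [e2, e2] at this
  · have := e1 1
    rwa [e2, e2] at this
  · have := e1 2
    rwa [e2, e2] at this
  · have h1 : M.det = dt u v w := by rw [Matrix.det_transpose]; rfl
    have h2 : M'.det = dt u' v' w' := by rw [Matrix.det_transpose]; rfl
    rw [Matrix.det_mul, Matrix.det_nonsing_inv, h1, h2, mul_assoc, Ring.inverse_mul_cancel _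
      (isUnit_iff_ne_zero.2 h), mul_one]

/-- Any two quadruples of lines in general position are projectively equivalent. -/
theorem exists_matrix_four {u₁ u₂ u₃ u₄ v₁ v₂ v₃ v₄ : Fin 3 → ℂ} (hu : General u₁ u₂ u₃ u₄)
    (hv : General v₁ v₂ v₃ v₄) : ∃ g : Matrix (Fin 3) (Fin 3) ℂ, g.det ≠ 0 ∧
      (∃ c : ℂ, c ≠ 0 ∧ v₁ = c • g.mulVec u₁) ∧ (∃ c : ℂ, c ≠ 0 ∧ v₂ = c • g.mulVec u₂) ∧
      (∃ c : ℂ, c ≠ 0 ∧ v₃ = c • g.mulVec u₃) ∧ v₄ = g.mulVec u₄ := by
  obtain ⟨x, y, z, hx, hy, hz, hxyz⟩ := hu.exists_coords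
  obtain ⟨x', y', z', hx', hy', hz', hxyz'⟩ := hv.exists_coords
  obtain ⟨g, h1, h2, h3, h4⟩ := exists_matrix hu.1 ((x' / x) • v₁) ((y' / y) • v₂)
    ((z' / z) • v₃)
  have hsc : ∀ (s t : ℂ) (v : Fin 3 → ℂ), s ≠ 0 → t ≠ 0 → ∃ c : ℂ, c ≠ 0 ∧
      v = c • ((t / s) • v) := by
    intro s t v hs ht
    refine ⟨s / t, div_ne_zero hs ht, ?_⟩
    rw [smul_smul]
    have : s / t * (t / s) = 1 := by field_simp
    rw [this, one_smul]
  refine ⟨g, ?_, ?_, ?_, ?_, ?_⟩
  · intro h0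
    rw [h0, zero_mul, dt_smul_left, dt_smul_mid, dt_smul_right] at h4
    have : x' / x * (y' / y * (z' / z * dt v₁ v₂ v₃)) ≠ 0 :=
      mul_ne_zero (div_ne_zero hx' hx) (mul_ne_zero (div_ne_zero hy' hy)
        (mul_ne_zero (div_ne_zero hz' hz) hv.1))
    exact this h4.symm
  · rw [h1]; exact hsc _ _ _ hx hx'
  · rw [h2]; exact hsc _ _ _ hy hy'
  · rw [h3]; exact hsc _ _ _ hz hz'
  · rw [hxyz, Matrix.mulVec_add, Matrix.mulVec_add, Matrix.mulVec_smul, Matrix.mulVec_smul,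
      Matrix.mulVec_smul, h1, h2, h3, smul_smul, smul_smul, smul_smul, mul_div_cancel₀ _ hx,
      mul_div_cancel₀ _ hy, mul_div_cancel₀ _ hz]
    exact hxyz'

theorem isRigid_four {u₁ u₂ u₃ u₄ : Fin 3 → ℂ} (hu : General u₁ u₂ u₃ u₄) :
    IsRigid ![u₁, u₂, u₃, u₄] := by
  refine Filter.Eventually.of_forall fun b hst => ?_
  have hb : General (b 0) (b 1) (b 2) (b 3) := by
    refine ⟨fun h => hu.1 ((hst 0 1 2).2 h), fun h => hu.2.1 ((hst 0 1 3).2 h),
      fun h => hu.2.2.1 ((hst 0 2 3).2 h), fun h => hu.2.2.2 ((hst 1 2 3).2 h)⟩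
  obtain ⟨g, hg, h1, h2, h3, h4⟩ := exists_matrix_four hu hb
  refine ⟨g, hg, fun i => ?_⟩
  fin_cases i
  · exact h1
  · exact h2
  · exact h3
  · exact ⟨1, one_ne_zero, by rw [one_smul]; exact h4⟩

/-- A matrix which preserves four lines in general position is a scalar. -/
theorem scalar_of_four {u₁ u₂ u₃ u₄ : Fin 3 → ℂ} (hu : General u₁ u₂ u₃ u₄)
    {g : Matrix (Fin 3) (Fin 3) ℂ} (h1 : ∃ r : ℂ, g.mulVec u₁ = r • u₁)
    (h2 : ∃ r : ℂ, g.mulVec u₂ = r • u₂) (h3 : ∃ r : ℂ, g.mulVec u₃ = r • u₃)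
    (h4 : ∃ r : ℂ, g.mulVec u₄ = r • u₄) : ∃ r : ℂ, ∀ v, g.mulVec v = r • v := by
  obtain ⟨x, y, z, hx, hy, hz, hxyz⟩ := hu.exists_coords
  obtain ⟨r₁, h1⟩ := h1
  obtain ⟨r₂, h2⟩ := h2
  obtain ⟨r₃, h3⟩ := h3
  obtain ⟨r₄, h4⟩ := h4
  have hlin := dt_ne_zero_iff.1 hu.1
  have e : (x * (r₁ - r₄)) • u₁ + (y * (r₂ - r₄)) • u₂ + (z * (r₃ - r₄)) • u₃ = 0 := by
    have h5 := h4
    rw [hxyz, Matrix.mulVec_add, Matrix.mulVec_add, Matrix.mulVec_smul, Matrix.mulVec_smul,
      Matrix.mulVec_smul, h1, h2, h3] at h5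
    have h6 := sub_eq_zero.2 h5
    rw [← h6]
    module
  rw [LinearIndependent] at hlin
  have hlin' := Fintype.linearIndependent_iff.1 (dt_ne_zero_iff.1 hu.1)
    ![x * (r₁ - r₄), y * (r₂ - r₄), z * (r₃ - r₄)] (by
      simp only [Fin.sum_univ_three]
      exact e)
  have f1 : r₁ = r₄ := by
    have := hlin' 0
    simpa [hx, sub_eq_zero] using this
  have f2 : r₂ = r₄ := by
    have := hlin' 1
    simpa [hy, sub_eq_zero] using this
  have f3 : r₃ = r₄ := by
    have := hlin' 2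
    simpa [hz, sub_eq_zero] using this
  refine ⟨r₄, fun v => ?_⟩
  obtain ⟨α, β, γ, hv⟩ := Pool.Agent.Helper55_HK.exists_coords hu.1 v
  rw [hv, Matrix.mulVec_add, Matrix.mulVec_add, Matrix.mulVec_smul, Matrix.mulVec_smul,
      Matrix.mulVec_smul, h1, h2, h3, f1, f2, f3]
  module

/-- A configuration is not rigid if one line can be moved without changing the combinatorial
type, and is determined by the other lines up to the projective transformations fixing them. -/
theorem not_isRigid_of_deform {ι : Type} [Finite ι] {a : ι → Fin 3 → ℂ} (l : ι)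
    (c : Fin 3 → ℂ) (hc : LinearIndependent ℂ ![a l, c])
    (hinc : ∀ i j, i ≠ l → j ≠ l → i ≠ j → dt (a i) (a j) (a l) = 0 → dt (a i) (a j) c = 0)
    (hstab : ∀ g : Matrix (Fin 3) (Fin 3) ℂ, g.det ≠ 0 →
      (∀ i, i ≠ l → ∃ r : ℂ, g.mulVec (a i) = r • a i) → ∃ r : ℂ, g.mulVec (a l) = r • a l) :
    ¬ IsRigid a := by
  classical
  intro hr
  let B : ℝ → ι → Fin 3 → ℂ := fun t => Function.update a l (a l + (t : ℂ) • c)
  have hBl : ∀ t, B t l = a l + (t : ℂ) • c := fun t => Function.update_self _ _ _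
  have hBi : ∀ t i, i ≠ l → B t i = a i := fun t i hi => Function.update_of_ne hi _ _
  have hB0 : B 0 = a := by
    simp only [B, Complex.ofReal_zero, zero_smul, add_zero, Function.update_eq_self]
  have hBc : Continuous B := by
    refine continuous_pi fun i => ?_
    by_cases hi : i = l
    · subst hi
      simp only [hBl]
      fun_prop
    · simp only [hBi _ i hi]
      fun_prop
  have h1 : ∀ᶠ t in 𝓝 (0 : ℝ), SameType a (B t) := by
    have : ∀ᶠ t in 𝓝 (0 : ℝ), ∀ x : ι × ι × ι, dt (a x.1) (a x.2.1) (a x.2.2) = 0 ↔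
        dt (B t x.1) (B t x.2.1) (B t x.2.2) = 0 := by
      rw [Filter.eventually_all]
      rintro ⟨i, j, m⟩
      by_cases h0 : dt (a i) (a j) (a m) = 0
      · refine Filter.Eventually.of_forall fun t => ?_
        simp only [h0, true_iff]
        have hz1 : ∀ u v : Fin 3 → ℂ, dt u u v = 0 := fun u v => by
          simp only [dt_eq]; ring
        have hz2 : ∀ u v : Fin 3 → ℂ, dt u v v = 0 := fun u v => by
          simp only [dt_eq]; ring
        have hz3 : ∀ u v : Fin 3 → ℂ, dt u v u = 0 := fun u v => by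
          simp only [dt_eq]; ring
        by_cases hij : i = j
        · subst hij; exact hz1 _ _
        by_cases hjm : j = m
        · subst hjm; exact hz2 _ _
        by_cases him : i = m
        · subst him; exact hz3 _ _
        have hadd : ∀ u v w w' : Fin 3 → ℂ, ∀ s : ℂ, dt u v (w + s • w') =
            dt u v w + s * dt u v w' := by
          intro u v w w' s
          simp only [dt_eq, Pi.add_apply, Pi.smul_apply, smul_eq_mul]
          ring
        by_cases hil : i = l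
        · subst hil
          have hj : j ≠ i := fun h => hij h.symm
          have hm : m ≠ i := fun h => him h.symm
          rw [hBl, hBi _ _ hj, hBi _ _ hm, ← dt_rot, hadd, dt_rot, h0, zero_add,
            hinc j m hj hm hjm (by rw [dt_rot]; exact h0), mul_zero]
        by_cases hjl : j = l
        · subst hjl
          have hm : m ≠ j := fun h => hjm h.symm
          rw [hBl, hBi _ _ hil, hBi _ _ hm, dt_rot (v := a i), hadd, ← dt_rot, h0, zero_add,
            hinc m i hm hil (fun h => him h.symm) (by rw [← dt_rot]; exact h0), mul_zero]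
        by_cases hml : m = l
        · subst hml
          rw [hBl, hBi _ _ hil, hBi _ _ hjl, hadd, h0, zero_add, hinc i j hil hjl hij h0,
            mul_zero]
        · rw [hBi _ _ hil, hBi _ _ hjl, hBi _ _ hml, h0]
      · have hcont : Continuous fun t => dt (B t i) (B t j) (B t m) := by
          refine continuous_dt ?_ ?_ ?_
          · exact (continuous_apply i).comp hBc
          · exact (continuous_apply j).comp hBc
          · exact (continuous_apply m).comp hBc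
        have h2 : dt (B 0 i) (B 0 j) (B 0 m) ≠ 0 := by rw [hB0]; exact h0
        filter_upwards [hcont.continuousAt.eventually_ne h2] with t ht
        simp only [h0, ht]
    filter_upwards [this] with t ht i j m using ht (i, j, m)
  have h2 : Filter.Tendsto B (𝓝 0) (𝓝 a) := by
    have := hBc.tendsto 0
    rwa [hB0] at this
  have h3 := (h2.eventually hr).and h1
  have h4 : ∀ᶠ t in 𝓝[≠] (0 : ℝ), t ≠ 0 := self_mem_nhdsWithin
  obtain ⟨t, ⟨ht, hst⟩, ht0⟩ := ((h3.filter_mono nhdsWithin_le_nhds).and h4).exists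
  obtain ⟨g, hg, hgb⟩ := ht hst
  obtain ⟨r, hrl⟩ := hstab g hg fun i hi => by
    obtain ⟨s, hs, h5⟩ := hgb i
    rw [hBi t i hi] at h5
    exact ⟨s⁻¹, by conv_rhs => rw [h5, smul_smul, inv_mul_cancel₀ hs, one_smul]⟩
  obtain ⟨s, hs, h5⟩ := hgb l
  rw [hBl, hrl, smul_smul] at h5
  have h6 : (1 - s * r) • a l + (t : ℂ) • c = 0 := by
    rw [sub_smul, one_smul, ← h5]
    module
  have h7 := (LinearIndependent.pair_iff.1 hc _ _ h6).2
  exact ht0 (by exact_mod_cast h7)

end Pool.Agent.Helper55_HK
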