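import Pool.Agent.Helper55_HK.Rigid2

/-! Every rigid configuration is contained in a rigid configuration with four general lines. -/

open Topology
open scoped Matrix

namespace Pool.Agent.Helper55_HK

/-- Three forms with a common non-trivial zero have determinant zero. -/
theorem dt_eq_zero_of_common {u v w p : Fin 3 → ℂ} (hp : p ≠ 0) (hu : fm u p = 0)
    (hv : fm v p = 0) (hw : fm w p = 0) : dt u v w = 0 := by
  by_contra h
  have h1 : (Matrix.of ![u, v, w]).mulVec p = 0 := by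
    funext i
    fin_cases i
    · exact hu
    · exact hv
    · exact hw
  have h2 : IsUnit (Matrix.of ![u, v, w]).det := isUnit_iff_ne_zero.2 h
  have h3 := (Matrix.of ![u, v, w]).mulVec_injective_iff_isUnit.2
    ((Matrix.isUnit_iff_isUnit_det _).2 h2)
  exact hp (h3 (by rw [h1, Matrix.mulVec_zero]))

/-- If two independent forms vanish at `p` and their determinant with a third one is zero, the
third one vanishes at `p`. -/
theorem fm_eq_zero_of_dt {u v w p : Fin 3 → ℂ} (huv : LinearIndependent ℂ ![u, v])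
    (hu : fm u p = 0) (hv : fm v p = 0) (h : dt u v w = 0) : fm w p = 0 := by
  obtain ⟨c, hc⟩ := exists_smul_cross huv hu hv
  rw [hc]
  have h1 : fm w (c • (crossProduct u) v) = c * fm w (crossProduct u v) := by
    rw [fm, dotProduct_smul, smul_eq_mul]
  rw [h1, fm_cross, h, mul_zero]

theorem linearIndependent_of_fm {P Q s t : Fin 3 → ℂ} (h1 : fm s P ≠ 0) (h2 : fm s Q = 0)
    (h3 : fm t Q ≠ 0) : LinearIndependent ℂ ![P, Q] := by
  rw [LinearIndependent.pair_iff]
  intro x y hxy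
  have e1 := congrArg (fm s) hxy
  have e2 := congrArg (fm t) hxy
  simp only [fm, dotProduct_add, dotProduct_smul, smul_eq_mul, dotProduct_zero] at e1 e2 h1 h2 h3
  rw [h2, mul_zero, add_zero] at e1
  have hx : x = 0 := (mul_eq_zero.1 e1).resolve_right h1
  refine ⟨hx, ?_⟩
  rw [hx, zero_mul, zero_add] at e2
  exact (mul_eq_zero.1 e2).resolve_right h3

theorem isConfig_four {u₁ u₂ u₃ u₄ : Fin 3 → ℂ} (h : General u₁ u₂ u₃ u₄) :
    IsConfig ![u₁, u₂, u₃, u₄] := by
  have key : ∀ {u v w : Fin 3 → ℂ}, dt u v w ≠ 0 → LinearIndependent ℂ ![u, v] := by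
    intro u v w h
    have h1 : fm w (crossProduct u v) ≠ 0 := by rw [fm_cross]; exact h
    refine crossProduct_ne_zero_iff_linearIndependent.1 fun h0 => h1 ?_
    rw [h0]
    exact dotProduct_zero _
  have rot : ∀ {u v w : Fin 3 → ℂ}, dt u v w ≠ 0 → dt v w u ≠ 0 := fun h => by rwa [dt_rot]
  have sw : ∀ {u v w : Fin 3 → ℂ}, dt u v w ≠ 0 → dt v u w ≠ 0 := fun h => by
    rw [dt_swap]; exact neg_ne_zero.2 h
  obtain ⟨h1, h2, h3, h4⟩ := h
  refine ⟨fun i j hij => ?_, fun v hv => ?_⟩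
  · fin_cases i <;> fin_cases j
    · exact absurd rfl hij
    · exact key h1
    · exact key (sw (rot (rot h1)))
    · exact key (sw (rot (rot h2)))
    · exact key (sw h1)
    · exact absurd rfl hij
    · exact key (rot h1)
    · exact key (rot h2)
    · exact key (rot (rot h1))
    · exact key (sw (rot h1))
    · exact absurd rfl hij
    · exact key (rot h3)
    · exact key (rot (rot h2))
    · exact key (sw (rot h2))
    · exact key (sw (rot h3))
    · exact absurd rfl hij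
  · by_contra hv0
    exact h1 (dt_eq_zero_of_common hv0 (hv 0) (hv 1) (hv 2))

/-- A near-pencil with at least four concurrent lines is not rigid. -/
theorem not_isRigid_nearPencil {k : ℕ} {a : Fin k → Fin 3 → ℂ} (ha : IsConfig a)
    {i₁ i₂ i₃ j j' : Fin k} (h12 : i₁ ≠ i₂) (hj1 : j ≠ i₁) (hj2 : j ≠ i₂) (hj3 : j ≠ i₃)
    (hj'1 : j' ≠ i₁) (hj'2 : j' ≠ i₂) (hj'3 : j' ≠ i₃) (hjj : j ≠ j') {p : Fin 3 → ℂ}
    (hp : ∀ i, i ≠ i₃ → fm (a i) p = 0) (hp3 : fm (a i₃) p ≠ 0) (h13 : i₁ ≠ i₃)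
    (h23 : i₂ ≠ i₃) : ¬ IsRigid a := by
  have hp0 : p ≠ 0 := by
    rintro rfl
    exact hp3 (dotProduct_zero _)
  refine not_isRigid_of_deform j' (a i₁) (ha.distinct _ _ hj'1) ?_ ?_
  · intro i m hi hm him h0
    by_cases hi3 : i = i₃
    · subst hi3
      exfalso
      have hm3 : m ≠ i := fun h => him h.symm
      refine hp3 (fm_eq_zero_of_dt (ha.distinct m j' hm) (hp m hm3) (hp j' hj'3) ?_)
      rw [dt_rot]
      exact h0
    by_cases hm3 : m = i₃
    · subst hm3
      exfalso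
      refine hp3 (fm_eq_zero_of_dt (ha.distinct i j' hi) (hp i hi3) (hp j' hj'3) ?_)
      rw [← dt_rot, dt_swap, dt_rot] at h0
      simpa using h0
    · exact dt_eq_zero_of_common hp0 (hp i hi3) (hp m hm3) (hp i₁ h13)
  · intro g hg hgi
    obtain ⟨r₁, hr1⟩ := hgi i₁ (fun h => hj'1 h.symm)
    obtain ⟨r₂, hr2⟩ := hgi i₂ (fun h => hj'2 h.symm)
    obtain ⟨r, hr⟩ := hgi j hjj
    have hcomb : ∀ m, m ≠ i₃ → ∃ P Q : ℂ, a m = P • a i₁ + Q • a i₂ := fun m hm =>
      exists_combination (ha.distinct _ _ h12) hp0 (hp _ h13) (hp _ h23) (hp _ hm)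
    obtain ⟨P, Q, hPQ⟩ := hcomb j hj3
    obtain ⟨P', Q', hPQ'⟩ := hcomb j' hj'3
    have hP : P ≠ 0 := by
      rintro rfl
      have := ha.distinct j i₂ hj2
      rw [hPQ, zero_smul, zero_add] at this
      have h1 := LinearIndependent.pair_iff.1 this 1 (-Q) (by module)
      exact one_ne_zero h1.1
    have hQ : Q ≠ 0 := by
      rintro rfl
      have := ha.distinct j i₁ hj1
      rw [hPQ, zero_smul, add_zero] at this
      have h1 := LinearIndependent.pair_iff.1 this 1 (-P) (by module)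
      exact one_ne_zero h1.1
    have e : (P * (r₁ - r)) • a i₁ + (Q * (r₂ - r)) • a i₂ = 0 := by
      have h5 := hr
      rw [hPQ, Matrix.mulVec_add, Matrix.mulVec_smul, Matrix.mulVec_smul, hr1, hr2] at h5
      have h6 := sub_eq_zero.2 h5
      rw [← h6]
      module
    obtain ⟨e1, e2⟩ := LinearIndependent.pair_iff.1 (ha.distinct _ _ h12) _ _ e
    have f1 : r₁ = r := sub_eq_zero.1 ((mul_eq_zero.1 e1).resolve_left hP)
    have f2 : r₂ = r := sub_eq_zero.1 ((mul_eq_zero.1 e2).resolve_left hQ)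
    refine ⟨r, ?_⟩
    rw [hPQ', Matrix.mulVec_add, Matrix.mulVec_smul, Matrix.mulVec_smul, hr1, hr2, f1, f2]
    module

/-- The data which we need for the construction of larger rigid configurations. -/
def HasBase {k : ℕ} (a : Fin k → Fin 3 → ℂ) : Prop :=
  ∃ (m : ℕ) (b : Fin m → Fin 3 → ℂ) (X Y Z : Fin 3 → ℂ), dt X Y Z ≠ 0 ∧ IsConfig b ∧
    IsRigid b ∧ (∀ i, Mem b (a i)) ∧ Mem b X ∧ Mem b (X - Z) ∧ Mem b Y ∧ Mem b (Y - Z)

theorem mem_self {ι : Type} (b : ι → Fin 3 → ℂ) (i : ι) : Mem b (b i) :=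
  ⟨i, 1, one_ne_zero, (one_smul _ _).symm⟩

theorem mem_smul {ι : Type} {b : ι → Fin 3 → ℂ} {u : Fin 3 → ℂ} {r : ℂ} (hr : r ≠ 0)
    (h : Mem b u) : Mem b (r • u) := by
  obtain ⟨i, s, hs, h1⟩ := h
  exact ⟨i, s / r, div_ne_zero hs hr, by rw [h1, smul_smul, div_mul_cancel₀ _ hr]⟩

theorem hasBase_of_general {k : ℕ} {a : Fin k → Fin 3 → ℂ} (ha : IsConfig a) (hr : IsRigid a)
    {i₁ i₂ i₃ i₄ : Fin k} (h : General (a i₁) (a i₂) (a i₃) (a i₄)) : HasBase a := by
  obtain ⟨x, y, z, hx, hy, hz, hxyz⟩ := h.exists_coords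
  refine ⟨k, a, x • a i₁, (-z) • a i₃, x • a i₁ + y • a i₂, ?_, ha, hr, mem_self a,
    mem_smul hx (mem_self a _), ?_, mem_smul (neg_ne_zero.2 hz) (mem_self a _), ?_⟩
  · have : dt (x • a i₁) ((-z) • a i₃) (x • a i₁ + y • a i₂) =
        x * y * z * dt (a i₁) (a i₂) (a i₃) := by
      simp only [dt_eq, Pi.add_apply, Pi.smul_apply, smul_eq_mul]
      ring
    rw [this]
    exact mul_ne_zero (mul_ne_zero (mul_ne_zero hx hy) hz) h.1
  · have : x • a i₁ - (x • a i₁ + y • a i₂) = (-y) • a i₂ := by module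
    rw [this]
    exact mem_smul (neg_ne_zero.2 hy) (mem_self a _)
  · have : (-z) • a i₃ - (x • a i₁ + y • a i₂) = (-1 : ℂ) • a i₄ := by
      rw [hxyz]
      module
    rw [this]
    exact mem_smul (neg_ne_zero.2 one_ne_zero) (mem_self a _)

/-- The configuration of five lines `x = 0`, `x = z`, `y = 0`, `y = z`, `z = 0`. -/
theorem exists_five {X Y Z : Fin 3 → ℂ} (h : dt X Y Z ≠ 0) :
    ∃ b : Fin 5 → Fin 3 → ℂ, IsConfig b ∧ IsRigid b ∧ Mem b X ∧ Mem b (X - Z) ∧ Mem b Y ∧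
      Mem b (Y - Z) ∧ Mem b Z := by
  have hgen : General X (X - Z) Y (Y - Z) := by
    refine ⟨?_, ?_, ?_, ?_⟩
    · have : dt X (X - Z) Y = dt X Y Z := by
        simp only [dt_eq, Pi.sub_apply]; ring
      rwa [this]
    · have : dt X (X - Z) (Y - Z) = dt X Y Z := by
        simp only [dt_eq, Pi.sub_apply]; ring
      rwa [this]
    · have : dt X Y (Y - Z) = - dt X Y Z := by
        simp only [dt_eq, Pi.sub_apply]; ring
      rw [this]; exact neg_ne_zero.2 h
    · have : dt (X - Z) Y (Y - Z) = - dt X Y Z := by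
        simp only [dt_eq, Pi.sub_apply]; ring
      rw [this]; exact neg_ne_zero.2 h
  set q : Fin 4 → Fin 3 → ℂ := ![X, X - Z, Y, Y - Z] with hq
  have hqc : IsConfig q := isConfig_four hgen
  have hqr : IsRigid q := isRigid_four hgen
  have m1 : Mem q X := mem_self q 0
  have m2 : Mem q (X - Z) := mem_self q 1
  have m3 : Mem q Y := mem_self q 2
  have m4 : Mem q (Y - Z) := mem_self q 3
  have hZ : Z ≠ 0 := by
    rintro rfl
    apply h
    simp only [dt_eq, Pi.zero_apply]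
    ring
  have hnot : ¬ Mem q Z := by
    rintro ⟨i, r, hr, hi⟩
    fin_cases i
    · apply h
      have : X = r • Z := hi
      rw [this]
      simp only [dt_eq, Pi.smul_apply, smul_eq_mul]
      ring
    · apply h
      have : X = (r + 1) • Z := by
        have h1 : X - Z = r • Z := hi
        rw [add_smul, one_smul, ← h1, sub_add_cancel]
      rw [this]
      simp only [dt_eq, Pi.smul_apply, smul_eq_mul]
      ring
    · apply h
      have : Y = r • Z := hi
      rw [this]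
      simp only [dt_eq, Pi.smul_apply, smul_eq_mul]
      ring
    · apply h
      have : Y = (r + 1) • Z := by
        have h1 : Y - Z = r • Z := hi
        rw [add_smul, one_smul, ← h1, sub_add_cancel]
      rw [this]
      simp only [dt_eq, Pi.smul_apply, smul_eq_mul]
      ring
  refine ⟨Fin.snoc (α := fun _ => Fin 3 → ℂ) q Z, isConfig_snoc hqc hZ hnot, ?_,
    mem_snoc_of_mem m1, mem_snoc_of_mem m2, mem_snoc_of_mem m3, mem_snoc_of_mem m4,
    mem_snoc_self⟩
  refine isRigid_snoc hqr m1 m2 m3 m4 hZ ?_ ?_ ?_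
  · simp only [dt_eq, Pi.sub_apply]; ring
  · simp only [dt_eq, Pi.sub_apply]; ring
  · refine linearIndependent_of_fm (s := Y) (t := X) ?_ ?_ ?_
    · rw [fm_cross]
      have : dt X (X - Z) Y = dt X Y Z := by
        simp only [dt_eq, Pi.sub_apply]; ring
      rwa [this]
    · rw [fm_cross]
      simp only [dt_eq, Pi.sub_apply]; ring
    · rw [fm_cross]
      have : dt Y (Y - Z) X = - dt X Y Z := by
        simp only [dt_eq, Pi.sub_apply]; ring
      rw [this]; exact neg_ne_zero.2 h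

/-- The near-pencil case. -/
theorem hasBase_of_nearPencil {k : ℕ} {a : Fin k → Fin 3 → ℂ} (ha : IsConfig a)
    (hr : IsRigid a) {i₁ i₂ i₃ : Fin k} (h : dt (a i₁) (a i₂) (a i₃) ≠ 0)
    (hall : ∀ j, j ≠ i₁ → j ≠ i₂ → j ≠ i₃ → ∃ x y : ℂ, a j = x • a i₁ + y • a i₂) :
    HasBase a := by
  have h12 : i₁ ≠ i₂ := by
    rintro rfl
    apply h; simp only [dt_eq]; ring
  have h13 : i₁ ≠ i₃ := by
    rintro rfl
    apply h; simp only [dt_eq]; ring
  have h23 : i₂ ≠ i₃ := by
    rintro rfl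
    apply h; simp only [dt_eq]; ring
  set p := crossProduct (a i₁) (a i₂) with hp
  have hp1 : fm (a i₁) p = 0 := by rw [hp, fm_cross]; simp only [dt_eq]; ring
  have hp2 : fm (a i₂) p = 0 := by rw [hp, fm_cross]; simp only [dt_eq]; ring
  have hp3 : fm (a i₃) p ≠ 0 := by rw [hp, fm_cross]; exact h
  have hpall : ∀ i, i ≠ i₃ → fm (a i) p = 0 := by
    intro i hi
    by_cases e1 : i = i₁
    · subst e1; exact hp1
    by_cases e2 : i = i₂
    · subst e2; exact hp2
    obtain ⟨x, y, hxy⟩ := hall i e1 e2 hi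
    rw [hxy, fm, add_dotProduct, smul_dotProduct, smul_dotProduct]
    change x • fm (a i₁) p + y • fm (a i₂) p = 0
    rw [hp1, hp2, smul_zero, smul_zero, add_zero]
  -- at most one further line
  have hone : ∃ x y : ℂ, x ≠ 0 ∧ y ≠ 0 ∧ ∀ j, j ≠ i₁ → j ≠ i₂ → j ≠ i₃ →
      a j = x • a i₁ + y • a i₂ := by
    by_cases hex : ∃ j, j ≠ i₁ ∧ j ≠ i₂ ∧ j ≠ i₃
    · obtain ⟨j, hj1, hj2, hj3⟩ := hex
      obtain ⟨x, y, hxy⟩ := hall j hj1 hj2 hj3
      refine ⟨x, y, ?_, ?_, fun j' hj'1 hj'2 hj'3 => ?_⟩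
      · rintro rfl
        have := ha.distinct j i₂ hj2
        rw [hxy, zero_smul, zero_add] at this
        have h1 := LinearIndependent.pair_iff.1 this 1 (-y) (by module)
        exact one_ne_zero h1.1
      · rintro rfl
        have := ha.distinct j i₁ hj1
        rw [hxy, zero_smul, add_zero] at this
        have h1 := LinearIndependent.pair_iff.1 this 1 (-x) (by module)
        exact one_ne_zero h1.1
      · by_cases hjj : j = j'
        · rw [← hjj, hxy]
        · exact absurd hr (not_isRigid_nearPencil ha h12 hj1 hj2 hj3 hj'1 hj'2 hj'3 hjj hpall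
            hp3 h13 h23)
    · push Not at hex
      exact ⟨1, 1, one_ne_zero, one_ne_zero, fun j h1 h2 h3 => absurd (hex j h1 h2) h3⟩
  obtain ⟨x, y, hx, hy, hxy⟩ := hone
  have hD : dt (x • a i₁) (a i₃) ((-y) • a i₂) ≠ 0 := by
    have : dt (x • a i₁) (a i₃) ((-y) • a i₂) = x * y * dt (a i₁) (a i₂) (a i₃) := by
      simp only [dt_eq, Pi.smul_apply, smul_eq_mul]; ring
    rw [this]
    exact mul_ne_zero (mul_ne_zero hx hy) h
  obtain ⟨b, hb, hbr, m1, m2, m3, m4, m5⟩ := exists_five hD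
  refine ⟨5, b, _, _, _, hD, hb, hbr, fun j => ?_, m1, m2, m3, m4⟩
  by_cases e1 : j = i₁
  · subst e1
    have := mem_smul (inv_ne_zero hx) m1
    rwa [smul_smul, inv_mul_cancel₀ hx, one_smul] at this
  by_cases e2 : j = i₂
  · subst e2
    have := mem_smul (inv_ne_zero (neg_ne_zero.2 hy)) m5
    rwa [smul_smul, inv_mul_cancel₀ (neg_ne_zero.2 hy), one_smul] at this
  by_cases e3 : j = i₃
  · subst e3
    exact m3
  · have : a j = x • a i₁ - (-y) • a i₂ := by
      rw [hxy j e1 e2 e3]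
      module
    rw [this]
    exact m2

/-- Every rigid configuration is contained in a rigid configuration with four general lines. -/
theorem hasBase {k : ℕ} {a : Fin k → Fin 3 → ℂ} (ha : IsConfig a) (hr : IsRigid a) :
    HasBase a := by
  by_cases hG : ∃ i₁ i₂ i₃ i₄, General (a i₁) (a i₂) (a i₃) (a i₄)
  · obtain ⟨i₁, i₂, i₃, i₄, h⟩ := hG
    exact hasBase_of_general ha hr h
  push Not at hG
  -- a triangle
  have htri : ∃ i₁ i₂ i₃, dt (a i₁) (a i₂) (a i₃) ≠ 0 := by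
    by_contra hcon
    push Not at hcon
    by_cases h2 : ∃ i j : Fin k, i ≠ j
    · obtain ⟨i, j, hij⟩ := h2
      have h3 := ha.not_concurrent (crossProduct (a i) (a j)) fun l => by
        rw [fm_cross]; exact hcon i j l
      exact crossProduct_ne_zero_iff_linearIndependent.2 (ha.distinct i j hij) h3
    · push Not at h2
      by_cases h3 : Nonempty (Fin k)
      · obtain ⟨i⟩ := h3
        have h4 := ha.not_concurrent
        have hi0 := ha.ne_zero i
        -- a vector orthogonal to `a i`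
        have h5 : ∀ v : Fin 3 → ℂ, fm (a i) v = 0 → v = 0 := fun v hv =>
          h4 v fun j => by rw [← h2 i j]; exact hv
        have h6 := h5 ![a i 1, - a i 0, 0] (by rw [fm_eq]; simp; ring)
        have h7 := h5 ![a i 2, 0, - a i 0] (by rw [fm_eq]; simp; ring)
        apply hi0
        funext l
        fin_cases l
        · simpa using congrFun h6 1
        · simpa using congrFun h6 0
        · simpa using congrFun h7 0
      · have h4 := ha.not_concurrent (fun _ => 1) fun i => absurd ⟨i⟩ h3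
        exact one_ne_zero (congrFun h4 0)
  obtain ⟨i₁, i₂, i₃, htri⟩ := htri
  have hcoord := fun j => exists_coords htri (a j)
  choose x y z hxyz using hcoord
  set D := dt (a i₁) (a i₂) (a i₃) with hD
  have hind : ∀ i j, i ≠ j → ∀ r : ℂ, a i ≠ r • a j := by
    intro i j hij r h0
    have := ha.distinct i j hij
    rw [h0] at this
    have h1 := LinearIndependent.pair_iff.1 this 1 (-r) (by module)
    exact one_ne_zero h1.1
  -- one coordinate vanishes
  have hzero : ∀ j, x j = 0 ∨ y j = 0 ∨ z j = 0 := by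
    intro j
    by_contra hcon
    push Not at hcon
    obtain ⟨hx, hy, hz⟩ := hcon
    apply hG i₁ i₂ i₃ j
    refine ⟨htri, ?_, ?_, ?_⟩
    · have : dt (a i₁) (a i₂) (a j) = z j * D := by
        rw [hxyz j, hD]; simp only [dt_eq, Pi.add_apply, Pi.smul_apply, smul_eq_mul]; ring
      rw [this]; exact mul_ne_zero hz htri
    · have : dt (a i₁) (a i₃) (a j) = - y j * D := by
        rw [hxyz j, hD]; simp only [dt_eq, Pi.add_apply, Pi.smul_apply, smul_eq_mul]; ring
      rw [this]; exact mul_ne_zero (neg_ne_zero.2 hy) htri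
    · have : dt (a i₂) (a i₃) (a j) = x j * D := by
        rw [hxyz j, hD]; simp only [dt_eq, Pi.add_apply, Pi.smul_apply, smul_eq_mul]; ring
      rw [this]; exact mul_ne_zero hx htri
  -- two coordinates do not vanish
  have hxy0 : ∀ j, j ≠ i₃ → ¬ (x j = 0 ∧ y j = 0) := by
    rintro j hj ⟨h1, h2⟩
    apply hind j i₃ hj (z j)
    rw [hxyz j, h1, h2, zero_smul, zero_smul, zero_add, zero_add]
  have hxz0 : ∀ j, j ≠ i₂ → ¬ (x j = 0 ∧ z j = 0) := by
    rintro j hj ⟨h1, h2⟩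
    apply hind j i₂ hj (y j)
    rw [hxyz j, h1, h2, zero_smul, zero_smul, zero_add, add_zero]
  have hyz0 : ∀ j, j ≠ i₁ → ¬ (y j = 0 ∧ z j = 0) := by
    rintro j hj ⟨h1, h2⟩
    apply hind j i₁ hj (x j)
    rw [hxyz j, h1, h2, zero_smul, zero_smul, add_zero, add_zero]
  -- no two different kinds
  have hXY : ∀ j j', j ≠ i₁ → j ≠ i₂ → j ≠ i₃ → j' ≠ i₁ → j' ≠ i₂ → j' ≠ i₃ →
      ¬ (x j = 0 ∧ y j' = 0) := by
    rintro j j' hj1 hj2 hj3 hj'1 hj'2 hj'3 ⟨hx, hy⟩
    have hy' : y j ≠ 0 := fun h => hxy0 j hj3 ⟨hx, h⟩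
    have hz' : z j ≠ 0 := fun h => hxz0 j hj2 ⟨hx, h⟩
    have hx'' : x j' ≠ 0 := fun h => hxy0 j' hj'3 ⟨h, hy⟩
    have hz'' : z j' ≠ 0 := fun h => hyz0 j' hj'1 ⟨hy, h⟩
    apply hG i₁ i₂ j j'
    refine ⟨?_, ?_, ?_, ?_⟩
    · have : dt (a i₁) (a i₂) (a j) = z j * D := by
        rw [hxyz j, hD]; simp only [dt_eq, Pi.add_apply, Pi.smul_apply, smul_eq_mul]; ring
      rw [this]; exact mul_ne_zero hz' htri
    · have : dt (a i₁) (a i₂) (a j') = z j' * D := by
        rw [hxyz j', hD]; simp only [dt_eq, Pi.add_apply, Pi.smul_apply, smul_eq_mul]; ring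
      rw [this]; exact mul_ne_zero hz'' htri
    · have : dt (a i₁) (a j) (a j') = y j * z j' * D := by
        rw [hxyz j, hxyz j', hD, hx, hy]
        simp only [dt_eq, Pi.add_apply, Pi.smul_apply, smul_eq_mul]; ring
      rw [this]; exact mul_ne_zero (mul_ne_zero hy' hz'') htri
    · have : dt (a i₂) (a j) (a j') = z j * x j' * D := by
        rw [hxyz j, hxyz j', hD, hx, hy]
        simp only [dt_eq, Pi.add_apply, Pi.smul_apply, smul_eq_mul]; ring
      rw [this]; exact mul_ne_zero (mul_ne_zero hz' hx'') htri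
  have hXZ : ∀ j j', j ≠ i₁ → j ≠ i₂ → j ≠ i₃ → j' ≠ i₁ → j' ≠ i₂ → j' ≠ i₃ →
      ¬ (x j = 0 ∧ z j' = 0) := by
    rintro j j' hj1 hj2 hj3 hj'1 hj'2 hj'3 ⟨hx, hz⟩
    have hy' : y j ≠ 0 := fun h => hxy0 j hj3 ⟨hx, h⟩
    have hz' : z j ≠ 0 := fun h => hxz0 j hj2 ⟨hx, h⟩
    have hx'' : x j' ≠ 0 := fun h => hxz0 j' hj'2 ⟨h, hz⟩
    have hy'' : y j' ≠ 0 := fun h => hyz0 j' hj'1 ⟨h, hz⟩
    apply hG i₁ i₃ j j'
    refine ⟨?_, ?_, ?_, ?_⟩
    · have : dt (a i₁) (a i₃) (a j) = - y j * D := by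
        rw [hxyz j, hD]; simp only [dt_eq, Pi.add_apply, Pi.smul_apply, smul_eq_mul]; ring
      rw [this]; exact mul_ne_zero (neg_ne_zero.2 hy') htri
    · have : dt (a i₁) (a i₃) (a j') = - y j' * D := by
        rw [hxyz j', hD]; simp only [dt_eq, Pi.add_apply, Pi.smul_apply, smul_eq_mul]; ring
      rw [this]; exact mul_ne_zero (neg_ne_zero.2 hy'') htri
    · have : dt (a i₁) (a j) (a j') = - z j * y j' * D := by
        rw [hxyz j, hxyz j', hD, hx, hz]
        simp only [dt_eq, Pi.add_apply, Pi.smul_apply, smul_eq_mul]; ring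
      rw [this]; exact mul_ne_zero (mul_ne_zero (neg_ne_zero.2 hz') hy'') htri
    · have : dt (a i₃) (a j) (a j') = - y j * x j' * D := by
        rw [hxyz j, hxyz j', hD, hx, hz]
        simp only [dt_eq, Pi.add_apply, Pi.smul_apply, smul_eq_mul]; ring
      rw [this]; exact mul_ne_zero (mul_ne_zero (neg_ne_zero.2 hy') hx'') htri
  have hYZ : ∀ j j', j ≠ i₁ → j ≠ i₂ → j ≠ i₃ → j' ≠ i₁ → j' ≠ i₂ → j' ≠ i₃ →
      ¬ (y j = 0 ∧ z j' = 0) := by
    rintro j j' hj1 hj2 hj3 hj'1 hj'2 hj'3 ⟨hy, hz⟩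
    have hx' : x j ≠ 0 := fun h => hxy0 j hj3 ⟨h, hy⟩
    have hz' : z j ≠ 0 := fun h => hyz0 j hj1 ⟨hy, h⟩
    have hx'' : x j' ≠ 0 := fun h => hxz0 j' hj'2 ⟨h, hz⟩
    have hy'' : y j' ≠ 0 := fun h => hyz0 j' hj'1 ⟨h, hz⟩
    apply hG i₂ i₃ j j'
    refine ⟨?_, ?_, ?_, ?_⟩
    · have : dt (a i₂) (a i₃) (a j) = x j * D := by
        rw [hxyz j, hD]; simp only [dt_eq, Pi.add_apply, Pi.smul_apply, smul_eq_mul]; ring
      rw [this]; exact mul_ne_zero hx' htri
    · have : dt (a i₂) (a i₃) (a j') = x j' * D := by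
        rw [hxyz j', hD]; simp only [dt_eq, Pi.add_apply, Pi.smul_apply, smul_eq_mul]; ring
      rw [this]; exact mul_ne_zero hx'' htri
    · have : dt (a i₂) (a j) (a j') = z j * x j' * D := by
        rw [hxyz j, hxyz j', hD, hy, hz]
        simp only [dt_eq, Pi.add_apply, Pi.smul_apply, smul_eq_mul]; ring
      rw [this]; exact mul_ne_zero (mul_ne_zero hz' hx'') htri
    · have : dt (a i₃) (a j) (a j') = x j * y j' * D := by
        rw [hxyz j, hxyz j', hD, hy, hz]
        simp only [dt_eq, Pi.add_apply, Pi.smul_apply, smul_eq_mul]; ring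
      rw [this]; exact mul_ne_zero (mul_ne_zero hx' hy'') htri
  by_cases cX : ∃ j, j ≠ i₁ ∧ j ≠ i₂ ∧ j ≠ i₃ ∧ x j = 0
  · obtain ⟨j, hj1, hj2, hj3, hx⟩ := cX
    refine hasBase_of_nearPencil ha hr (i₁ := i₂) (i₂ := i₃) (i₃ := i₁)
      (by rw [dt_rot]; exact htri) fun j' h2 h3 h1 => ⟨y j', z j', ?_⟩
    have hx' : x j' = 0 := by
      rcases hzero j' with h | h | h
      · exact h
      · exact absurd ⟨hx, h⟩ (hXY j j' hj1 hj2 hj3 h1 h2 h3)
      · exact absurd ⟨hx, h⟩ (hXZ j j' hj1 hj2 hj3 h1 h2 h3)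
    rw [hxyz j', hx', zero_smul, zero_add]
  by_cases cY : ∃ j, j ≠ i₁ ∧ j ≠ i₂ ∧ j ≠ i₃ ∧ y j = 0
  · obtain ⟨j, hj1, hj2, hj3, hy⟩ := cY
    refine hasBase_of_nearPencil ha hr (i₁ := i₁) (i₂ := i₃) (i₃ := i₂)
      (by rw [← dt_rot, dt_swap, dt_rot]; exact neg_ne_zero.2 htri)
      fun j' h1 h3 h2 => ⟨x j', z j', ?_⟩
    have hy' : y j' = 0 := by
      rcases hzero j' with h | h | h
      · exact absurd ⟨h, hy⟩ (hXY j' j h1 h2 h3 hj1 hj2 hj3)
      · exact h
      · exact absurd ⟨hy, h⟩ (hYZ j j' hj1 hj2 hj3 h1 h2 h3)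
    rw [hxyz j', hy', zero_smul, add_zero]
  · refine hasBase_of_nearPencil ha hr htri fun j' h1 h2 h3 => ⟨x j', y j', ?_⟩
    have hz' : z j' = 0 := by
      rcases hzero j' with h | h | h
      · exact absurd ⟨j', h1, h2, h3, h⟩ cX
      · exact absurd ⟨j', h1, h2, h3, h⟩ cY
      · exact h
    rw [hxyz j', hz', zero_smul, add_zero]

end Pool.Agent.Helper55_HK
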