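import Mathlib

/-! Rigid configurations of lines. -/

open Topology
open scoped Matrix

namespace Pool.Agent.Helper55_HK

/-- The determinant of three coefficient vectors, which vanishes if and only if the three lines
are concurrent (or two of them are equal). -/
def dt (u v w : Fin 3 → ℂ) : ℂ := (Matrix.of ![u, v, w]).det

/-- The same triples of lines are concurrent. -/
def SameType {ι : Type} (a b : ι → Fin 3 → ℂ) : Prop :=
  ∀ i j l, dt (a i) (a j) (a l) = 0 ↔ dt (b i) (b j) (b l) = 0

/-- There is a projective transformation which maps the lines of `a` to the lines of `b`. -/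
def ProjEquiv {ι : Type} (a b : ι → Fin 3 → ℂ) : Prop :=
  ∃ g : Matrix (Fin 3) (Fin 3) ℂ, g.det ≠ 0 ∧ ∀ i, ∃ c : ℂ, c ≠ 0 ∧ b i = c • g.mulVec (a i)

/-- A configuration of lines is rigid if all configurations near it with the same combinatorial
type are projectively equivalent to it. -/
def IsRigid {ι : Type} (a : ι → Fin 3 → ℂ) : Prop :=
  ∀ᶠ b in 𝓝 a, SameType a b → ProjEquiv a b

/-- The line `u` is one of the lines of `b`. -/
def Mem {ι : Type} (b : ι → Fin 3 → ℂ) (u : Fin 3 → ℂ) : Prop :=
  ∃ (i : ι) (r : ℂ), r ≠ 0 ∧ b i = r • u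

end Pool.Agent.Helper55_HK
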