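import Pool.Agent.Helper55_HK.Core
import Pool.Agent.Helper55_HK.Idem

/-! Factors of `x ^ n - y ^ n`, and the line field on the Hirzebruch-Kummer covering. -/

open Topology unitInterval
open scoped LinearAlgebra.Projectivization Matrix

namespace Pool.Agent.Helper55_HK

/-- The product of all factors `x - η y` of `x ^ n - y ^ n` except `x - ω y`. -/
noncomputable def cof (n : ℕ) (ω x y : ℂ) : ℂ :=
  ∏ η ∈ (Polynomial.nthRootsFinset n (1 : ℂ)).erase ω, (x - η * y)

theorem factor_mul_cof {n : ℕ} (hn : 0 < n) {ω : ℂ} (hω : ω ^ n = 1) (x y : ℂ) :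
    (x - ω * y) * cof n ω x y = x ^ n - y ^ n := by
  have hmem : ω ∈ Polynomial.nthRootsFinset n (1 : ℂ) :=
    (Polynomial.mem_nthRootsFinset hn 1).2 hω
  obtain ⟨ζ, hζ⟩ : ∃ ζ : ℂ, IsPrimitiveRoot ζ n :=
    ⟨_, Complex.isPrimitiveRoot_exp n hn.ne'⟩
  rw [cof, Finset.mul_prod_erase _ (fun η => x - η * y) hmem]
  exact (hζ.pow_sub_pow_eq_prod_sub_mul x y hn).symm

theorem cof_smul {n : ℕ} (hn : 0 < n) {ω : ℂ} (hω : ω ^ n = 1) (c x y : ℂ) :
    cof n ω (c * x) (c * y) = c ^ (n - 1) * cof n ω x y := by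
  have hmem : ω ∈ Polynomial.nthRootsFinset n (1 : ℂ) :=
    (Polynomial.mem_nthRootsFinset hn 1).2 hω
  have hcard : ((Polynomial.nthRootsFinset n (1 : ℂ)).erase ω).card = n - 1 := by
    rw [Finset.card_erase_of_mem hmem,
      (Complex.isPrimitiveRoot_exp n hn.ne').card_nthRootsFinset]
  rw [cof, cof, ← hcard, ← Finset.prod_const, ← Finset.prod_mul_distrib]
  refine Finset.prod_congr rfl fun η _ => ?_
  ring

theorem cof_zero {n : ℕ} (hn : 2 ≤ n) {ω : ℂ} (hω : ω ^ n = 1) : cof n ω 0 0 = 0 := by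
  have h0 : 0 < n := by omega
  have hmem : ω ∈ Polynomial.nthRootsFinset n (1 : ℂ) :=
    (Polynomial.mem_nthRootsFinset h0 1).2 hω
  have hcard : ((Polynomial.nthRootsFinset n (1 : ℂ)).erase ω).card = n - 1 := by
    rw [Finset.card_erase_of_mem hmem,
      (Complex.isPrimitiveRoot_exp n h0.ne').card_nthRootsFinset]
  have hne : ((Polynomial.nthRootsFinset n (1 : ℂ)).erase ω).Nonempty := by
    rw [← Finset.card_pos, hcard]
    omega
  obtain ⟨η, hη⟩ := hne
  exact Finset.prod_eq_zero hη (by simp)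

theorem continuous_cof (n : ℕ) (ω : ℂ) {Z : Type*} [TopologicalSpace Z] {f g : Z → ℂ}
    (hf : Continuous f) (hg : Continuous g) : Continuous fun z => cof n ω (f z) (g z) := by
  unfold cof
  exact continuous_finsetProd _ fun η _ => by fun_prop

/-- If both the factor and the cofactor vanish, both variables vanish. -/
theorem eq_zero_of_factor_cof {n : ℕ} {ω x y : ℂ}
    (h1 : x - ω * y = 0) (h2 : cof n ω x y = 0) : x = 0 ∧ y = 0 := by
  obtain ⟨η, hη, h3⟩ := Finset.prod_eq_zero_iff.1 h2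
  have hne : η ≠ ω := (Finset.mem_erase.1 hη).1
  have h4 : (η - ω) * y = 0 := by linear_combination h1 - h3
  rcases mul_eq_zero.1 h4 with h5 | h5
  · exact absurd (sub_eq_zero.1 h5) hne
  · refine ⟨?_, h5⟩
    rw [h5] at h1
    linear_combination h1

/-- The line field attached to a relation
`x ^ n - y ^ n = z ^ n - w ^ n` between multiples of coordinates, on the Kummer covering. -/
theorem exists_line_field {n : ℕ} (hn : 2 ≤ n) {k : ℕ} (a : Fin k → Fin 3 → ℂ)
    (T T' A B : Fin k) (κ κ' α β : ℂ) (hκ : κ ≠ 0) (hα : α ≠ 0) (hβ : β ≠ 0)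
    (hrel : ∀ v : Fin 3 → ℂ, κ' ^ n * (a T' ⬝ᵥ v) - κ ^ n * (a T ⬝ᵥ v) =
      α ^ n * (a A ⬝ᵥ v) - β ^ n * (a B ⬝ᵥ v))
    (hker : ∀ v : Fin 3 → ℂ, a T ⬝ᵥ v = 0 → a A ⬝ᵥ v = 0 → a B ⬝ᵥ v = 0 → v = 0)
    {ω₀ ω : ℂ} (hω₀ : ω₀ ^ n = 1) (hω : ω ^ n = 1) :
    ∃ Φ : C(HK n a, ℂ × ℂ →L[ℂ] ℂ × ℂ), (∀ p v, Φ p (Φ p v) = Φ p v) ∧ (∀ p, Φ p ≠ 0) ∧
      ∀ p : HK n a, ∀ g : ℂ × ℂ, Φ p g = g →
        (∀ (x : Fin k → ℂ) (c : ℂ), c ≠ 0 → p.1.1.rep = c • x →
          g.1 * (α * x A - ω * (β * x B)) = g.2 * (κ' * x T' - ω₀ * (κ * x T)) ∧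
          (x A = 0 → x B = 0 → κ' * x T' = ω₀ * (κ * x T) → g.1 = 0)) := by
  have hn0 : 0 < n := by omega
  let f1 : (Fin k → ℂ) → ℂ × ℂ := fun x =>
    (κ' * x T' - ω₀ * (κ * x T), α * x A - ω * (β * x B))
  let f2 : (Fin k → ℂ) → ℂ × ℂ := fun x =>
    (cof n ω (α * x A) (β * x B), cof n ω₀ (κ' * x T') (κ * x T))
  have hf1c : Continuous f1 := by fun_prop
  have hf2c : Continuous f2 := by
    refine Continuous.prodMk (continuous_cof n ω ?_ ?_) (continuous_cof n ω₀ ?_ ?_) <;> fun_prop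
  have hf1 : ∀ (c : ℂ) x, f1 (c • x) = c ^ 1 • f1 x := by
    intro c x
    refine Prod.ext ?_ ?_
    · simp only [f1, Pi.smul_apply, smul_eq_mul, Prod.smul_fst]
      ring
    · simp only [f1, Pi.smul_apply, smul_eq_mul, Prod.smul_snd]
      ring
  have hf2 : ∀ (c : ℂ) x, f2 (c • x) = c ^ (n - 1) • f2 x := by
    intro c x
    refine Prod.ext ?_ ?_
    · simp only [f2, Pi.smul_apply, smul_eq_mul, Prod.smul_fst]
      rw [← cof_smul hn0 hω]
      congr 1 <;> ring
    · simp only [f2, Pi.smul_apply, smul_eq_mul, Prod.smul_snd]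
      rw [← cof_smul hn0 hω₀]
      congr 1 <;> ring
  -- on the Kummer covering the two vectors are parallel and never both zero
  have hpar : ∀ x : Fin k → ℂ, ∀ v : Fin 3 → ℂ, (∀ i, x i ^ n = a i ⬝ᵥ v) →
      (f1 x).1 * (f2 x).2 = (f1 x).2 * (f2 x).1 := by
    intro x v hx
    simp only [f1, f2]
    rw [factor_mul_cof hn0 hω₀, factor_mul_cof hn0 hω, mul_pow, mul_pow, mul_pow, mul_pow,
      hx, hx, hx, hx]
    exact hrel v
  have hnz : ∀ x : Fin k → ℂ, x ≠ 0 → ∀ v : Fin 3 → ℂ, (∀ i, x i ^ n = a i ⬝ᵥ v) →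
      f1 x = 0 → f2 x ≠ 0 := by
    intro x hx0 v hx h1 h2
    have e1 := congrArg Prod.fst h1
    have e2 := congrArg Prod.snd h1
    have e3 := congrArg Prod.fst h2
    have e4 := congrArg Prod.snd h2
    simp only [f1, f2, Prod.fst_zero, Prod.snd_zero] at e1 e2 e3 e4
    obtain ⟨-, hT⟩ := eq_zero_of_factor_cof e1 e4
    obtain ⟨hA, hB⟩ := eq_zero_of_factor_cof e2 e3
    have hT0 : x T = 0 := (mul_eq_zero.1 hT).resolve_left hκ
    have hA0 : x A = 0 := (mul_eq_zero.1 hA).resolve_left hα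
    have hB0 : x B = 0 := (mul_eq_zero.1 hB).resolve_left hβ
    have hv : v = 0 := by
      refine hker v ?_ ?_ ?_
      · rw [← hx, hT0, zero_pow hn0.ne']
      · rw [← hx, hA0, zero_pow hn0.ne']
      · rw [← hx, hB0, zero_pow hn0.ne']
    apply hx0
    funext i
    have := hx i
    rw [hv, dotProduct_zero] at this
    simpa [hn0.ne'] using this
  classical
  let Φ : HK n a → (ℂ × ℂ →L[ℂ] ℂ × ℂ) := fun p =>
    if f1 p.1.1.rep = 0 then idem (f2 p.1.1.rep) else idem (f1 p.1.1.rep)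
  have hmem : ∀ p : HK n a, ∃ v : Fin 3 → ℂ, ∀ i, p.1.1.rep i ^ n = a i ⬝ᵥ v := fun p => p.2.1
  have hΦ1 : ∀ p : HK n a, f1 p.1.1.rep ≠ 0 → Φ p = idem (f1 p.1.1.rep) := by
    intro p hp
    simp only [Φ, if_neg hp]
  have hΦ2 : ∀ p : HK n a, f2 p.1.1.rep ≠ 0 → Φ p = idem (f2 p.1.1.rep) := by
    intro p hp
    by_cases h : f1 p.1.1.rep = 0
    · simp only [Φ, if_pos h]
    · rw [hΦ1 p h]
      obtain ⟨v, hv⟩ := hmem p
      exact idem_eq_of_parallel h hp (hpar _ v hv)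
  have hπ : Continuous fun p : HK n a => p.1.1 := continuous_fst.comp continuous_subtype_val
  have hcont : Continuous Φ := by
    rw [continuous_iff_continuousAt]
    intro p
    have aux : ∀ (f : (Fin k → ℂ) → ℂ × ℂ) (d : ℕ), Continuous f →
        (∀ (c : ℂ) x, f (c • x) = c ^ d • f x) →
        (∀ q : HK n a, f q.1.1.rep ≠ 0 → Φ q = idem (f q.1.1.rep)) → f p.1.1.rep ≠ 0 →
        ContinuousAt Φ p := by
      intro f d hfc hf hΦf hp
      have h1 : ContinuousAt (fun q : HK n a => idem (f q.1.1.rep)) p :=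
        ContinuousAt.comp (g := fun Q : ℙ ℂ (Fin k → ℂ) => idem (f Q.rep))
          (f := fun q : HK n a => q.1.1) (continuousAt_idem_rep hfc hf p.1.1 hp)
          hπ.continuousAt
      refine h1.congr ?_
      have h2 : {q : HK n a | idem (f q.1.1.rep) ≠ 0} ∈ 𝓝 p :=
        h1.eventually_ne (idem_ne_zero hp)
      filter_upwards [h2] with q hq
      refine (hΦf q fun h0 => hq ?_).symm
      rw [h0]
      refine ContinuousLinearMap.ext fun v => ?_
      simp [idem_apply]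
    by_cases h : f1 p.1.1.rep = 0
    · obtain ⟨v, hv⟩ := hmem p
      exact aux f2 _ hf2c hf2 hΦ2 (hnz _ p.1.1.rep_nonzero v hv h)
    · exact aux f1 _ hf1c hf1 hΦ1 h
  refine ⟨⟨Φ, hcont⟩, fun p v => ?_, fun p => ?_, fun p g hg x c hc hx => ?_⟩
  · simp only [ContinuousMap.coe_mk, Φ]
    split_ifs <;> exact idem_idem _ _
  · simp only [ContinuousMap.coe_mk]
    by_cases h : f1 p.1.1.rep = 0
    · obtain ⟨v, hv⟩ := hmem p
      have := hnz _ p.1.1.rep_nonzero v hv h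
      rw [hΦ2 p this]
      exact idem_ne_zero this
    · rw [hΦ1 p h]
      exact idem_ne_zero h
  · simp only [ContinuousMap.coe_mk] at hg
    obtain ⟨v, hv⟩ := hmem p
    constructor
    · have h1 : g.1 * (f1 p.1.1.rep).2 = g.2 * (f1 p.1.1.rep).1 := by
        by_cases h : f1 p.1.1.rep = 0
        · rw [h]
          simp
        · rw [hΦ1 p h] at hg
          exact parallel_of_idem hg
      rw [hx, hf1, pow_one] at h1
      simp only [Prod.smul_fst, Prod.smul_snd, smul_eq_mul, f1] at h1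
      have h2 : c * (g.1 * (α * x A - ω * (β * x B))) =
          c * (g.2 * (κ' * x T' - ω₀ * (κ * x T))) := by linear_combination h1
      exact mul_left_cancel₀ hc h2
    · intro hA hB hT
      have h0 : f1 p.1.1.rep = 0 := by
        rw [hx, hf1]
        have : f1 x = 0 := by
          refine Prod.ext ?_ ?_
          · simp only [f1, hT, sub_self, Prod.fst_zero]
          · simp only [f1, hA, hB, mul_zero, sub_self, Prod.snd_zero]
        rw [this, smul_zero]
      have h2 : f2 p.1.1.rep ≠ 0 := hnz _ p.1.1.rep_nonzero v hv h0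
      rw [hΦ2 p h2] at hg
      have h3 := parallel_of_idem hg
      have h4 : (f2 p.1.1.rep).1 = 0 := by
        rw [hx, hf2]
        simp only [f2, Prod.smul_fst, hA, hB, mul_zero, cof_zero hn hω, smul_zero]
      rw [h4, mul_zero] at h3
      refine (mul_eq_zero.1 h3).resolve_right fun h5 => h2 (Prod.ext h4 h5)

end Pool.Agent.Helper55_HK
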