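import Pool.Agent.Helper55_HK.Top

/-! Spheres glued from four squares, in a space with a contractible covering. -/

open Topology unitInterval

namespace Pool.Agent.Helper55_HK

/-- Four squares which glue to a sphere: the sides `x = 0` of the squares `(false, q)` and
`(true, q)` are glued, the sides `x = 1` of the squares `(p, false)` and `(p, true)` are glued,
and all sides `s = 0` are mapped to one point, as are all sides `s = 1`. -/
structure Glues {X : Type*} (S : Bool → Bool → I × I → X) : Prop where
  left : ∀ q s, S false q (0, s) = S true q (0, s)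
  right : ∀ p s, S p false (1, s) = S p true (1, s)
  bot : ∀ p q x, S p q (x, 0) = S false false (0, 0)
  top : ∀ p q x, S p q (x, 1) = S false false (0, 1)

theorem exists_contraction {X U : Type*} [TopologicalSpace X] [TopologicalSpace U]
    [ContractibleSpace U] {p : U → X} (cov : IsCoveringMap p) (hsurj : Function.Surjective p)
    (S : Bool → Bool → C(I × I, X)) (hS : Glues (fun i j => S i j)) :
    ∃ (H : Bool → Bool → C((I × I) × I, X)) (x₁ : X),
      (∀ i j z, H i j (z, 0) = S i j z) ∧ (∀ i j z, H i j (z, 1) = x₁) ∧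
      ∀ t, Glues (fun i j z => H i j (z, t)) := by
  obtain ⟨e, he⟩ := hsurj (S false false (0, 0))
  have hl : ∀ i j, ∃ F : C(I × I, U), F (0, 0) = e ∧ ∀ z, p (F z) = S i j z := fun i j =>
    lift_square cov (S i j) e (by rw [he]; exact (hS.bot i j 0).symm)
  choose F hF0 hF using hl
  -- the bottom
  have hbot : ∀ i j x, F i j (x, 0) = e := by
    intro i j x
    rw [← hF0 i j]
    refine cov.const_of_comp (g := fun x : I => F i j (x, 0)) (by fun_prop) (fun a b => ?_) x 0
    simp only [Function.comp_apply, hF]
    rw [hS.bot i j a, hS.bot i j b]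
  have hleft : ∀ j s, F false j (0, s) = F true j (0, s) := by
    intro j s
    have := cov.eq_of_comp_eq (g₁ := fun s : I => F false j (0, s))
      (g₂ := fun s : I => F true j (0, s)) (by fun_prop) (by fun_prop)
      (by funext s; simp only [Function.comp_apply, hF]; exact hS.left j s) 0
      (by rw [hF0, hF0])
    exact congrFun this s
  have hright : ∀ i s, F i false (1, s) = F i true (1, s) := by
    intro i s
    have := cov.eq_of_comp_eq (g₁ := fun s : I => F i false (1, s))
      (g₂ := fun s : I => F i true (1, s)) (by fun_prop) (by fun_prop)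
      (by funext s; simp only [Function.comp_apply, hF]; exact hS.right i s) 0
      (by rw [hbot, hbot])
    exact congrFun this s
  have htop : ∀ i j x x', F i j (x, 1) = F i j (x', 1) := by
    intro i j x x'
    refine cov.const_of_comp (g := fun x : I => F i j (x, 1)) (by fun_prop) (fun a b => ?_) x x'
    simp only [Function.comp_apply, hF]
    rw [hS.top i j a, hS.top i j b]
  have htop' : ∀ i j x, F i j (x, 1) = F false false (0, 1) := by
    intro i j x
    rcases i with _ | _ <;> rcases j with _ | _
    · exact htop _ _ _ _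
    · rw [htop false true x 1, ← hright false 1, htop false false 1 0]
    · rw [htop true false x 0, ← hleft false 1]
    · rw [htop true true x 1, ← hright true 1, htop true false 1 0, ← hleft false 1]
  -- the contraction
  obtain ⟨u₀, hu₀⟩ := (contractible_iff_id_nullhomotopic U).1 inferInstance
  obtain ⟨C⟩ := hu₀
  have hC0 : ∀ u, C (0, u) = u := fun u => C.apply_zero u
  have hC1 : ∀ u, C (1, u) = u₀ := fun u => C.apply_one u
  refine ⟨fun i j => ⟨fun w => p (C (w.2, F i j w.1)),
    cov.continuous.comp (C.continuous.comp (by fun_prop))⟩, p u₀, fun i j z => ?_,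
    fun i j z => ?_, fun t => ⟨fun q s => ?_, fun i s => ?_, fun i j x => ?_, fun i j x => ?_⟩⟩
  · simp only [ContinuousMap.coe_mk, hC0, hF]
  · simp only [ContinuousMap.coe_mk, hC1]
  · simp only [ContinuousMap.coe_mk, hleft]
  · simp only [ContinuousMap.coe_mk, hright]
  · simp only [ContinuousMap.coe_mk, hbot]
  · simp only [ContinuousMap.coe_mk]
    rw [htop' i j x]

/-- For a sphere glued from four squares in a space with a contractible covering, the pull-back
of a continuous family of non-zero idempotents has a nowhere vanishing section. -/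
theorem exists_section_sphere {X U V : Type*} [TopologicalSpace X] [TopologicalSpace U]
    [NormedAddCommGroup V] [NormedSpace ℂ V]
    [ContractibleSpace U] {p : U → X} (cov : IsCoveringMap p) (hsurj : Function.Surjective p)
    (S : Bool → Bool → C(I × I, X)) (hS : Glues (fun i j => S i j))
    (Φ : C(X, V →L[ℂ] V)) (hΦ : ∀ x v, Φ x (Φ x v) = Φ x v) (hΦ0 : ∀ x, Φ x ≠ 0) :
    ∃ g : Bool → Bool → C(I × I, V), (∀ i j z, g i j z ≠ 0) ∧
      (∀ i j z, Φ (S i j z) (g i j z) = g i j z) ∧ Glues (fun i j => g i j) := by
  obtain ⟨H, x₁, H0, H1, HG⟩ := exists_contraction cov hsurj S hS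
  obtain ⟨w, hw⟩ : ∃ w, Φ x₁ w ≠ 0 := by
    by_contra hcon
    push Not at hcon
    exact hΦ0 x₁ (ContinuousLinearMap.ext hcon)
  let P0 : (Bool × Bool) × ((I × I) × I) → (V →L[ℂ] V) := fun w => Φ (H w.1.1 w.1.2 w.2)
  have hP0 : Continuous P0 := by
    rw [continuous_prod_of_discrete_left]
    intro a
    exact Φ.continuous.comp (H a.1 a.2).continuous
  let P : C((Bool × Bool × (I × I)) × I, V →L[ℂ] V) :=
    ⟨fun e => P0 ((e.1.1, e.1.2.1), (e.1.2.2, e.2)), hP0.comp (by fun_prop)⟩
  obtain ⟨g, hg0, hg, hgg⟩ := exists_section P (fun z v => hΦ _ _) (Φ x₁ w) hw (fun z => by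
    change Φ (H _ _ (_, 1)) _ = _
    rw [H1, hΦ])
  refine ⟨fun i j => ⟨fun z => g (i, j, z), by fun_prop⟩, fun i j z => hg0 _, fun i j z => ?_,
    ⟨fun q s => ?_, fun i s => ?_, fun i j x => ?_, fun i j x => ?_⟩⟩
  · have := hg (i, j, z)
    change Φ (H i j (z, 0)) _ = _ at this
    rwa [H0] at this
  · exact hgg _ _ fun t => congrArg Φ ((HG t).left q s)
  · exact hgg _ _ fun t => congrArg Φ ((HG t).right i s)
  · exact hgg _ _ fun t => congrArg Φ ((HG t).bot i j x)
  · exact hgg _ _ fun t => congrArg Φ ((HG t).top i j x)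

end Pool.Agent.Helper55_HK
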