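import Pool.Agent.Helper55_HK.Rigid3
import Pool.Agent.Helper55_HK.Linear

/-! The staircase of lines, and the extension theorem. -/

open Topology
open scoped Matrix

namespace Pool.Agent.Helper55_HK

/-- The line `y = j`. -/
def hor (j : ℕ) : Fin 3 → ℂ := ![0, 1, -(j : ℂ)]

/-- The line `y = x + d`. -/
def dia (d : ℕ) : Fin 3 → ℂ := ![1, -1, (d : ℂ)]

/-- The lines of the staircase: the line at infinity, then `y = x`, `y = 1`, `y = x + 1`,
`y = 2`, and so on. -/
def stair (m : ℕ) : Fin 3 → ℂ :=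
  if m = 0 then ![0, 0, 1] else if m % 2 = 1 then dia (m / 2) else hor (m / 2)

/-- The line `y = - s (x + t)`. -/
def slant (s t : ℕ) : Fin 3 → ℂ := ![(s : ℂ), 1, (s : ℂ) * t]

theorem stair_zero : stair 0 = ![0, 0, 1] := rfl

theorem stair_odd (i : ℕ) : stair (2 * i + 1) = dia i := by
  have h1 : 2 * i + 1 ≠ 0 := by omega
  have h2 : (2 * i + 1) % 2 = 1 := by omega
  have h3 : (2 * i + 1) / 2 = i := by omega
  simp only [stair, if_neg h1, if_pos h2, h3]

theorem stair_even (i : ℕ) (hi : i ≠ 0) : stair (2 * i) = hor i := by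
  have h1 : 2 * i ≠ 0 := by omega
  have h2 : ¬ (2 * i) % 2 = 1 := by omega
  have h3 : (2 * i) / 2 = i := by omega
  simp only [stair, if_neg h1, if_neg h2, h3]

/-- The sign condition for the line `u`. -/
def Sgn (s t : ℕ) (u : Fin 3 → ℂ) : Prop :=
  0 < (fm u ![1, (s : ℂ), 0] / fm u ![1, -(s : ℂ), 0]).re *
    (fm u ![2 * (t : ℂ) - 1, (s : ℂ), -2] / fm u ![1, -(s : ℂ), 0]).re

theorem Sgn.ne_zero {s t : ℕ} {u : Fin 3 → ℂ} (h : Sgn s t u) : fm u ![1, -(s : ℂ), 0] ≠ 0 := by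
  intro h0
  rw [Sgn, h0, div_zero, Complex.zero_re, zero_mul] at h
  exact lt_irrefl _ h

theorem fm_smul_left (c v : Fin 3 → ℂ) (r : ℂ) : fm (r • c) v = r * fm c v := by
  rw [fm, smul_dotProduct, smul_eq_mul]

theorem ratio_smul {r : ℂ} (hr : r ≠ 0) (u v w : Fin 3 → ℂ) :
    fm (r • u) v / fm (r • u) w = fm u v / fm u w := by
  rw [fm_smul_left, fm_smul_left, mul_div_mul_left _ _ hr]

theorem Sgn.smul {s t : ℕ} {u : Fin 3 → ℂ} (h : Sgn s t u) {r : ℂ} (hr : r ≠ 0) :
    Sgn s t (r • u) := by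
  rw [Sgn, ratio_smul hr, ratio_smul hr]
  exact h

theorem sgn_hor {s t : ℕ} (hs : 0 < s) (j : ℕ) : Sgn s t (hor j) := by
  have hs' : (0 : ℝ) < s := by exact_mod_cast hs
  have hs0 : (s : ℂ) ≠ 0 := by exact_mod_cast hs.ne'
  have e1 : fm (hor j) ![1, (s : ℂ), 0] = ((s : ℝ) : ℂ) := by rw [fm_eq]; simp [hor]
  have e2 : fm (hor j) ![1, -(s : ℂ), 0] = ((-(s : ℝ) : ℝ) : ℂ) := by rw [fm_eq]; simp [hor]
  have e3 : fm (hor j) ![2 * (t : ℂ) - 1, (s : ℂ), -2] = (((s : ℝ) + 2 * j : ℝ) : ℂ) := by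
    rw [fm_eq]; simp [hor]; ring
  rw [Sgn, e1, e2, e3, ← Complex.ofReal_div, ← Complex.ofReal_div, Complex.ofReal_re,
    Complex.ofReal_re]
  refine mul_pos_of_neg_of_neg ?_ ?_
  · exact div_neg_of_pos_of_neg hs' (by linarith)
  · exact div_neg_of_pos_of_neg (by positivity) (by linarith)

theorem sgn_dia {s t : ℕ} (hs : 2 ≤ s) (hst : 2 * t ≤ s) (d : ℕ) : Sgn s t (dia d) := by
  have hs' : (2 : ℝ) ≤ s := by exact_mod_cast hs
  have hst' : 2 * (t : ℝ) ≤ s := by exact_mod_cast hst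
  have hd : (0 : ℝ) ≤ d := by positivity
  have e1 : fm (dia d) ![1, (s : ℂ), 0] = ((1 - (s : ℝ) : ℝ) : ℂ) := by
    rw [fm_eq]; simp [dia]; ring
  have e2 : fm (dia d) ![1, -(s : ℂ), 0] = ((1 + (s : ℝ) : ℝ) : ℂ) := by rw [fm_eq]; simp [dia]
  have e3 : fm (dia d) ![2 * (t : ℂ) - 1, (s : ℂ), -2] =
      ((2 * (t : ℝ) - 1 - s - 2 * d : ℝ) : ℂ) := by
    rw [fm_eq]; simp [dia]; ring
  rw [Sgn, e1, e2, e3, ← Complex.ofReal_div, ← Complex.ofReal_div, Complex.ofReal_re,
    Complex.ofReal_re]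
  refine mul_pos_of_neg_of_neg ?_ ?_
  · exact div_neg_of_neg_of_pos (by linarith) (by linarith)
  · exact div_neg_of_neg_of_pos (by linarith) (by linarith)

/-- For suitable parameters, all given lines satisfy the sign condition. -/
theorem exists_params {k : ℕ} (a : Fin k → Fin 3 → ℂ) :
    ∃ s t : ℕ, 2 ≤ s ∧ 2 * t ≤ s ∧ ∀ i, (a i 0 = 0 ∧ a i 1 = 0) ∨ Sgn s t (a i) := by
  -- vertical lines
  have h1 : ∀ᶠ t : ℕ in Filter.atTop, ∀ i, a i 0 ≠ 0 → a i 1 = 0 → ∀ s, Sgn s t (a i) := by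
    rw [Filter.eventually_all]
    intro i
    have hlim : Filter.Tendsto (fun t : ℕ => 2 * (t : ℝ) - 1) Filter.atTop Filter.atTop := by
      refine Filter.tendsto_atTop_add_const_right _ _ ?_
      exact Filter.Tendsto.const_mul_atTop two_pos tendsto_natCast_atTop_atTop
    filter_upwards [hlim.eventually_gt_atTop (2 * (a i 2 / a i 0).re)] with t ht h0 h1 s
    have e1 : fm (a i) ![1, (s : ℂ), 0] = a i 0 := by rw [fm_eq]; simp [h1]
    have e2 : fm (a i) ![1, -(s : ℂ), 0] = a i 0 := by rw [fm_eq]; simp [h1]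
    have e3 : fm (a i) ![2 * (t : ℂ) - 1, (s : ℂ), -2] / a i 0 =
        ((2 * (t : ℝ) - 1 : ℝ) : ℂ) - ((2 : ℝ) : ℂ) * (a i 2 / a i 0) := by
      rw [fm_eq]
      simp [h1]
      field_simp
      ring
    rw [Sgn, e1, e2, e3, div_self h0, Complex.one_re, one_mul, Complex.sub_re,
      Complex.ofReal_re, Complex.re_ofReal_mul]
    linarith
  obtain ⟨t, ht⟩ := h1.exists
  have h2 : ∀ᶠ s : ℕ in Filter.atTop, ∀ i, a i 1 ≠ 0 → Sgn s t (a i) := by
    rw [Filter.eventually_all]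
    intro i
    by_cases hb : a i 1 = 0
    · exact Filter.Eventually.of_forall fun s h => absurd hb h
    have hinv : Filter.Tendsto (fun s : ℕ => ((s : ℂ))⁻¹) Filter.atTop (𝓝 0) :=
      tendsto_inv_atTop_nhds_zero_nat (𝕜 := ℂ)
    have key : ∀ w : ℂ, Filter.Tendsto (fun s : ℕ => (w + s * a i 1) / (a i 0 - s * a i 1))
        Filter.atTop (𝓝 (-1)) := by
      intro w
      have h3 : Filter.Tendsto (fun s : ℕ => (w * ((s : ℂ))⁻¹ + a i 1) /
          (a i 0 * ((s : ℂ))⁻¹ - a i 1)) Filter.atTop (𝓝 ((w * 0 + a i 1) /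
            (a i 0 * 0 - a i 1))) := by
        refine Filter.Tendsto.div ?_ ?_ (by simpa using hb)
        · exact (hinv.const_mul w).add_const _
        · exact (hinv.const_mul _).sub_const _
      have h4 : (w * 0 + a i 1) / (a i 0 * 0 - a i 1) = -1 := by
        rw [mul_zero, mul_zero, zero_add, zero_sub, div_neg, div_self hb]
      rw [h4] at h3
      refine h3.congr' ?_
      filter_upwards [Filter.eventually_ge_atTop 1] with s hs
      have hs0 : (s : ℂ) ≠ 0 := by
        have : s ≠ 0 := by omega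
        exact_mod_cast this
      have e1 : w * ((s : ℂ))⁻¹ + a i 1 = (w + s * a i 1) * ((s : ℂ))⁻¹ := by field_simp
      have e2 : a i 0 * ((s : ℂ))⁻¹ - a i 1 = (a i 0 - s * a i 1) * ((s : ℂ))⁻¹ := by field_simp
      rw [e1, e2, mul_div_mul_right _ _ (inv_ne_zero hs0)]
    have h6 : ∀ w : ℂ, ∀ᶠ s : ℕ in Filter.atTop,
        ((w + s * a i 1) / (a i 0 - s * a i 1)).re < 0 := by
      intro w
      have h7 := (Complex.continuous_re.tendsto (-1)).comp (key w)
      exact h7.eventually_lt_const (by simp)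
    filter_upwards [h6 (a i 0), h6 ((2 * (t : ℂ) - 1) * a i 0 - 2 * a i 2)] with s h7 h8 _
    have e1 : fm (a i) ![1, (s : ℂ), 0] = a i 0 + s * a i 1 := by rw [fm_eq]; simp; ring
    have e2 : fm (a i) ![1, -(s : ℂ), 0] = a i 0 - s * a i 1 := by rw [fm_eq]; simp; ring
    have e3 : fm (a i) ![2 * (t : ℂ) - 1, (s : ℂ), -2] =
        (2 * (t : ℂ) - 1) * a i 0 - 2 * a i 2 + s * a i 1 := by
      rw [fm_eq]
      simp
      ring
    rw [Sgn, e1, e2, e3]
    exact mul_pos_of_neg_of_neg h7 h8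
  obtain ⟨s, hs, hs2⟩ := (h2.and (Filter.eventually_ge_atTop (max 2 (2 * t)))).exists
  refine ⟨s, t, le_trans (le_max_left _ _) hs2, le_trans (le_max_right _ _) hs2, fun i => ?_⟩
  by_cases h0 : a i 0 = 0
  · by_cases h1 : a i 1 = 0
    · exact Or.inl ⟨h0, h1⟩
    · exact Or.inr (hs i h1)
  · by_cases h1 : a i 1 = 0
    · exact Or.inr (ht i h0 h1 s)
    · exact Or.inr (hs i h1)

/-- The lines which occur in the construction. -/
def InFam {k : ℕ} (a : Fin k → Fin 3 → ℂ) (s t : ℕ) (u : Fin 3 → ℂ) : Prop :=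
  ∃ r : ℂ, r ≠ 0 ∧ ((∃ i, u = r • a i) ∨ (∃ m, u = r • stair m) ∨ u = r • slant s t)

/-- The configurations which occur in the construction. -/
structure Good {k : ℕ} (a : Fin k → Fin 3 → ℂ) (s t : ℕ) {m : ℕ} (b : Fin m → Fin 3 → ℂ)
    (q : ℕ) : Prop where
  cfg : IsConfig b
  rig : IsRigid b
  mem : ∀ i, Mem b (a i)
  st : ∀ p, p < q → Mem b (stair p)
  fam : ∀ j, InFam a s t (b j)

theorem mem_trans {ι κ : Type} {a : ι → Fin 3 → ℂ} {b : κ → Fin 3 → ℂ}
    (h : ∀ i, Mem b (a i)) {u : Fin 3 → ℂ} (hu : Mem a u) : Mem b u := by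
  obtain ⟨i, r, hr, hi⟩ := hu
  obtain ⟨j, s, hs, hj⟩ := h i
  exact ⟨j, s * r, mul_ne_zero hs hr, by rw [hj, hi, smul_smul]⟩

/-- The lines `x = 0`, `x = 1`, `y = 0`, `y = 1` belong to `a`. -/
structure Base {k : ℕ} (a : Fin k → Fin 3 → ℂ) : Prop where
  x0 : Mem a ![1, 0, 0]
  x1 : Mem a ![1, 0, -1]
  y0 : Mem a ![0, 1, 0]
  y1 : Mem a ![0, 1, -1]

theorem stair_ne_zero (m : ℕ) : stair m ≠ 0 := by
  intro h
  rcases Nat.even_or_odd' m with ⟨i, hi | hi⟩
  · by_cases h0 : i = 0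
    · subst h0
      rw [hi] at h
      exact one_ne_zero (congrFun h 2)
    · rw [hi, stair_even i h0] at h
      exact one_ne_zero (congrFun h 1)
  · rw [hi, stair_odd] at h
    exact one_ne_zero (congrFun h 0)

/-- Adding the next line of the staircase. -/
theorem Good.snoc_stair {k : ℕ} {a : Fin k → Fin 3 → ℂ} (hbase : Base a) {s t : ℕ} {m : ℕ}
    {b : Fin m → Fin 3 → ℂ} {q : ℕ} (h : Good a s t b q) (hnot : ¬ Mem b (stair q)) :
    Good a s t (Fin.snoc (α := fun _ => Fin 3 → ℂ) b (stair q)) (q + 1) := by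
  have x0 := mem_trans h.mem hbase.x0
  have x1 := mem_trans h.mem hbase.x1
  have y0 := mem_trans h.mem hbase.y0
  have y1 := mem_trans h.mem hbase.y1
  refine ⟨isConfig_snoc h.cfg (stair_ne_zero q) hnot, ?_, fun i => mem_snoc_of_mem (h.mem i),
    fun p hp => ?_, fun j => ?_⟩
  · rcases Nat.even_or_odd' q with ⟨i, hi | hi⟩
    · by_cases h0 : i = 0
      · -- the line at infinity
        subst h0
        subst hi
        refine isRigid_snoc h.rig x0 x1 y0 y1 (stair_ne_zero _) ?_ ?_ ?_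
        · simp [dt_eq, stair_zero]
        · simp [dt_eq, stair_zero]
        · refine linearIndependent_of_fm (s := ![0, 1, 0]) (t := ![1, 0, 0]) ?_ ?_ ?_ <;>
            rw [fm_cross] <;> simp [dt_eq]
      · -- a horizontal line
        have hst0 : Mem b (stair 0) := h.st 0 (by omega)
        obtain ⟨i', rfl⟩ : ∃ i', i = i' + 1 := ⟨i - 1, by omega⟩
        have hdia : Mem b (dia i') := by
          have := h.st (2 * i' + 1) (by omega)
          rwa [stair_odd] at this
        subst hi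
        rw [stair_even _ h0]
        refine isRigid_snoc h.rig x1 hdia hst0 y0 ?_ ?_ ?_ ?_
        · rw [← stair_even _ h0]; exact stair_ne_zero _
        · simp [dt_eq, hor, dia]
        · simp [dt_eq, hor, stair_zero]
        · refine linearIndependent_of_fm (s := ![0, 0, 1]) (t := ![1, 0, 0]) ?_ ?_ ?_ <;>
            rw [fm_cross] <;> simp [dt_eq, dia, stair_zero]
    · subst hi
      rw [stair_odd]
      by_cases h0 : i = 0
      · -- the diagonal
        subst h0
        refine isRigid_snoc h.rig x0 y0 x1 y1 ?_ ?_ ?_ ?_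
        · rw [← stair_odd]; exact stair_ne_zero _
        · simp [dt_eq, dia]
        · simp [dt_eq, dia]
        · refine linearIndependent_of_fm (s := ![1, 0, -1]) (t := ![1, 0, 0]) ?_ ?_ ?_ <;>
            rw [fm_cross] <;> simp [dt_eq]
      · have hst0 : Mem b (stair 0) := h.st 0 (by omega)
        have hdia : Mem b (dia 0) := by
          have := h.st (2 * 0 + 1) (by omega)
          rwa [stair_odd] at this
        have hhor : Mem b (hor i) := by
          have := h.st (2 * i) (by omega)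
          rwa [stair_even _ h0] at this
        refine isRigid_snoc h.rig x0 hhor hst0 hdia ?_ ?_ ?_ ?_
        · rw [← stair_odd]; exact stair_ne_zero _
        · simp [dt_eq, hor, dia]
        · simp [dt_eq, dia, stair_zero]
        · refine linearIndependent_of_fm (s := ![0, 0, 1]) (t := ![1, 0, 0]) ?_ ?_ ?_ <;>
            rw [fm_cross] <;> simp [dt_eq, dia, hor, stair_zero]
  · rcases Nat.lt_succ_iff_lt_or_eq.1 hp with hp | rfl
    · exact mem_snoc_of_mem (h.st p hp)
    · exact mem_snoc_self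
  · refine Fin.lastCases ?_ (fun j => ?_) j
    · rw [Fin.snoc_last]
      exact ⟨1, one_ne_zero, Or.inr (Or.inl ⟨q, (one_smul _ _).symm⟩)⟩
    · rw [Fin.snoc_castSucc]
      exact h.fam j

/-- Adding the slanted line. -/
theorem Good.snoc_slant {k : ℕ} {a : Fin k → Fin 3 → ℂ} (hbase : Base a) {s t : ℕ} {m : ℕ}
    {b : Fin m → Fin 3 → ℂ} {q : ℕ} (h : Good a s t b q) (hs : s ≠ 0)
    (hq : 2 * (s + t + 1) + 1 < q) (hnot : ¬ Mem b (slant s t)) :
    Good a s t (Fin.snoc (α := fun _ => Fin 3 → ℂ) b (slant s t)) q := by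
  have y0 := mem_trans h.mem hbase.y0
  have hne : slant s t ≠ 0 := fun h0 => one_ne_zero (congrFun h0 1)
  refine ⟨isConfig_snoc h.cfg hne hnot, ?_, fun i => mem_snoc_of_mem (h.mem i),
    fun p hp => mem_snoc_of_mem (h.st p hp), fun j => ?_⟩
  · have hdia : ∀ i, i ≤ s + t + 1 → Mem b (dia i) := fun i hi => by
      have := h.st (2 * i + 1) (by omega)
      rwa [stair_odd] at this
    have hhor : Mem b (hor s) := by
      have := h.st (2 * s) (by omega)
      rwa [stair_even _ hs] at this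
    refine isRigid_snoc h.rig y0 (hdia t (by omega)) hhor (hdia (s + t + 1) le_rfl) hne
      ?_ ?_ ?_
    · simp [dt_eq, dia, slant]; ring
    · simp [dt_eq, dia, slant, hor]; ring
    · have hs' : (s : ℂ) ≠ 0 := by exact_mod_cast hs
      refine linearIndependent_of_fm (s := hor s) (t := ![0, 0, 1]) ?_ ?_ ?_ <;>
        rw [fm_cross] <;> simp [dt_eq, dia, hor, hs'] <;> ring
  · refine Fin.lastCases ?_ (fun j => ?_) j
    · rw [Fin.snoc_last]
      exact ⟨1, one_ne_zero, Or.inr (Or.inr (one_smul _ _).symm)⟩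
    · rw [Fin.snoc_castSucc]
      exact h.fam j

/-- The sign criterion for the configurations of the construction. -/
theorem Good.linearBigon {k : ℕ} {a : Fin k → Fin 3 → ℂ} (hbase : Base a) {s t : ℕ}
    (hs : 2 ≤ s) (hst : 2 * t ≤ s) (ha : ∀ i, (a i 0 = 0 ∧ a i 1 = 0) ∨ Sgn s t (a i))
    {m : ℕ} {b : Fin m → Fin 3 → ℂ} {q : ℕ} (h : Good a s t b q) (hq : 0 < q)
    (hB : Mem b (slant s t)) : LinearBigon b := by
  obtain ⟨A, rA, hrA, hA⟩ := h.st 0 hq
  obtain ⟨B, rB, hrB, hB⟩ := hB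
  have hs0 : (s : ℂ) ≠ 0 := by
    have : s ≠ 0 := by omega
    exact_mod_cast this
  -- lines proportional to each other
  have hprop : ∀ i j (c : ℂ), b i = c • b j → i = j := by
    intro i j c hc
    by_contra hij
    have := h.cfg.distinct i j hij
    have h1 := LinearIndependent.pair_iff.1 this 1 (-c) (by rw [hc]; module)
    exact one_ne_zero h1.1
  have hiA : ∀ i (c : ℂ), b i = c • stair 0 → i = A := by
    intro i c hc
    refine hprop i A (c * rA⁻¹) ?_
    rw [hA, hc, smul_smul, mul_assoc, inv_mul_cancel₀ hrA, mul_one]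
  have hiB : ∀ i (c : ℂ), b i = c • slant s t → i = B := by
    intro i c hc
    refine hprop i B (c * rB⁻¹) ?_
    rw [hB, hc, smul_smul, mul_assoc, inv_mul_cancel₀ hrB, mul_one]
  have hSgn : ∀ i, i ≠ A → i ≠ B → Sgn s t (b i) := by
    intro i hA' hB'
    obtain ⟨r, hr, ⟨i', hi'⟩ | ⟨p, hp⟩ | hsl⟩ := h.fam i
    · rcases ha i' with ⟨h0, h1⟩ | hsg
      · exfalso
        apply hA'
        refine hiA i (r * a i' 2) ?_
        rw [hi', stair_zero]
        funext l
        fin_cases l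
        · simp [h0]
        · simp [h1]
        · simp
      · rw [hi']
        exact hsg.smul hr
    · rcases Nat.even_or_odd' p with ⟨l, hl | hl⟩
      · by_cases h0 : l = 0
        · subst h0
          exact absurd (hiA i r (by rw [hp, hl])) hA'
        · rw [hp, hl, stair_even l h0]
          exact (sgn_hor (by omega) l).smul hr
      · rw [hp, hl, stair_odd]
        exact (sgn_dia hs hst l).smul hr
    · exact absurd (hiB i r hsl) hB'
  have hAB : A ≠ B := by
    intro hAB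
    have h1 : rA • stair 0 = rB • slant s t := by rw [← hA, ← hB, hAB]
    have h2 := congrFun h1 1
    simp [stair_zero, slant] at h2
    exact hrB h2.symm
  have x0 := mem_trans h.mem hbase.x0
  have y0 := mem_trans h.mem hbase.y0
  obtain ⟨i₁, r₁, hr₁, hi₁⟩ := x0
  obtain ⟨i₂, r₂, hr₂, hi₂⟩ := y0
  have hAo : fm (b A) ![1, -(s : ℂ), 0] = 0 := by
    rw [hA, fm_smul_left, fm_eq]; simp [stair_zero]
  have hBo : fm (b B) ![1, -(s : ℂ), 0] = 0 := by
    rw [hB, fm_smul_left, fm_eq]; simp [slant]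
  refine ⟨A, B, ![1, -(s : ℂ), 0], ![1, (s : ℂ), 0], ![2 * (t : ℂ) - 1, (s : ℂ), -2], hAB,
    fun i => ⟨fun h0 => ?_, ?_⟩, ?_, ?_, fun i hA' hB' => hSgn i hA' hB', ⟨i₁, ?_, ?_, ?_⟩,
    ⟨i₂, ?_, ?_, ?_⟩⟩
  · by_contra hcon
    push Not at hcon
    exact (hSgn i hcon.1 hcon.2).ne_zero h0
  · rintro (rfl | rfl)
    · exact hAo
    · exact hBo
  · rw [hA, fm_smul_left, fm_eq]; simp [stair_zero]
  · rw [hB, fm_smul_left, fm_eq]; simp [slant]; right; ring
  · rintro rfl
    rw [hi₁, fm_smul_left, fm_eq] at hAo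
    simp at hAo
    exact hr₁ hAo
  · rintro rfl
    rw [hi₁, fm_smul_left, fm_eq] at hBo
    simp at hBo
    exact hr₁ hBo
  · rw [hi₁, ratio_smul hr₁, fm_eq, fm_eq]; simp
  · rintro rfl
    rw [hi₂, fm_smul_left, fm_eq] at hAo
    simp [hs0] at hAo
    exact hr₂ hAo
  · rintro rfl
    rw [hi₂, fm_smul_left, fm_eq] at hBo
    simp [hs0] at hBo
    exact hr₂ hBo
  · rw [hi₂, ratio_smul hr₂, fm_eq, fm_eq]
    simp [hs0]

theorem not_all_mem {m : ℕ} {b : Fin m → Fin 3 → ℂ} (hb : ∀ p, Mem b (stair p)) : False := by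
  choose f r hr hf using fun p : ℕ => hb (2 * (p + 1))
  have hinj : Function.Injective f := by
    intro p q hpq
    have h1 : r p • stair (2 * (p + 1)) = r q • stair (2 * (q + 1)) := by
      rw [← hf, ← hf, hpq]
    rw [stair_even _ (Nat.succ_ne_zero p), stair_even _ (Nat.succ_ne_zero q)] at h1
    have h2 := congrFun h1 1
    have h3 := congrFun h1 2
    simp [hor] at h2 h3
    rw [h2] at h3
    have h4 : (-1 + -(p : ℂ)) = -1 + -(q : ℂ) := mul_left_cancel₀ (hr q) h3
    have h5 : (p : ℂ) = q := by linear_combination -h4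
    exact_mod_cast h5
  exact not_injective_infinite_finite f hinj

/-- The extension theorem in normalised coordinates. -/
theorem exists_extension_of_base {k : ℕ} {a : Fin k → Fin 3 → ℂ} (ha : IsConfig a)
    (hr : IsRigid a) (hbase : Base a) : ∃ N, ∀ m, N ≤ m → ∃ b : Fin m → Fin 3 → ℂ,
      IsConfig b ∧ IsRigid b ∧ (∀ i, Mem b (a i)) ∧ LinearBigon b := by
  obtain ⟨s, t, hs, hst, hsgn⟩ := exists_params a
  have h0 : Good a s t a 0 := ⟨ha, hr, mem_self a, fun p hp => absurd hp (Nat.not_lt_zero p),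
    fun j => ⟨1, one_ne_zero, Or.inl ⟨j, (one_smul _ _).symm⟩⟩⟩
  have hsame : ∀ {m : ℕ} {b : Fin m → Fin 3 → ℂ} {q : ℕ}, Good a s t b q → Mem b (stair q) →
      Good a s t b (q + 1) := by
    intro m b q h hm
    refine ⟨h.cfg, h.rig, h.mem, fun p hp => ?_, h.fam⟩
    rcases Nat.lt_succ_iff_lt_or_eq.1 hp with hp | rfl
    · exact h.st p hp
    · exact hm
  have hall : ∀ q, ∃ (m : ℕ) (b : Fin m → Fin 3 → ℂ), Good a s t b q := by
    intro q
    induction q with
    | zero => exact ⟨k, a, h0⟩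
    | succ q ih =>
      obtain ⟨m, b, hb⟩ := ih
      by_cases hm : Mem b (stair q)
      · exact ⟨m, b, hsame hb hm⟩
      · exact ⟨m + 1, _, hb.snoc_stair hbase hm⟩
  obtain ⟨N, b₀, q₀, hb₀, hq₀, hB₀⟩ : ∃ (m : ℕ) (b : Fin m → Fin 3 → ℂ) (q : ℕ),
      Good a s t b q ∧ 0 < q ∧ Mem b (slant s t) := by
    obtain ⟨m, b, hb⟩ := hall (2 * (s + t + 1) + 2)
    by_cases hm : Mem b (slant s t)
    · exact ⟨m, b, _, hb, by omega, hm⟩
    · exact ⟨m + 1, _, _, hb.snoc_slant hbase (by omega) (by omega) hm, by omega,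
        mem_snoc_self⟩
  refine ⟨N, fun m hm => ?_⟩
  obtain ⟨b, q, hb, hq, hB⟩ : ∃ (b : Fin m → Fin 3 → ℂ) (q : ℕ), Good a s t b q ∧ 0 < q ∧
      Mem b (slant s t) := by
    induction m, hm using Nat.le_induction with
    | base => exact ⟨b₀, q₀, hb₀, hq₀, hB₀⟩
    | succ m _ ih =>
      obtain ⟨b, q, hb, hq, hB⟩ := ih
      obtain ⟨q', hb', hqq', hnot⟩ : ∃ q', Good a s t b q' ∧ q ≤ q' ∧ ¬ Mem b (stair q') := by
        by_contra hcon
        push Not at hcon
        have h1 : ∀ d, Good a s t b (q + d) := by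
          intro d
          induction d with
          | zero => exact hb
          | succ d ih => exact hsame ih (hcon _ ih (Nat.le_add_right q d))
        exact not_all_mem fun p => (h1 (p + 1)).st p (by omega)
      exact ⟨_, q' + 1, hb'.snoc_stair hbase hnot, by omega, mem_snoc_of_mem hB⟩
  exact ⟨b, hb.cfg, hb.rig, hb.mem, hb.linearBigon hbase hs hst hsgn hq hB⟩

end Pool.Agent.Helper55_HK
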