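import Mathlib

/-! Topological lemmas: lifting, logarithms, roots, winding numbers. -/

open Topology unitInterval

namespace Pool.Agent.Helper55_HK

/-- The retraction of the plane onto the unit square. -/
noncomputable def sq : C(ℝ × ℝ, I × I) :=
  ⟨fun z => (Set.projIcc 0 1 zero_le_one z.1, Set.projIcc 0 1 zero_le_one z.2),
    by fun_prop⟩

/-- The inclusion of the unit square. -/
def inc : C(I × I, ℝ × ℝ) := ⟨fun z => ((z.1 : ℝ), (z.2 : ℝ)), by fun_prop⟩

@[simp] theorem sq_inc (z : I × I) : sq (inc z) = z := by
  simp [sq, inc]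

theorem lift_square {E X : Type*} [TopologicalSpace E] [TopologicalSpace X] {p : E → X}
    (cov : IsCoveringMap p) (f : C(I × I, X)) (e : E) (he : p e = f (0, 0)) :
    ∃ F : C(I × I, E), F (0, 0) = e ∧ ∀ z, p (F z) = f z := by
  have h0 : sq (0, 0) = (0, 0) := by
    have := sq_inc (0, 0)
    simpa [inc] using this
  obtain ⟨F, ⟨hF0, hF⟩, -⟩ := cov.existsUnique_continuousMap_lifts (f.comp sq) (0, 0) e
    (by simp [h0, he])
  refine ⟨F.comp inc, ?_, fun z => ?_⟩
  · simpa [inc] using hF0
  · have := congrFun hF (inc z)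
    simpa using this

theorem exists_log_square (f : C(I × I, ℂ)) (hf : ∀ z, f z ≠ 0) :
    ∃ g : C(I × I, ℂ), ∀ z, Complex.exp (g z) = f z := by
  let f' : C(I × I, {z : ℂ // z ≠ 0}) := ⟨fun z => ⟨f z, hf z⟩, by fun_prop⟩
  obtain ⟨F, -, hF⟩ := lift_square Complex.isCoveringMap_exp f' (Complex.log (f (0, 0)))
    (Subtype.ext (Complex.exp_log (hf _)))
  exact ⟨F, fun z => congrArg Subtype.val (hF z)⟩

theorem exists_log_interval (f : C(I, ℂ)) (hf : ∀ z, f z ≠ 0) :
    ∃ g : C(I, ℂ), ∀ z, Complex.exp (g z) = f z := by
  obtain ⟨g, hg⟩ := exists_log_square (f.comp ⟨Prod.fst, continuous_fst⟩) (fun z => hf _)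
  exact ⟨g.comp ⟨fun x => (x, 0), by fun_prop⟩, fun z => hg (z, 0)⟩

/-- A continuous function on a connected space whose exponential is constant is constant. -/
theorem const_of_exp_const {Z : Type*} [TopologicalSpace Z] [PreconnectedSpace Z] {g : Z → ℂ}
    (hg : Continuous g) (h : ∀ z z', Complex.exp (g z) = Complex.exp (g z')) (z z' : Z) :
    g z = g z' := by
  have := Complex.isCoveringMap_exp.const_of_comp (g := g) hg
    (fun a b => Subtype.ext (h a b)) z z'
  exact this

/-- Two logarithms of the same function have the same increments. -/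
theorem log_increment {Z : Type*} [TopologicalSpace Z] [PreconnectedSpace Z] {g h : Z → ℂ}
    (hg : Continuous g) (hh : Continuous h) (c : ℂ)
    (e : ∀ z, Complex.exp (g z) = c * Complex.exp (h z)) (z z' : Z) :
    g z - g z' = h z - h z' := by
  have key := const_of_exp_const (g := fun z => g z - h z) (hg.sub hh) (fun a b => by
    rw [Complex.exp_sub, Complex.exp_sub, e, e, mul_div_assoc, mul_div_assoc,
      div_self (Complex.exp_ne_zero _), div_self (Complex.exp_ne_zero _)]) z z'
  linear_combination key

/-- Continuous `n`-th roots of functions on the square whose non-zero set is convex. -/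
theorem exists_root_square {n : ℕ} (hn : n ≠ 0) (f : C(I × I, ℂ))
    (hU : Convex ℝ {z : ℝ × ℝ | f (sq z) ≠ 0}) :
    ∃ g : C(I × I, ℂ), ∀ z, g z ^ n = f z := by
  by_cases hne : {z : ℝ × ℝ | f (sq z) ≠ 0}.Nonempty
  · have hopen : IsOpen {z : ℝ × ℝ | f (sq z) ≠ 0} :=
      isOpen_ne_fun (f.continuous.comp sq.continuous) continuous_const
    have hsc : IsSimplyConnected {z : ℝ × ℝ | f (sq z) ≠ 0} := by
      have := hU.contractibleSpace hne
      exact (inferInstance : SimplyConnectedSpace {z : ℝ × ℝ | f (sq z) ≠ 0})
    obtain ⟨g, hg, hgn⟩ := Complex.exists_continuousOn_pow_eq hsc hopen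
      (g := fun z => f (sq z)) (f.continuous.comp sq.continuous).continuousOn
      (by rintro ⟨z, hz, h0⟩; exact hz h0) hn
    have hcont : Continuous g := by
      rw [continuous_iff_continuousAt]
      intro z
      by_cases hz : f (sq z) = 0
      · have hgz : g z = 0 := by
          have := hgn z
          rw [hz] at this
          exact pow_eq_zero_iff hn |>.1 this
        rw [ContinuousAt, hgz, tendsto_zero_iff_norm_tendsto_zero]
        have h1 : ∀ w, ‖g w‖ = ‖f (sq w)‖ ^ ((n : ℝ)⁻¹) := by
          intro w
          rw [← hgn w, norm_pow, ← Real.rpow_natCast, ← Real.rpow_mul (norm_nonneg _),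
            mul_inv_cancel₀ (by exact_mod_cast hn), Real.rpow_one]
        have h2 : Continuous fun w => ‖f (sq w)‖ ^ ((n : ℝ)⁻¹) := by
          refine (f.continuous.comp sq.continuous).norm.rpow_const fun w => Or.inr (by positivity)
        have h3 := h2.tendsto z
        simp only [hz, norm_zero] at h3
        rw [Real.zero_rpow (by positivity)] at h3
        simpa [h1] using h3
      · exact hg.continuousAt (hopen.mem_nhds hz)
    exact ⟨⟨fun z => g (inc z), hcont.comp inc.continuous⟩, fun z => by
      have := hgn (inc z)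
      simpa using this⟩
  · refine ⟨0, fun z => ?_⟩
    have : f (sq (inc z)) = 0 := by
      by_contra h
      exact hne ⟨_, h⟩
    rw [sq_inc] at this
    simp [this, hn]

/-- Four nonvanishing functions on the square which glue to a function on a disc (the bottom side
is collapsed to the centre) have total winding number zero along the top. -/
theorem winding_zero (G : Bool → Bool → C(I × I, ℂ)) (hG : ∀ p q z, G p q z ≠ 0)
    (h0 : ∀ q s, G false q (0, s) = G true q (0, s))
    (h1 : ∀ p s, G p false (1, s) = G p true (1, s))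
    (h2 : ∀ p q x, G p q (x, 0) = G p q (0, 0))
    (N : Bool → Bool → C(I, ℂ)) (hN : ∀ p q x, Complex.exp (N p q x) = G p q (x, 1)) :
    (N false false 1 - N false false 0) - (N false true 1 - N false true 0)
      - (N true false 1 - N true false 0) + (N true true 1 - N true true 0) = 0 := by
  choose M hM using fun p q => exists_log_square (G p q) (hG p q)
  have key : ∀ s s' : I,
      (M false false (1, s) - M false false (0, s)) - (M false true (1, s) - M false true (0, s))
        - (M true false (1, s) - M true false (0, s)) + (M true true (1, s) - M true true (0, s))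
      = (M false false (1, s') - M false false (0, s'))
        - (M false true (1, s') - M false true (0, s'))
        - (M true false (1, s') - M true false (0, s'))
        + (M true true (1, s') - M true true (0, s')) := by
    refine const_of_exp_const (by fun_prop) fun s s' => ?_
    have aux : ∀ s : I, Complex.exp ((M false false (1, s) - M false false (0, s))
        - (M false true (1, s) - M false true (0, s))
        - (M true false (1, s) - M true false (0, s))
        + (M true true (1, s) - M true true (0, s))) = 1 := by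
      intro s
      simp only [Complex.exp_add, Complex.exp_sub, hM]
      rw [h0 false s, h0 true s, h1 false s, h1 true s]
      have e1 := hG false true (1, s)
      have e2 := hG true true (1, s)
      have e3 := hG true false (0, s)
      have e4 := hG true true (0, s)
      field_simp
    rw [aux, aux]
  have hc : ∀ p q, M p q (1, 0) = M p q (0, 0) := fun p q =>
    const_of_exp_const (g := fun x : I => M p q (x, 0)) (by fun_prop)
      (fun x x' => by simp only [hM]; rw [h2 p q x, h2 p q x']) 1 0
  have h3 := key 1 0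
  simp only [hc, sub_self, add_zero] at h3
  have h4 : ∀ p q, N p q 1 - N p q 0 = M p q (1, 1) - M p q (0, 1) := fun p q =>
    log_increment (g := fun x : I => N p q x) (h := fun x : I => M p q (x, 1))
      (N p q).continuous (by fun_prop) 1 (fun x => by rw [one_mul, hN, hM]) 1 0
  simp only [h4]
  exact h3

/-- A continuous family of idempotents over `E × [0,1]` which is constant at time `1` has a
nowhere vanishing section at time `0`, compatible with all identifications. -/
theorem exists_section {E V : Type*} [TopologicalSpace E] [CompactSpace E]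
    [NormedAddCommGroup V] [NormedSpace ℂ V]
    (P : C(E × I, V →L[ℂ] V)) (hP : ∀ z v, P z (P z v) = P z v)
    (v₁ : V) (hv : v₁ ≠ 0) (h1 : ∀ z, P (z, 1) v₁ = v₁) :
    ∃ g : C(E, V), (∀ z, g z ≠ 0) ∧ (∀ z, P (z, 0) (g z) = g z) ∧
      ∀ z z', (∀ t, P (z, t) = P (z', t)) → g z = g z' := by
  -- uniform continuity in the time variable
  obtain ⟨N, hN0, hN⟩ : ∃ N : ℕ, 0 < N ∧ ∀ z : E, ∀ t t' : I, |(t : ℝ) - t'| ≤ 1 / N →
      ‖P (z, t) - P (z, t')‖ < 1 := by
    let Pc : C(I, C(E, V →L[ℂ] V)) := (P.comp ⟨Prod.swap, continuous_swap⟩).curry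
    have huc : @UniformContinuous _ _ _ PseudoMetricSpace.toUniformSpace Pc :=
      CompactSpace.uniformContinuous_of_continuous Pc.continuous
    rw [Metric.uniformContinuous_iff] at huc
    obtain ⟨δ, hδ, h⟩ := huc 1 one_pos
    obtain ⟨N, hN⟩ := exists_nat_one_div_lt hδ
    refine ⟨N + 1, Nat.succ_pos _, fun z t t' htt => ?_⟩
    have h1 : dist t t' < δ := by
      rw [Subtype.dist_eq, Real.dist_eq]
      refine lt_of_le_of_lt htt ?_
      push_cast
      exact hN
    have h2 := h h1
    have h3 := ContinuousMap.dist_apply_le_dist (f := Pc t) (g := Pc t') z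
    rw [← dist_eq_norm]
    exact lt_of_le_of_lt h3 h2
  have hNr : (0 : ℝ) < N := by exact_mod_cast hN0
  -- the times
  let τ : ℕ → I := fun i => Set.projIcc 0 1 zero_le_one (1 - (i : ℝ) / N)
  have hτ : ∀ i, |(τ i : ℝ) - τ (i + 1)| ≤ 1 / N := by
    intro i
    have h := Set.abs_projIcc_sub_projIcc (a := (0 : ℝ)) (b := 1) (h := zero_le_one)
      (c := 1 - (i : ℝ) / N) (d := 1 - ((i + 1 : ℕ) : ℝ) / N)
    refine h.trans (le_of_eq ?_)
    have : (1 - (i : ℝ) / N) - (1 - ((i + 1 : ℕ) : ℝ) / N) = 1 / N := by
      push_cast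
      field_simp
      ring
    rw [this, abs_of_pos (by positivity)]
  have hτ0 : τ 0 = 1 := by
    simp [τ]
  have hτN : τ N = 0 := by
    have : (1 : ℝ) - (N : ℝ) / N = 0 := by
      rw [div_self hNr.ne', sub_self]
    simp [τ, this]
  -- the recursion
  let g : ℕ → C(E, V) := fun i => Nat.rec (ContinuousMap.const E v₁)
    (fun i gi => ⟨fun z => P (z, τ (i + 1)) (gi z), by fun_prop⟩) i
  have hg : ∀ i, (∀ z, g i z ≠ 0) ∧ (∀ z, P (z, τ i) (g i z) = g i z) ∧
      ∀ z z', (∀ t, P (z, t) = P (z', t)) → g i z = g i z' := by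
    intro i
    induction i with
    | zero => exact ⟨fun z => hv, fun z => by rw [hτ0]; exact h1 z, fun _ _ _ => rfl⟩
    | succ i ih =>
      obtain ⟨ih1, ih2, ih3⟩ := ih
      have hs : ∀ z, g (i + 1) z = P (z, τ (i + 1)) (g i z) := fun z => rfl
      refine ⟨fun z h0 => ?_, fun z => ?_, fun z z' hz => ?_⟩
      · rw [hs] at h0
        have h2 := hN z (τ i) (τ (i + 1)) (hτ i)
        have h3 : ‖(P (z, τ i) - P (z, τ (i + 1))) (g i z)‖ = ‖g i z‖ := by
          rw [_root_.sub_apply, ih2, h0, sub_zero]
        have h4 := (P (z, τ i) - P (z, τ (i + 1))).le_opNorm (g i z)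
        rw [h3] at h4
        have h5 : 0 < ‖g i z‖ := norm_pos_iff.2 (ih1 z)
        nlinarith
      · rw [hs, hP]
      · rw [hs, hs, hz, ih3 z z' hz]
  refine ⟨g N, (hg N).1, fun z => ?_, (hg N).2.2⟩
  have := (hg N).2.1 z
  rwa [hτN] at this

end Pool.Agent.Helper55_HK
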