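import Pool.Agent.Helper55_HK.Crossing

/-! Triangles in line configurations. -/

open Topology unitInterval
open scoped LinearAlgebra.Projectivization Matrix

namespace Pool.Agent.Helper55_HK

/-- `δ` is a continuous triangle with sides on the lines `A`, `B`, `T`, which otherwise avoids all
lines: the sides `x = 0` and `x = 1` of the square are mapped to `A` and `B`, the side `s = 1` is
mapped to `T`, and the side `s = 0` is mapped to the point of intersection of `A` and `B`. -/
structure IsTriangle {k : ℕ} (a : Fin k → Fin 3 → ℂ) (A B T : Fin k)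
    (δ : C(Square, Fin 3 → ℂ)) : Prop where
  on_A : ∀ x s, fm (a A) (δ (x, s)) = 0 ↔ x = 0 ∨ s = 0
  on_B : ∀ x s, fm (a B) (δ (x, s)) = 0 ↔ x = 1 ∨ s = 0
  on_T : ∀ x s, fm (a T) (δ (x, s)) = 0 ↔ s = 1
  off : ∀ i, i ≠ A → i ≠ B → i ≠ T → ∀ z, fm (a i) (δ z) ≠ 0

theorem onLine_mk' {n k : ℕ} {a : Fin k → Fin 3 → ℂ} {x : Fin k → ℂ}
    {v : Fin 3 → ℂ} {hx : ∀ i, x i ^ n = a i ⬝ᵥ v} {h0 : x ≠ 0}
    {hS : ∀ S : {S : Finset (Fin k) // IsMultiple a S}, (fun i : S.1 => x i) ≠ 0}
    (i : Fin k) (h : x i = 0) : OnLine i (HK.mk' n a x v hx h0 hS) := by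
  refine ⟨?_, fun S hi => ?_⟩
  · obtain ⟨c, hc⟩ := Projectivization.exists_smul_eq_mk_rep ℂ x h0
    have := congrFun hc i
    refine this.symm.trans ?_
    change (c : ℂ) * x i = 0
    rw [h, mul_zero]
  · obtain ⟨c, hc⟩ := Projectivization.exists_smul_eq_mk_rep ℂ _ (hS S)
    have := congrFun hc ⟨i, hi⟩
    refine this.symm.trans ?_
    change (c : ℂ) * x i = 0
    rw [h, mul_zero]

/-- Folding the square along its middle line. -/
noncomputable def fold (s : I) : I := ⟨1 - |1 - 2 * (s : ℝ)|, by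
  have h0 := s.2.1
  have h1 := s.2.2
  constructor
  · rw [sub_nonneg, abs_le]
    constructor <;> linarith
  · linarith [abs_nonneg (1 - 2 * (s : ℝ))]⟩

theorem continuous_fold : Continuous fold := by
  unfold fold
  fun_prop

theorem fold_zero : fold 0 = 0 := by
  refine Subtype.ext ?_
  simp [fold]

theorem fold_one : fold 1 = 0 := by
  refine Subtype.ext ?_
  simp only [fold, Set.Icc.coe_one, Set.Icc.coe_zero]
  norm_num

theorem fold_half {s : I} (h : (s : ℝ) = 1 / 2) : fold s = 1 := by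
  refine Subtype.ext ?_
  simp [fold, h]

/-- The Hirzebruch-Kummer covering of a configuration with at least four lines which has a
triangle is not a `K(π,1)`. -/
theorem not_isKPiOne_of_triangle {n : ℕ} (hn : 2 ≤ n) {k : ℕ} (hk : 4 ≤ k)
    {a : Fin k → Fin 3 → ℂ} (ha : IsConfig a) {A B T : Fin k} {δ : C(Square, Fin 3 → ℂ)}
    (H : IsTriangle a A B T δ) : ¬ IsKPiOne (HK n a) := by
  have hn0 : n ≠ 0 := by omega
  have hn1 : 0 < n := by omega
  have hh0 : half 1 ≠ 0 := half_ne_zero one_ne_zero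
  have hh1 : half 1 ≠ 1 := half_ne_one 1
  have hAB : A ≠ B := by
    rintro rfl
    have h1 := (H.on_A 0 1).2 (Or.inl rfl)
    rcases (H.on_B 0 1).1 h1 with h2 | h2
    · exact zero_ne_one h2
    · exact one_ne_zero h2
  have hAT : A ≠ T := by
    rintro rfl
    have h1 := (H.on_A 0 0).2 (Or.inl rfl)
    exact zero_ne_one ((H.on_T 0 0).1 h1)
  have hBT : B ≠ T := by
    rintro rfl
    have h1 := (H.on_B 1 0).2 (Or.inl rfl)
    exact zero_ne_one ((H.on_T 1 0).1 h1)
  obtain ⟨J, hJA, hJB, hJT⟩ : ∃ J, J ≠ A ∧ J ≠ B ∧ J ≠ T := by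
    have hcard : ({A, B, T} : Finset (Fin k)).card < (Finset.univ : Finset (Fin k)).card := by
      rw [Finset.card_univ, Fintype.card_fin]
      exact lt_of_le_of_lt Finset.card_le_three (by omega)
    obtain ⟨J, -, hJ⟩ := Finset.exists_mem_notMem_of_card_lt_card hcard
    simp only [Finset.mem_insert, Finset.mem_singleton, not_or] at hJ
    exact ⟨J, hJ.1, hJ.2.1, hJ.2.2⟩
  set o := δ (0, 0) with ho
  have hdouble : ∀ x i, fm (a i) (δ (x, 0)) = 0 ↔ i = A ∨ i = B := by
    intro x i
    constructor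
    · intro h
      by_contra hcon
      push Not at hcon
      by_cases hiT : i = T
      · subst hiT
        exact zero_ne_one ((H.on_T x 0).1 h)
      · exact H.off i hcon.1 hcon.2 hiT _ h
    · rintro (rfl | rfl)
      · exact (H.on_A x 0).2 (Or.inr rfl)
      · exact (H.on_B x 0).2 (Or.inr rfl)
  have hlin := ha.distinct A B hAB
  -- the three lines have no common point
  have hABT : ∀ v : Fin 3 → ℂ, fm (a A) v = 0 → fm (a B) v = 0 → fm (a T) v = 0 → v = 0 := by
    intro v hA hB hT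
    have hTo : fm (a T) o ≠ 0 := fun h => zero_ne_one ((H.on_T 0 0).1 h)
    have ho0 : o ≠ 0 := by
      intro h
      rw [h, fm, dotProduct_zero] at hTo
      exact hTo rfl
    obtain ⟨c, rfl⟩ := exists_smul_of_zero hlin ho0 ((hdouble 0 A).2 (Or.inl rfl))
      ((hdouble 0 B).2 (Or.inr rfl)) hA hB
    rw [fm, dotProduct_smul, smul_eq_mul] at hT
    rw [(mul_eq_zero.1 hT).resolve_right hTo, zero_smul]
  -- roots of the forms along the triangle
  have hroot : ∀ i, ∃ g : C(I × I, ℂ), ∀ z, g z ^ n = a i ⬝ᵥ δ z := by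
    intro i
    let f : C(I × I, ℂ) := ⟨fun z => a i ⬝ᵥ δ z, by
      simp only [dotProduct]
      fun_prop⟩
    refine exists_root_square hn0 f ?_
    by_cases hiA : i = A
    · subst hiA
      have : {z : ℝ × ℝ | f (sq z) ≠ 0} = Set.Ioi (0 : ℝ) ×ˢ Set.Ioi (0 : ℝ) := by
        ext z
        have h1 := H.on_A (sq z).1 (sq z).2
        rw [sq_fst_eq_zero, sq_snd_eq_zero] at h1
        simp only [f, ContinuousMap.coe_mk, Set.mem_ofPred_eq, ne_eq, Set.mem_prod, Set.mem_Ioi]
        change ¬ fm (a i) (δ ((sq z).1, (sq z).2)) = 0 ↔ _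
        rw [h1]
        push Not
        rfl
      rw [this]
      exact (convex_Ioi 0).prod (convex_Ioi 0)
    by_cases hiB : i = B
    · subst hiB
      have : {z : ℝ × ℝ | f (sq z) ≠ 0} = Set.Iio (1 : ℝ) ×ˢ Set.Ioi (0 : ℝ) := by
        ext z
        have h1 := H.on_B (sq z).1 (sq z).2
        rw [sq_fst_eq_one, sq_snd_eq_zero] at h1
        simp only [f, ContinuousMap.coe_mk, Set.mem_ofPred_eq, ne_eq, Set.mem_prod, Set.mem_Ioi,
          Set.mem_Iio]
        change ¬ fm (a i) (δ ((sq z).1, (sq z).2)) = 0 ↔ _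
        rw [h1]
        push Not
        rfl
      rw [this]
      exact (convex_Iio 1).prod (convex_Ioi 0)
    by_cases hiT : i = T
    · subst hiT
      have : {z : ℝ × ℝ | f (sq z) ≠ 0} = Set.univ ×ˢ Set.Iio (1 : ℝ) := by
        ext z
        have h1 := H.on_T (sq z).1 (sq z).2
        rw [sq_snd_eq_one] at h1
        simp only [f, ContinuousMap.coe_mk, Set.mem_ofPred_eq, ne_eq, Set.mem_prod, Set.mem_univ,
          true_and, Set.mem_Iio]
        change ¬ fm (a i) (δ ((sq z).1, (sq z).2)) = 0 ↔ _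
        rw [h1]
        push Not
        rfl
      rw [this]
      exact convex_univ.prod (convex_Iio 1)
    · have : {z : ℝ × ℝ | f (sq z) ≠ 0} = Set.univ := by
        ext z
        simp only [Set.mem_ofPred_eq, Set.mem_univ, iff_true]
        exact H.off i hiA hiB hiT _
      rw [this]
      exact convex_univ
  choose X hX using hroot
  have hX0 : ∀ i z, X i z = 0 ↔ fm (a i) (δ z) = 0 := by
    intro i z
    rw [← pow_eq_zero_iff hn0, hX]
  -- a nontrivial root of unity
  obtain ⟨ζ, hζ⟩ : ∃ ζ : ℂ, IsPrimitiveRoot ζ n := ⟨_, Complex.isPrimitiveRoot_exp n hn0⟩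
  have hζ1 : ζ ≠ 1 := hζ.ne_one (by omega)
  -- the coordinates of the bigon
  let ph : Fin k → I × I → ℂ := fun i z => if i = T ∧ (1 / 2 : ℝ) < z.2 then ζ else 1
  let Y : I × I → Fin k → ℂ := fun z i => ph i z * X i (z.1, fold z.2)
  have hph : ∀ i z, ph i z ^ n = 1 := by
    intro i z
    simp only [ph]
    split_ifs
    · exact hζ.pow_eq_one
    · exact one_pow _
  have hph0 : ∀ i z, ph i z ≠ 0 := fun i z => ne_zero_of_pow hn0 (hph i z)
  have hYn : ∀ z i, Y z i ^ n = a i ⬝ᵥ δ (z.1, fold z.2) := by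
    intro z i
    simp only [Y, mul_pow, hph, one_mul, hX]
  have hY0 : ∀ z i, Y z i = 0 ↔ fm (a i) (δ (z.1, fold z.2)) = 0 := by
    intro z i
    simp only [Y, mul_eq_zero, hph0, false_or, hX0]
  have hYc : Continuous Y := by
    refine continuous_pi fun i => ?_
    have hc : Continuous fun z : I × I => X i (z.1, fold z.2) :=
      (X i).continuous.comp (continuous_fst.prodMk (continuous_fold.comp continuous_snd))
    by_cases hiT : i = T
    · have h1 : (fun z => Y z i) = fun z : I × I => if ((z.2 : I) : ℝ) ≤ 1 / 2 then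
          X i (z.1, fold z.2) else ζ * X i (z.1, fold z.2) := by
        funext z
        simp only [Y, ph, hiT, true_and]
        by_cases h : ((z.2 : I) : ℝ) ≤ 1 / 2
        · rw [if_neg (not_lt.2 h), if_pos h, one_mul]
        · rw [if_pos (not_le.1 h), if_neg h]
      rw [h1]
      refine Continuous.if_le hc (continuous_const.mul hc) (by fun_prop) continuous_const ?_
      intro z hz
      have h2 : X i (z.1, fold z.2) = 0 := by
        rw [hX0, fold_half hz, hiT]
        exact (H.on_T _ _).2 rfl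
      rw [h2, mul_zero]
    · have h1 : (fun z => Y z i) = fun z : I × I => X i (z.1, fold z.2) := by
        funext z
        simp only [Y, ph, hiT, false_and, if_false, one_mul]
      rw [h1]
      exact hc
  have hYJ : ∀ z, Y z J ≠ 0 := fun z => by
    rw [ne_eq, hY0]
    exact H.off J hJA hJB hJT _
  have hYne : ∀ z, Y z ≠ 0 := fun z h => hYJ z (congrFun h J)
  have hYS : ∀ z, ∀ S : {S : Finset (Fin k) // IsMultiple a S}, (fun i : S.1 => Y z i) ≠ 0 := by
    rintro z ⟨S, hS3, v, hv0, hv⟩ h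
    have hzero : ∀ i ∈ S, i = A ∨ i = B ∨ i = T := by
      intro i hi
      have h1 := (hY0 z i).1 (congrFun h ⟨i, hi⟩)
      by_contra hcon
      push Not at hcon
      exact H.off i hcon.1 hcon.2.1 hcon.2.2 _ h1
    have hsub : S ⊆ {A, B, T} := fun i hi => by
      simp only [Finset.mem_insert, Finset.mem_singleton]
      exact hzero i hi
    have heq : S = {A, B, T} := Finset.eq_of_subset_of_card_le hsub
      (Finset.card_le_three.trans hS3)
    refine hv0 (hABT v ((hv A).1 ?_) ((hv B).1 ?_) ((hv T).1 ?_)) <;> rw [heq] <;> simp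
  let D : C(Square, HK n a) := ⟨fun z => HK.mk' n a (Y z) (δ (z.1, fold z.2)) (hYn z) (hYne z)
    (hYS z), HK.continuous_mk' hYc hYn hYne hYS⟩
  -- the side `s = 0` of the triangle is collapsed
  have hcol : ∀ x i, X i (x, 0) * X J (0, 0) = X i (0, 0) * X J (x, 0) := by
    intro x i
    by_cases hiA : i = A
    · rw [(hX0 i (x, 0)).2 ((hdouble x i).2 (Or.inl hiA)),
        (hX0 i (0, 0)).2 ((hdouble 0 i).2 (Or.inl hiA)), zero_mul, zero_mul]
    by_cases hiB : i = B
    · rw [(hX0 i (x, 0)).2 ((hdouble x i).2 (Or.inr hiB)),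
        (hX0 i (0, 0)).2 ((hdouble 0 i).2 (Or.inr hiB)), zero_mul, zero_mul]
    have hne : ∀ j, j ≠ A → j ≠ B → ∀ x, fm (a j) (δ (x, 0)) ≠ 0 := fun j h1 h2 x h => by
      rcases (hdouble x j).1 h with h' | h'
      · exact h1 h'
      · exact h2 h'
    have hTo := hne T hAT.symm hBT.symm 0
    have ho0 : o ≠ 0 := by
      intro h
      apply hTo
      change fm (a T) o = 0
      rw [h, fm, dotProduct_zero]
    refine ratio_const hn0 ⟨fun x => X i (x, 0), by fun_prop⟩ ⟨fun x => X J (x, 0), by fun_prop⟩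
      (fun x h => hne i hiA hiB x ((hX0 _ _).1 h)) (fun x h => hne J hJA hJB x ((hX0 _ _).1 h))
      (c := a J ⬝ᵥ o) (d := a i ⬝ᵥ o) (hne J hJA hJB 0) (fun x => ?_) x 0
    obtain ⟨c, hc⟩ := exists_smul_of_zero hlin ho0 ((hdouble 0 A).2 (Or.inl rfl))
      ((hdouble 0 B).2 (Or.inr rfl)) ((hdouble x A).2 (Or.inl rfl)) ((hdouble x B).2 (Or.inr rfl))
    simp only [ContinuousMap.coe_mk]
    rw [hX, hX, hc, dotProduct_smul, dotProduct_smul, smul_eq_mul, smul_eq_mul]
    ring
  have hXJ : ∀ x, X J (x, 0) ≠ 0 := fun x h => H.off J hJA hJB hJT _ ((hX0 _ _).1 h)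
  have hside : ∀ s : I, fold s = 0 → ∀ x, D (x, s) = D (0, s) := by
    intro s hs x
    refine HK.mk'_eq (hx := hYn (x, s)) (hy := hYn (0, s)) (X J (x, 0) / X J (0, 0)) fun i => ?_
    simp only [Y, ph, hs]
    have h1 := hXJ 0
    have e : X i (x, 0) = X J (x, 0) / X J (0, 0) * X i (0, 0) := by
      rw [div_mul_eq_mul_div, eq_div_iff h1, hcol x i, mul_comm]
    rw [e]
    ring
  refine not_isKPiOne_of_crossing hn ha hAB (hdouble 0) D (fun s => ?_) (fun s => ?_)
    (fun x => hside 0 fold_zero x) (fun x => hside 1 fold_one x) ?_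
  · refine onLine_mk' (hx := hYn (0, s)) A ((hY0 _ _).2 ?_)
    exact (H.on_A _ _).2 (Or.inl rfl)
  · refine onLine_mk' (hx := hYn (1, s)) B ((hY0 _ _).2 ?_)
    exact (H.on_B _ _).2 (Or.inl rfl)
  · intro h
    have h1 := congrArg (fun p : HK n a => p.1.1) h
    obtain ⟨c, hc⟩ := (Projectivization.mk_eq_mk_iff' ℂ _ _ _ _).1 h1
    have hJ : c * Y (0, 1) J = Y (0, 0) J := congrFun hc J
    have hT : c * Y (0, 1) T = Y (0, 0) T := congrFun hc T
    simp only [Y, ph, fold_zero, fold_one, hJT, false_and, if_false, one_mul, true_and,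
      Set.Icc.coe_one, Set.Icc.coe_zero] at hJ hT
    rw [if_pos (by norm_num), if_neg (by norm_num), one_mul] at hT
    have hc1 : c = 1 := by
      have := hXJ 0
      field_simp at hJ
      exact hJ
    have hTo : X T (0, 0) ≠ 0 := fun h => zero_ne_one ((H.on_T 0 0).1 ((hX0 _ _).1 h))
    rw [hc1, one_mul] at hT
    exact hζ1 (mul_right_cancel₀ hTo (hT.trans (one_mul _).symm))

end Pool.Agent.Helper55_HK
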