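import Pool.Agent.Helper55_HK.Roots

/-! The automorphisms of the Hirzebruch-Kummer covering which multiply the homogeneous
coordinates by roots of unity. -/

open Topology unitInterval
open scoped LinearAlgebra.Projectivization Matrix

namespace Pool.Agent.Helper55_HK

/-- Multiplication of the homogeneous coordinates by `w`. -/
noncomputable def scale {ι : Type} (w : ι → ℂ) (hw : ∀ i, w i ≠ 0) (x : PP ι) : PP ι :=
  Projectivization.mk ℂ (fun i => w i * x.rep i) fun h => x.rep_nonzero (funext fun i =>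
    (mul_eq_zero.1 (congrFun h i)).resolve_left (hw i))

theorem scale_mk {ι : Type} (w : ι → ℂ) (hw : ∀ i, w i ≠ 0) (v : ι → ℂ) (hv : v ≠ 0)
    (hwv : (fun i => w i * v i) ≠ 0) :
    scale w hw (Projectivization.mk ℂ v hv) = Projectivization.mk ℂ (fun i => w i * v i) hwv := by
  obtain ⟨c, hc⟩ := Projectivization.exists_smul_eq_mk_rep ℂ v hv
  refine (Projectivization.mk_eq_mk_iff' ℂ _ _ _ _).2 ⟨(c : ℂ), ?_⟩
  rw [← hc]
  funext i
  change (c : ℂ) * (w i * v i) = w i * ((c : ℂ) * v i)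
  ring

theorem scale_rep {ι : Type} (w : ι → ℂ) (hw : ∀ i, w i ≠ 0) (x : PP ι) :
    ∃ c : ℂ, c ≠ 0 ∧ ∀ i, (scale w hw x).rep i = c * (w i * x.rep i) := by
  obtain ⟨c, hc⟩ := Projectivization.exists_smul_eq_mk_rep ℂ (fun i => w i * x.rep i)
    (fun h => x.rep_nonzero (funext fun i => (mul_eq_zero.1 (congrFun h i)).resolve_left (hw i)))
  exact ⟨c, c.ne_zero, fun i => (congrFun hc i).symm⟩

theorem continuous_scale {ι : Type} (w : ι → ℂ) (hw : ∀ i, w i ≠ 0) :
    Continuous (scale w hw) := by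
  rw [isQuotientMap_mk0.continuous_iff]
  have h0 : ∀ v : {v : ι → ℂ // v ≠ 0}, (fun i => w i * v.1 i) ≠ 0 := fun v h =>
    v.2 (funext fun i => (mul_eq_zero.1 (congrFun h i)).resolve_left (hw i))
  have : scale w hw ∘ (fun v : {v : ι → ℂ // v ≠ 0} => Projectivization.mk ℂ v.1 v.2) =
      fun v => Projectivization.mk ℂ (fun i => w i * v.1 i) (h0 v) := by
    funext v
    exact scale_mk w hw v.1 v.2 (h0 v)
  rw [this]
  exact continuous_mk (f := fun v : {v : ι → ℂ // v ≠ 0} => fun i => w i * v.1 i)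
    (continuous_pi fun i => continuous_const.mul
      ((continuous_apply i).comp continuous_subtype_val)) h0

theorem ne_zero_of_pow {n : ℕ} (hn : n ≠ 0) {w : ℂ} (hw : w ^ n = 1) : w ≠ 0 := by
  rintro rfl
  rw [zero_pow hn] at hw
  exact zero_ne_one hw

theorem kummer_scale {n : ℕ} {ι : Type} {a : ι → Fin 3 → ℂ} {w : ι → ℂ}
    (hw : ∀ i, w i ≠ 0) (hwn : ∀ i, w i ^ n = 1) {x : PP ι} (hx : x ∈ kummer n a) :
    scale w hw x ∈ kummer n a := by
  obtain ⟨c, hc, h⟩ := scale_rep w hw x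
  obtain ⟨v, hv⟩ := hx
  refine ⟨c ^ n • v, fun i => ?_⟩
  rw [h, mul_pow, mul_pow, hwn, one_mul, hv, fm, fm, dotProduct_smul, smul_eq_mul]

/-- The automorphism of the Hirzebruch-Kummer covering which multiplies the coordinates by the
`n`-th roots of unity `w i`. -/
noncomputable def twist {n : ℕ} (hn : n ≠ 0) {k : ℕ} {a : Fin k → Fin 3 → ℂ} (w : Fin k → ℂ)
    (hw : ∀ i, w i ^ n = 1) (p : HK n a) : HK n a :=
  ⟨(scale w (fun i => ne_zero_of_pow hn (hw i)) p.1.1,
    fun S => scale (fun i : S.1 => w i) (fun i => ne_zero_of_pow hn (hw i)) (p.1.2 S)), by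
    refine ⟨kummer_scale (fun i => ne_zero_of_pow hn (hw i)) hw p.2.1, fun S => ⟨kummer_scale (w := fun i : S.1 => w i)
      (fun i => ne_zero_of_pow hn (hw i)) (fun i => hw i) (p.2.2 S).1, ?_⟩⟩
    obtain ⟨c, hc⟩ := (p.2.2 S).2
    obtain ⟨d, hd, h1⟩ := scale_rep w (fun i => ne_zero_of_pow hn (hw i)) p.1.1
    obtain ⟨e, he, h2⟩ := scale_rep (fun i : S.1 => w i)
      (fun i => ne_zero_of_pow hn (hw i)) (p.1.2 S)
    refine ⟨d * c / e, fun i => ?_⟩
    rw [h1, h2, hc]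
    field_simp⟩

theorem continuous_twist {n : ℕ} (hn : n ≠ 0) {k : ℕ} {a : Fin k → Fin 3 → ℂ} (w : Fin k → ℂ)
    (hw : ∀ i, w i ^ n = 1) : Continuous (twist (a := a) hn w hw) := by
  refine Continuous.subtype_mk (Continuous.prodMk ?_ ?_) _
  · exact (continuous_scale _ _).comp (continuous_fst.comp continuous_subtype_val)
  · refine continuous_pi fun S => ?_
    exact (continuous_scale _ _).comp ((continuous_apply S).comp
      (continuous_snd.comp continuous_subtype_val))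

/-- The point `p` lies on the ramification curve over the `i`-th line (the preimage of the proper
transform of this line). -/
def OnLine {n k : ℕ} {a : Fin k → Fin 3 → ℂ} (i : Fin k) (p : HK n a) : Prop :=
  p.1.1.rep i = 0 ∧ ∀ (S : Mult a) (h : i ∈ S.1), (p.1.2 S).rep ⟨i, h⟩ = 0

theorem scale_congr {ι : Type} {w w' : ι → ℂ} (hw : ∀ i, w i ≠ 0) (hw' : ∀ i, w' i ≠ 0)
    (x : PP ι) (h : ∀ i, w i = w' i ∨ x.rep i = 0) : scale w hw x = scale w' hw' x := by
  refine (Projectivization.mk_eq_mk_iff' ℂ _ _ _ _).2 ⟨1, ?_⟩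
  rw [one_smul]
  funext i
  rcases h i with h | h
  · rw [h]
  · rw [h, mul_zero, mul_zero]

theorem twist_congr {n : ℕ} (hn : n ≠ 0) {k : ℕ} {a : Fin k → Fin 3 → ℂ} {w w' : Fin k → ℂ}
    (hw : ∀ i, w i ^ n = 1) (hw' : ∀ i, w' i ^ n = 1) (p : HK n a)
    (h : ∀ i, w i = w' i ∨ OnLine i p) : twist hn w hw p = twist hn w' hw' p := by
  refine Subtype.ext (Prod.ext ?_ (funext fun S => ?_))
  · exact scale_congr (fun i => ne_zero_of_pow hn (hw i)) (fun i => ne_zero_of_pow hn (hw' i)) _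
      fun i => (h i).imp id fun h => h.1
  · exact scale_congr (w := fun i : S.1 => w i) (w' := fun i : S.1 => w' i)
      (fun i => ne_zero_of_pow hn (hw i)) (fun i => ne_zero_of_pow hn (hw' i)) _
      fun i => (h i).imp id fun h => h.2 S i.2

theorem twist_one {n : ℕ} (hn : n ≠ 0) {k : ℕ} {a : Fin k → Fin 3 → ℂ} {w : Fin k → ℂ}
    (hw : ∀ i, w i ^ n = 1) (p : HK n a) (h : ∀ i, w i = 1 ∨ OnLine i p) :
    twist hn w hw p = p := by
  have key : ∀ {ι : Type} (w : ι → ℂ) (hw : ∀ i, w i ≠ 0) (x : PP ι),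
      (∀ i, w i = 1 ∨ x.rep i = 0) → scale w hw x = x := by
    intro ι w hw x h
    have h1 : x = Projectivization.mk ℂ x.rep x.rep_nonzero := x.mk_rep.symm
    conv_rhs => rw [h1]
    refine (Projectivization.mk_eq_mk_iff' ℂ _ _ _ _).2 ⟨1, ?_⟩
    rw [one_smul]
    funext i
    rcases h i with h | h
    · rw [h, one_mul]
    · rw [h, mul_zero]
  refine Subtype.ext (Prod.ext ?_ (funext fun S => ?_))
  · exact key w (fun i => ne_zero_of_pow hn (hw i)) _ fun i => (h i).imp id fun h => h.1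
  · exact key (fun i : S.1 => w i) (fun i => ne_zero_of_pow hn (hw i)) _
      fun i => (h i).imp id fun h => h.2 S i.2

/-- The line field attached to a relation
`x ^ n - y ^ n = z ^ n - w ^ n` between multiples of coordinates, on the Kummer covering, with
its equivariance. -/
theorem exists_line_field' {n : ℕ} (hn : 2 ≤ n) {k : ℕ} (a : Fin k → Fin 3 → ℂ)
    (T T' A B : Fin k) (κ κ' α β : ℂ) (hκ : κ ≠ 0) (hα : α ≠ 0) (hβ : β ≠ 0)
    (hrel : ∀ v : Fin 3 → ℂ, κ' ^ n * (a T' ⬝ᵥ v) - κ ^ n * (a T ⬝ᵥ v) =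
      α ^ n * (a A ⬝ᵥ v) - β ^ n * (a B ⬝ᵥ v))
    (hker : ∀ v : Fin 3 → ℂ, a T ⬝ᵥ v = 0 → a A ⬝ᵥ v = 0 → a B ⬝ᵥ v = 0 → v = 0)
    {ω₀ : ℂ} (hω₀ : ω₀ ^ n = 1) :
    ∃ Φ : C(HK n a, ℂ × ℂ →L[ℂ] ℂ × ℂ), (∀ p v, Φ p (Φ p v) = Φ p v) ∧ (∀ p, Φ p ≠ 0) ∧
      (∀ p (u v : ℂ × ℂ), Φ p u = u → Φ p v = v → u.1 * v.2 = u.2 * v.1) ∧
      (∀ (p q : HK n a) (c : ℂ), c ^ n = 1 → (∃ d : ℂ, d ≠ 0 ∧
        q.1.1.rep T = d * p.1.1.rep T ∧ q.1.1.rep T' = d * p.1.1.rep T' ∧
        q.1.1.rep A = d * (c * p.1.1.rep A) ∧ q.1.1.rep B = d * (c * p.1.1.rep B)) →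
        ∀ u : ℂ × ℂ, Φ p u = u → Φ q (u.1, c * u.2) = (u.1, c * u.2)) ∧
      ∀ p : HK n a, p.1.1.rep A = 0 → p.1.1.rep B = 0 → ∀ g : ℂ × ℂ, Φ p g = g →
        (κ' * p.1.1.rep T' = ω₀ * (κ * p.1.1.rep T) → g.1 = 0) ∧
        (κ' * p.1.1.rep T' ≠ ω₀ * (κ * p.1.1.rep T) → g.2 = 0) := by
  have hn0 : 0 < n := by omega
  have h1n : (1 : ℂ) ^ n = 1 := one_pow n
  let f1 : (Fin k → ℂ) → ℂ × ℂ := fun x =>
    (κ' * x T' - ω₀ * (κ * x T), α * x A - 1 * (β * x B))
  let f2 : (Fin k → ℂ) → ℂ × ℂ := fun x =>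
    (cof n 1 (α * x A) (β * x B), cof n ω₀ (κ' * x T') (κ * x T))
  have hf1c : Continuous f1 := by fun_prop
  have hf2c : Continuous f2 := by
    refine Continuous.prodMk (continuous_cof n 1 ?_ ?_) (continuous_cof n ω₀ ?_ ?_) <;> fun_prop
  have hf1 : ∀ (c : ℂ) x, f1 (c • x) = c ^ 1 • f1 x := by
    intro c x
    refine Prod.ext ?_ ?_
    · simp only [f1, Pi.smul_apply, smul_eq_mul, Prod.smul_fst]
      ring
    · simp only [f1, Pi.smul_apply, smul_eq_mul, Prod.smul_snd]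
      ring
  have hf2 : ∀ (c : ℂ) x, f2 (c • x) = c ^ (n - 1) • f2 x := by
    intro c x
    refine Prod.ext ?_ ?_
    · simp only [f2, Pi.smul_apply, smul_eq_mul, Prod.smul_fst]
      rw [← cof_smul hn0 h1n]
      congr 1 <;> ring
    · simp only [f2, Pi.smul_apply, smul_eq_mul, Prod.smul_snd]
      rw [← cof_smul hn0 hω₀]
      congr 1 <;> ring
  -- on the Kummer covering the two vectors are parallel and never both zero
  have hpar : ∀ x : Fin k → ℂ, ∀ v : Fin 3 → ℂ, (∀ i, x i ^ n = a i ⬝ᵥ v) →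
      (f1 x).1 * (f2 x).2 = (f1 x).2 * (f2 x).1 := by
    intro x v hx
    simp only [f1, f2]
    rw [factor_mul_cof hn0 hω₀, factor_mul_cof hn0 h1n, mul_pow, mul_pow, mul_pow, mul_pow,
      hx, hx, hx, hx]
    exact hrel v
  have hnz : ∀ x : Fin k → ℂ, x ≠ 0 → ∀ v : Fin 3 → ℂ, (∀ i, x i ^ n = a i ⬝ᵥ v) →
      f1 x = 0 → f2 x ≠ 0 := by
    intro x hx0 v hx h1 h2
    have e1 := congrArg Prod.fst h1
    have e2 := congrArg Prod.snd h1
    have e3 := congrArg Prod.fst h2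
    have e4 := congrArg Prod.snd h2
    simp only [f1, f2, Prod.fst_zero, Prod.snd_zero] at e1 e2 e3 e4
    obtain ⟨-, hT⟩ := eq_zero_of_factor_cof e1 e4
    obtain ⟨hA, hB⟩ := eq_zero_of_factor_cof e2 e3
    have hT0 : x T = 0 := (mul_eq_zero.1 hT).resolve_left hκ
    have hA0 : x A = 0 := (mul_eq_zero.1 hA).resolve_left hα
    have hB0 : x B = 0 := (mul_eq_zero.1 hB).resolve_left hβ
    have hv : v = 0 := by
      refine hker v ?_ ?_ ?_
      · rw [← hx, hT0, zero_pow hn0.ne']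
      · rw [← hx, hA0, zero_pow hn0.ne']
      · rw [← hx, hB0, zero_pow hn0.ne']
    apply hx0
    funext i
    have := hx i
    rw [hv, dotProduct_zero] at this
    simpa [hn0.ne'] using this
  classical
  let Φ : HK n a → (ℂ × ℂ →L[ℂ] ℂ × ℂ) := fun p =>
    if f1 p.1.1.rep = 0 then idem (f2 p.1.1.rep) else idem (f1 p.1.1.rep)
  have hmem : ∀ p : HK n a, ∃ v : Fin 3 → ℂ, ∀ i, p.1.1.rep i ^ n = a i ⬝ᵥ v := fun p => p.2.1
  have hΦ1 : ∀ p : HK n a, f1 p.1.1.rep ≠ 0 → Φ p = idem (f1 p.1.1.rep) := by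
    intro p hp
    simp only [Φ, if_neg hp]
  have hΦ2 : ∀ p : HK n a, f2 p.1.1.rep ≠ 0 → Φ p = idem (f2 p.1.1.rep) := by
    intro p hp
    by_cases h : f1 p.1.1.rep = 0
    · simp only [Φ, if_pos h]
    · rw [hΦ1 p h]
      obtain ⟨v, hv⟩ := hmem p
      exact idem_eq_of_parallel h hp (hpar _ v hv)
  have hπ : Continuous fun p : HK n a => p.1.1 := continuous_fst.comp continuous_subtype_val
  have hcont : Continuous Φ := by
    rw [continuous_iff_continuousAt]
    intro p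
    have aux : ∀ (f : (Fin k → ℂ) → ℂ × ℂ) (d : ℕ), Continuous f →
        (∀ (c : ℂ) x, f (c • x) = c ^ d • f x) →
        (∀ q : HK n a, f q.1.1.rep ≠ 0 → Φ q = idem (f q.1.1.rep)) → f p.1.1.rep ≠ 0 →
        ContinuousAt Φ p := by
      intro f d hfc hf hΦf hp
      have h1 : ContinuousAt (fun q : HK n a => idem (f q.1.1.rep)) p :=
        ContinuousAt.comp (g := fun Q : ℙ ℂ (Fin k → ℂ) => idem (f Q.rep))
          (f := fun q : HK n a => q.1.1) (continuousAt_idem_rep hfc hf p.1.1 hp)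
          hπ.continuousAt
      refine h1.congr ?_
      have h2 : {q : HK n a | idem (f q.1.1.rep) ≠ 0} ∈ 𝓝 p :=
        h1.eventually_ne (idem_ne_zero hp)
      filter_upwards [h2] with q hq
      refine (hΦf q fun h0 => hq ?_).symm
      rw [h0]
      refine ContinuousLinearMap.ext fun v => ?_
      simp [idem_apply]
    by_cases h : f1 p.1.1.rep = 0
    · obtain ⟨v, hv⟩ := hmem p
      exact aux f2 _ hf2c hf2 hΦ2 (hnz _ p.1.1.rep_nonzero v hv h)
    · exact aux f1 _ hf1c hf1 hΦ1 h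
  -- the line is the line of one of the two vectors
  have hdich : ∀ p : HK n a, ∃ f : ℂ × ℂ, f ≠ 0 ∧ Φ p = idem f := by
    intro p
    by_cases h : f1 p.1.1.rep = 0
    · obtain ⟨v, hv⟩ := hmem p
      have := hnz _ p.1.1.rep_nonzero v hv h
      exact ⟨_, this, hΦ2 p this⟩
    · exact ⟨_, h, hΦ1 p h⟩
  have hfix : ∀ (f u : ℂ × ℂ), f ≠ 0 → u.1 * f.2 = u.2 * f.1 → idem f u = u := by
    intro f u hf h
    by_cases hu : u = 0
    · rw [hu, map_zero]
    · rw [idem_eq_of_parallel hf hu (by linear_combination -h)]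
      exact idem_self hu
  refine ⟨⟨Φ, hcont⟩, fun p v => ?_, fun p => ?_, fun p u v hu hv => ?_,
    fun p q c hc hpq u hu => ?_, fun p hA hB g hg => ⟨fun hT => ?_, fun hT => ?_⟩⟩
  · obtain ⟨f, -, hf⟩ := hdich p
    simp only [ContinuousMap.coe_mk, hf]
    exact idem_idem _ _
  · obtain ⟨f, hf0, hf⟩ := hdich p
    simp only [ContinuousMap.coe_mk, hf]
    exact idem_ne_zero hf0
  · obtain ⟨f, hf0, hf⟩ := hdich p
    simp only [ContinuousMap.coe_mk, hf] at hu hv
    have h1 := parallel_of_idem hu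
    have h2 := parallel_of_idem hv
    by_cases hf1 : f.1 = 0
    · have hf2 : f.2 ≠ 0 := fun h => hf0 (Prod.ext hf1 h)
      have h3 : f.2 * (u.1 * v.2 - u.2 * v.1) = 0 := by linear_combination v.2 * h1 - u.2 * h2
      exact sub_eq_zero.1 ((mul_eq_zero.1 h3).resolve_left hf2)
    · have h3 : f.1 * (u.1 * v.2 - u.2 * v.1) = 0 := by linear_combination v.1 * h1 - u.1 * h2
      exact sub_eq_zero.1 ((mul_eq_zero.1 h3).resolve_left hf1)
  · simp only [ContinuousMap.coe_mk] at hu ⊢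
    obtain ⟨d, hd, hqT, hqT', hqA, hqB⟩ := hpq
    obtain ⟨v, hv⟩ := hmem p
    have hc0 : c ≠ 0 := ne_zero_of_pow hn0.ne' hc
    have g1 : f1 q.1.1.rep = (d * (f1 p.1.1.rep).1, d * (c * (f1 p.1.1.rep).2)) := by
      refine Prod.ext ?_ ?_
      · simp only [f1, hqT, hqT']; ring
      · simp only [f1, hqA, hqB]; ring
    have g2 : f2 q.1.1.rep = ((d * c) ^ (n - 1) * (f2 p.1.1.rep).1,
        d ^ (n - 1) * (f2 p.1.1.rep).2) := by
      refine Prod.ext ?_ ?_
      · simp only [f2, hqA, hqB]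
        rw [← cof_smul hn0 h1n]
        congr 1 <;> ring
      · simp only [f2, hqT, hqT']
        rw [← cof_smul hn0 hω₀]
        congr 1 <;> ring
    by_cases h : f1 p.1.1.rep = 0
    · have hp2 := hnz _ p.1.1.rep_nonzero v hv h
      rw [hΦ2 p hp2] at hu
      have hpar2 := parallel_of_idem hu
      have hq2 : f2 q.1.1.rep ≠ 0 := by
        rw [g2]
        intro h0
        apply hp2
        refine Prod.ext ?_ ?_
        · exact (mul_eq_zero.1 (congrArg Prod.fst h0)).resolve_left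
            (pow_ne_zero _ (mul_ne_zero hd hc0))
        · exact (mul_eq_zero.1 (congrArg Prod.snd h0)).resolve_left (pow_ne_zero _ hd)
      rw [hΦ2 q hq2]
      refine hfix _ _ hq2 ?_
      rw [g2]
      simp only
      have hcn : c * c ^ (n - 1) = 1 := by
        rw [← pow_succ', Nat.sub_add_cancel hn0, hc]
      rw [mul_pow]
      linear_combination d ^ (n - 1) * hpar2 - d ^ (n - 1) * u.2 * (f2 p.1.1.rep).1 * hcn
    · rw [hΦ1 p h] at hu
      have hpar1 := parallel_of_idem hu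
      have hq1 : f1 q.1.1.rep ≠ 0 := by
        rw [g1]
        intro h0
        apply h
        refine Prod.ext ?_ ?_
        · exact (mul_eq_zero.1 (congrArg Prod.fst h0)).resolve_left hd
        · exact (mul_eq_zero.1 ((mul_eq_zero.1 (congrArg Prod.snd h0)).resolve_left
            hd)).resolve_left hc0
      rw [hΦ1 q hq1]
      refine hfix _ _ hq1 ?_
      rw [g1]
      simp only
      linear_combination d * c * hpar1
  · simp only [ContinuousMap.coe_mk] at hg
    obtain ⟨v, hv⟩ := hmem p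
    have h1 : f1 p.1.1.rep = 0 := by
      refine Prod.ext ?_ ?_
      · simp only [f1, Prod.fst_zero]; linear_combination hT
      · simp only [f1, hA, hB, mul_zero, sub_self, Prod.snd_zero]
    have h2 := hnz _ p.1.1.rep_nonzero v hv h1
    rw [hΦ2 p h2] at hg
    have h3 := parallel_of_idem hg
    have h4 : (f2 p.1.1.rep).1 = 0 := by
      simp only [f2, hA, hB, mul_zero, cof_zero hn h1n]
    rw [h4, mul_zero] at h3
    exact (mul_eq_zero.1 h3).resolve_right fun h5 => h2 (Prod.ext h4 h5)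
  · simp only [ContinuousMap.coe_mk] at hg
    have h1 : (f1 p.1.1.rep).1 ≠ 0 := by
      simp only [f1]
      exact sub_ne_zero.2 hT
    have h2 : (f1 p.1.1.rep).2 = 0 := by
      simp only [f1, hA, hB, mul_zero, sub_self]
    have h3 : f1 p.1.1.rep ≠ 0 := fun h => h1 (congrArg Prod.fst h)
    rw [hΦ1 p h3] at hg
    have h4 := parallel_of_idem hg
    rw [h2, mul_zero] at h4
    exact (mul_eq_zero.1 h4.symm).resolve_right h1

end Pool.Agent.Helper55_HK
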